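import Pool.Agent.U668.PA.Win

/-!
# Palindromes with prescribed leading digits and without small prime factors
-/

set_option autoImplicit false

namespace Pool.Agent.U668.PA

open Finset Filter Topology Pool.Agent.H39R3.PB Pool.Agent.H181R5.PBT9 Pool.Agent.U485.SM

variable {b : ℕ}

open Classical in
theorem wblock (hb : 4 ≤ b) (he : 2 ∣ b) (hBV : BVB b) (δ : ℝ) (hδ : 0 < δ) :
    ∃ ε : ℝ, 0 < ε ∧ ∀ᶠ M : ℕ in atTop, ∀ (K w t : ℕ), b ^ K ≤ w → w < b ^ (K + 1) →
      (w / b ^ K).Coprime b → b ≤ t → (t : ℝ) ≤ (b : ℝ) ^ (ε * M) →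
      |(((palin b (M + K)).filter
          (fun n => n / b ^ (2 * M + K) = w ∧ ∀ p, p.Prime → p ≤ t → ¬ p ∣ n)).card : ℝ) -
        (b : ℝ) ^ M * (b / (b.totient * W t))| ≤ δ * ((b : ℝ) ^ M * (b / (b.totient * W t))) := by
  obtain ⟨ε, hε, hblk⟩ := block hb he hBV δ hδ
  refine ⟨ε, hε, ?_⟩
  filter_upwards [hblk, eventually_ge_atTop 1] with M hM hM1
  intro K w t hw1 hw2 hwb hbt ht
  have hp' : 0 < b ^ K := by positivity
  have hl1 : 1 ≤ w / b ^ K := (Nat.one_le_div_iff hp').2 hw1
  have hl2 : w / b ^ K < b := Nat.div_lt_of_lt_mul (by rwa [← pow_succ])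
  set o : Fin K → Fin b := finFunctionFinEquiv.symm ⟨w % b ^ K, Nat.mod_lt _ hp'⟩ with ho
  have htop : top b (w / b ^ K) K o = w := by
    unfold top
    rw [ho, ← finFunctionFinEquiv_apply, Equiv.apply_symm_apply]
    exact Nat.div_add_mod' w _
  have h1 := hM K (w / b ^ K) t o hl2 hwb hbt ht
  have h2 : (((palin b (M + K)).filter
      (fun n => n / b ^ (2 * M + K) = w ∧ ∀ p, p.Prime → p ≤ t → ¬ p ∣ n)).card : ℝ) =
      (((univ : Finset (Fin M → Fin b)).filter
          (fun i => ∀ p, p.Prime → p ≤ t → ¬ p ∣ vv b (w / b ^ K) M K o i)).card : ℝ) := by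
    rw [← Finset.sum_boole, ← Finset.sum_boole, sum_palin (by omega) M K hM1,
      Finset.sum_eq_single (w / b ^ K), Finset.sum_eq_single o]
    · refine sum_congr rfl fun i _ => ?_
      have h3 : vv b (w / b ^ K) M K o i / b ^ (2 * M + K) = w := by
        rw [vv_div (by omega) hl2 hM1, htop]
      simp only [h3, true_and]
    · intro o' _ ho'
      refine sum_eq_zero fun i _ => if_neg fun h3 => ho' ?_
      have h4 := h3.1
      rw [vv_div (by omega) hl2 hM1, ← htop] at h4
      exact (top_inj h4).2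
    · intro h3
      exact absurd (mem_univ _) h3
    · intro l' hl' hll
      rw [mem_Icc] at hl'
      refine sum_eq_zero fun o' _ => sum_eq_zero fun i _ => if_neg fun h3 => hll ?_
      have h4 := h3.1
      rw [vv_div (by omega) (by omega) hM1, ← htop] at h4
      exact (top_inj h4).1
    · intro h3
      exact absurd (mem_Icc.2 ⟨hl1, by omega⟩) h3
  rw [h2]
  exact h1

end Pool.Agent.U668.PA
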