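import Pool.Agent.U668.PA.Det

/-!
# Rough palindromes with prescribed outer digits
-/

set_option autoImplicit false

namespace Pool.Agent.U668.PA

open Finset Filter Topology Pool.Agent.H39R3.PB Pool.Agent.H181R5.PBT9

variable {b : ℕ}

/-- Inclusion and exclusion over the primes of `Q`, for a general set `Y`. -/
theorem incl_gen (Y : Finset ℕ) (A : ℝ) (er : ℕ → ℝ) (Q T : Finset ℕ) (hQ : ∀ p ∈ Q, p.Prime)
    (hT : ∀ p ∈ T, p.Prime) (hd : Disjoint T Q)
    (hY : ∀ S ⊆ Q, |((Y.filter (fun n => (∏ p ∈ T ∪ S, p) ∣ n)).card : ℝ) -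
      A / ((∏ p ∈ T ∪ S, p : ℕ) : ℝ)| ≤ er (∏ p ∈ T ∪ S, p)) :
    |(((Y.filter (fun n => ∀ p ∈ Q, ¬ p ∣ n)).filter (fun n => ∀ p ∈ T, p ∣ n)).card : ℝ) -
      A * (∏ p ∈ Q, (1 - 1 / (p : ℝ))) * ∏ p ∈ T, 1 / (p : ℝ)| ≤
      ∑ S ∈ Q.powerset, er (∏ p ∈ T ∪ S, p) := by
  classical
  have h1 : (((Y.filter (fun n => ∀ p ∈ Q, ¬ p ∣ n)).filter
      (fun n => ∀ p ∈ T, p ∣ n)).card : ℝ) =
      ∑ S ∈ Q.powerset, (-1 : ℝ) ^ S.card *
        ((Y.filter (fun n => (∏ p ∈ T ∪ S, p) ∣ n)).card : ℝ) := by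
    rw [filter_filter, card_filter]
    push_cast
    have h2 : ∀ n, (if (∀ p ∈ Q, ¬ p ∣ n) ∧ ∀ p ∈ T, p ∣ n then (1 : ℝ) else 0) =
        ∑ S ∈ Q.powerset, (-1 : ℝ) ^ S.card * (if (∏ p ∈ T ∪ S, p) ∣ n then 1 else 0) := by
      intro n
      have h3 : ∏ p ∈ Q, (1 + (if p ∣ n then (-1 : ℝ) else 0)) =
          if (∀ p ∈ Q, ¬ p ∣ n) then 1 else 0 := by
        split_ifs with h
        · apply Finset.prod_eq_one
          intro p hp
          rw [if_neg (h p hp), add_zero]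
        · push Not at h
          obtain ⟨p, hp, hpn⟩ := h
          apply Finset.prod_eq_zero hp
          rw [if_pos hpn]
          norm_num
      have h4 : (if (∀ p ∈ Q, ¬ p ∣ n) ∧ ∀ p ∈ T, p ∣ n then (1 : ℝ) else 0) =
          (if (∀ p ∈ Q, ¬ p ∣ n) then 1 else 0) * (if ∀ p ∈ T, p ∣ n then 1 else 0) := by
        by_cases ha : ∀ p ∈ Q, ¬ p ∣ n
        · by_cases hc : ∀ p ∈ T, p ∣ n
          · rw [if_pos ⟨ha, hc⟩, if_pos ha, if_pos hc, mul_one]
          · rw [if_neg (fun h => hc h.2), if_neg hc, mul_zero]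
        · rw [if_neg (fun h => ha h.1), if_neg ha, zero_mul]
      rw [h4, ← h3, Finset.prod_one_add, Finset.sum_mul]
      refine sum_congr rfl fun S hS => ?_
      rw [mem_powerset] at hS
      have hTS : ∀ p ∈ T ∪ S, p.Prime := by
        intro p hp
        rcases mem_union.1 hp with h | h
        · exact hT p h
        · exact hQ p (hS h)
      by_cases hc : ∀ p ∈ S, p ∣ n
      · have h5 : ∏ p ∈ S, (if p ∣ n then (-1 : ℝ) else 0) = (-1) ^ S.card := by
          rw [Finset.prod_congr rfl (fun p hp => if_pos (hc p hp)), Finset.prod_const]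
        rw [h5]
        congr 1
        by_cases hcT : ∀ p ∈ T, p ∣ n
        · rw [if_pos hcT, if_pos]
          rw [← all_dvd_iff hTS]
          intro p hp
          rcases mem_union.1 hp with h | h
          · exact hcT p h
          · exact hc p h
        · rw [if_neg hcT, if_neg]
          rw [← all_dvd_iff hTS]
          intro h
          exact hcT fun p hp => h p (mem_union_left _ hp)
      · have h5 : ∏ p ∈ S, (if p ∣ n then (-1 : ℝ) else 0) = 0 := by
          push Not at hc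
          obtain ⟨p, hp, hpn⟩ := hc
          exact Finset.prod_eq_zero hp (if_neg hpn)
        rw [h5, zero_mul, if_neg, mul_zero]
        rw [← all_dvd_iff hTS]
        intro h
        exact hc fun p hp => h p (mem_union_right _ hp)
    rw [sum_congr rfl (fun n _ => h2 n), sum_comm]
    refine sum_congr rfl fun S _ => ?_
    rw [← mul_sum, Finset.sum_boole]
  have h2 : A * (∏ p ∈ Q, (1 - 1 / (p : ℝ))) * ∏ p ∈ T, 1 / (p : ℝ) =
      ∑ S ∈ Q.powerset, (-1 : ℝ) ^ S.card * (A / ((∏ p ∈ T ∪ S, p : ℕ) : ℝ)) := by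
    have h3 : ∏ p ∈ Q, (1 - 1 / (p : ℝ)) = ∑ S ∈ Q.powerset, ∏ p ∈ S, (-(1 / (p : ℝ))) := by
      rw [← Finset.prod_one_add]
      refine Finset.prod_congr rfl fun p _ => by ring
    rw [h3, Finset.mul_sum, Finset.sum_mul]
    refine sum_congr rfl fun S hS => ?_
    rw [mem_powerset] at hS
    have hdS : Disjoint T S := Finset.disjoint_of_subset_right hS hd
    rw [Finset.prod_union hdS]
    push_cast
    have h4 : ∏ p ∈ S, (-(1 / (p : ℝ))) = (-1) ^ S.card * (∏ p ∈ S, (p : ℝ))⁻¹ := by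
      rw [← Finset.prod_inv_distrib, ← Finset.prod_const, ← Finset.prod_mul_distrib]
      refine Finset.prod_congr rfl fun p _ => by ring
    have h5 : ∏ p ∈ T, 1 / (p : ℝ) = (∏ p ∈ T, (p : ℝ))⁻¹ := by
      rw [← Finset.prod_inv_distrib]
      refine Finset.prod_congr rfl fun p _ => by ring
    rw [h4, h5, div_eq_mul_inv, mul_inv]
    ring
  rw [h1, h2, ← sum_sub_distrib]
  refine (abs_sum_le_sum_abs _ _).trans (sum_le_sum fun S hS => ?_)
  rw [mem_powerset] at hS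
  rw [← mul_sub, abs_mul, abs_pow, abs_neg, abs_one, one_pow, one_mul]
  exact hY S hS

/-- The sum of the errors, general form. -/
theorem sum_gen (er : ℕ → ℝ) (her : ∀ q, 0 ≤ er q) (X : ℕ) (P Q : Finset ℕ)
    (hP : ∀ p ∈ P, p.Prime) (hQ : ∀ p ∈ Q, p.Prime)
    (hd : Disjoint P Q) (hPb : ∀ p ∈ P, p.Coprime (2 * b)) (hQb : ∀ p ∈ Q, p.Coprime (2 * b))
    (D : ℕ) (hX : D * (∏ p ∈ Q, p) ≤ X) :
    ∑ T ∈ P.powerset.filter (fun T : Finset ℕ => ∏ p ∈ T, p ≤ D),
      ∑ S ∈ Q.powerset, er (∏ p ∈ T ∪ S, p) ≤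
    ∑ q ∈ (Icc 1 X).filter (fun q => q.Coprime (2 * b)), er q := by
  classical
  rw [← sum_product']
  have hmem : ∀ x ∈ (P.powerset.filter (fun T : Finset ℕ => ∏ p ∈ T, p ≤ D)) ×ˢ Q.powerset,
      x.1 ⊆ P ∧ x.2 ⊆ Q ∧ ∏ p ∈ x.1, p ≤ D := by
    intro x hx
    rw [mem_product, mem_filter, mem_powerset, mem_powerset] at hx
    exact ⟨hx.1.1, hx.2, hx.1.2⟩
  have hpr : ∀ x ∈ (P.powerset.filter (fun T : Finset ℕ => ∏ p ∈ T, p ≤ D)) ×ˢ Q.powerset,
      ∀ p ∈ x.1 ∪ x.2, p.Prime := by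
    intro x hx p hp
    obtain ⟨h1, h2, _⟩ := hmem x hx
    rcases mem_union.1 hp with h | h
    · exact hP p (h1 h)
    · exact hQ p (h2 h)
  have hinj : Set.InjOn (fun x : Finset ℕ × Finset ℕ => ∏ p ∈ x.1 ∪ x.2, p)
      ((P.powerset.filter (fun T : Finset ℕ => ∏ p ∈ T, p ≤ D)) ×ˢ Q.powerset :
        Finset (Finset ℕ × Finset ℕ)) := by
    intro x hx y hy hxy
    have hxy' : ∏ p ∈ x.1 ∪ x.2, p = ∏ p ∈ y.1 ∪ y.2, p := hxy
    have h1 := Nat.primeFactors_prod (hpr x hx)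
    have h2 := Nat.primeFactors_prod (hpr y hy)
    rw [hxy', h2] at h1
    obtain ⟨hx1, hx2, _⟩ := hmem x hx
    obtain ⟨hy1, hy2, _⟩ := hmem y hy
    have hsub : ∀ x y : Finset ℕ × Finset ℕ, x.1 ⊆ P → x.2 ⊆ Q → y.1 ⊆ P → y.2 ⊆ Q →
        x.1 ∪ x.2 = y.1 ∪ y.2 → x.1 ⊆ y.1 ∧ x.2 ⊆ y.2 := by
      intro x y hx1 hx2 hy1 hy2 h
      constructor
      · intro p hp
        have h3 : p ∈ y.1 ∪ y.2 := h ▸ mem_union_left _ hp
        rcases mem_union.1 h3 with h4 | h4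
        · exact h4
        · exact absurd (hy2 h4) (Finset.disjoint_left.1 hd (hx1 hp))
      · intro p hp
        have h3 : p ∈ y.1 ∪ y.2 := h ▸ mem_union_right _ hp
        rcases mem_union.1 h3 with h4 | h4
        · exact absurd (hx2 hp) (Finset.disjoint_left.1 hd (hy1 h4))
        · exact h4
    have h3 := hsub x y hx1 hx2 hy1 hy2 h1.symm
    have h4 := hsub y x hy1 hy2 hx1 hx2 h1
    exact Prod.ext (Finset.Subset.antisymm h3.1 h4.1) (Finset.Subset.antisymm h3.2 h4.2)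
  rw [← Finset.sum_image (f := er) hinj]
  refine sum_le_sum_of_subset_of_nonneg ?_ fun _ _ _ => her _
  intro q hq
  rw [mem_image] at hq
  obtain ⟨x, hx, rfl⟩ := hq
  obtain ⟨h1, h2, h3⟩ := hmem x hx
  rw [mem_filter, mem_Icc]
  refine ⟨⟨?_, ?_⟩, ?_⟩
  · exact Nat.one_le_iff_ne_zero.2 (Finset.prod_ne_zero_iff.2 fun p hp => (hpr x hx p hp).ne_zero)
  · refine le_trans ?_ hX
    rw [Finset.prod_union (Finset.disjoint_of_subset_left h1 (Finset.disjoint_of_subset_right h2 hd))]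
    refine Nat.mul_le_mul h3 ?_
    exact Finset.prod_le_prod_of_subset_of_one_le' h2 fun p hp _ => (hQ p hp).one_le
  · apply Nat.Coprime.prod_left
    intro p hp
    rcases mem_union.1 hp with h | h
    · exact hPb p (h1 h)
    · exact hQb p (h2 h)

/-- the palindrome with leading digit `l`, outer digits `o`, inner digits `i` -/
def vv (b l M K : ℕ) (o : Fin K → Fin b) (i : Fin M → Fin b) : ℕ :=
  pvl b l (M + K) (Fin.append i o)

/-- the outer part -/
def outer (b l M K : ℕ) (o : Fin K → Fin b) : ℕ :=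
  l * (b ^ (2 * (M + K)) + 1) + ∑ c : Fin K, (o c : ℕ) * fr b (M + K) (M + c)

theorem vv_eq (l M K : ℕ) (o : Fin K → Fin b) (i : Fin M → Fin b) :
    vv b l M K o i = outer b l M K o + b ^ K * ∑ c : Fin M, (i c : ℕ) * fr b M c := by
  unfold vv pvl outer
  rw [Fin.sum_univ_add, mul_sum]
  have h1 : ∑ c : Fin M, ((Fin.append i o (Fin.castAdd K c) : Fin b) : ℕ) *
      fr b (M + K) (Fin.castAdd K c : Fin (M + K)) =
      ∑ c : Fin M, b ^ K * ((i c : ℕ) * fr b M c) := by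
    refine sum_congr rfl fun c _ => ?_
    rw [Fin.append_left, Fin.val_castAdd]
    have hc := c.2
    have h2 : fr b (M + K) c = b ^ K * fr b M c := by
      unfold fr
      split_ifs with h0
      · rw [← pow_add]; congr 1; ring
      · rw [mul_add, ← pow_add, ← pow_add]
        congr 2
        · ring
        · omega
    rw [h2]
    ring
  have h3 : ∑ c : Fin K, ((Fin.append i o (Fin.natAdd M c) : Fin b) : ℕ) *
      fr b (M + K) (Fin.natAdd M c : Fin (M + K)) =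
      ∑ c : Fin K, (o c : ℕ) * fr b (M + K) (M + c) := by
    refine sum_congr rfl fun c _ => ?_
    rw [Fin.append_right, Fin.val_natAdd]
  rw [h1, h3]
  ring

/-- divisibility of the palindromes of a block is a congruence for the inner palindrome -/
theorem class_block (l M K : ℕ) (o : Fin K → Fin b) (q : ℕ) (hq : 1 ≤ q) (hqb : q.Coprime b) :
    ∃ h : ℕ, ∀ i : Fin M → Fin b, q ∣ vv b l M K o i ↔ pv b M i ≡ h [MOD q] := by
  have : NeZero q := ⟨by omega⟩
  have hu : IsUnit ((b : ZMod q) ^ K) := by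
    have : IsUnit (b : ZMod q) := (ZMod.isUnit_iff_coprime b q).2 hqb.symm
    exact this.pow K
  obtain ⟨u, hu⟩ := hu
  refine ⟨((b : ZMod q) ^ (2 * M) + 1 - (↑u⁻¹ : ZMod q) * (outer b l M K o : ZMod q)).val,
    fun i => ?_⟩
  rw [← ZMod.natCast_eq_zero_iff, ← ZMod.natCast_eq_natCast_iff, ZMod.natCast_zmod_val, vv_eq]
  have h1 : ((pv b M i : ℕ) : ZMod q) = (b : ZMod q) ^ (2 * M) + 1 +
      ((∑ c : Fin M, (i c : ℕ) * fr b M c : ℕ) : ZMod q) := by
    unfold pv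
    push_cast
    ring
  rw [h1]
  set s : ZMod q := ((∑ c : Fin M, (i c : ℕ) * fr b M c : ℕ) : ZMod q) with hs
  rw [Nat.cast_add, Nat.cast_mul, ← hs, Nat.cast_pow, ← hu]
  constructor
  · intro h
    have h2 : s = (↑u⁻¹ : ZMod q) * (↑u * s) := by rw [← mul_assoc, Units.inv_mul, one_mul]
    have h3 : (↑u : ZMod q) * s = -(outer b l M K o : ZMod q) := by
      rw [eq_neg_iff_add_eq_zero, add_comm]
      exact h
    rw [h2, h3]
    ring
  · intro h
    have h2 : s = -((↑u⁻¹ : ZMod q) * (outer b l M K o : ZMod q)) := by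
      have h3 : (b : ZMod q) ^ (2 * M) + 1 + s = (b : ZMod q) ^ (2 * M) + 1 +
          -((↑u⁻¹ : ZMod q) * (outer b l M K o : ZMod q)) := by rw [h]; ring
      exact add_left_cancel h3
    rw [h2, mul_neg, ← mul_assoc, Units.mul_inv, one_mul, add_neg_cancel]

theorem vv_inj (hb : 2 ≤ b) {l M K : ℕ} (hl : l < b) (hM : 1 ≤ M) (o : Fin K → Fin b) :
    Function.Injective (vv b l M K o) := by
  intro i i' h
  have h1 := pvl_inj hb (M + K) (by omega) (show (l, Fin.append i o) ∈ {x | x.1 < b} from hl)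
    (show (l, Fin.append i' o) ∈ {x | x.1 < b} from hl) h
  have h2 : Fin.append i o = Fin.append i' o := (Prod.ext_iff.1 h1).2
  funext c
  have h3 := congrFun h2 (Fin.castAdd K c)
  rw [Fin.append_left, Fin.append_left] at h3
  exact h3

open Classical in
/-- **Rough palindromes in a block.** -/
theorem block (hb : 4 ≤ b) (he : 2 ∣ b) (hBV : BVB b) (δ : ℝ) (hδ : 0 < δ) :
    ∃ ε : ℝ, 0 < ε ∧ ∀ᶠ M : ℕ in atTop, ∀ (K l t : ℕ) (o : Fin K → Fin b), l < b → l.Coprime b →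
      b ≤ t → (t : ℝ) ≤ (b : ℝ) ^ (ε * M) →
      |(((univ : Finset (Fin M → Fin b)).filter
          (fun i => ∀ p, p.Prime → p ≤ t → ¬ p ∣ vv b l M K o i)).card : ℝ) -
        (b : ℝ) ^ M * (b / (b.totient * Pool.Agent.U485.SM.W t))| ≤
          δ * ((b : ℝ) ^ M * (b / (b.totient * Pool.Agent.U485.SM.W t))) := by
  obtain ⟨C0, hC0, HF⟩ := Pool.Agent.H20R2.fLem 1
  obtain ⟨CW, hCW, hW⟩ := Pool.Agent.U333.HT.t_WBD
  obtain ⟨n0, hn0⟩ := exists_pow_lt_of_lt_one (show (0 : ℝ) < δ / 2 by positivity)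
    (show (1 / 2 : ℝ) < 1 by norm_num)
  obtain ⟨bb, hbb, hbb1, hbb2⟩ : ∃ bb : ℕ, C0 ≤ bb ∧ 1 ≤ bb ∧ (1 / 2 : ℝ) ^ bb ≤ δ / 2 := by
    refine ⟨max n0 C0, le_max_right _ _, hC0.trans (le_max_right _ _), ?_⟩
    exact (pow_le_pow_of_le_one (by norm_num) (by norm_num) (le_max_left _ _)).trans hn0.le
  have hbR : (4 : ℝ) ≤ b := by exact_mod_cast hb
  have hb0 : (0 : ℝ) < b := by linarith
  have hb1 : (1 : ℝ) < b := by linarith
  have htot0 : 0 < b.totient := Nat.totient_pos.2 (by omega)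
  have htot : (0 : ℝ) < b.totient := by exact_mod_cast htot0
  have htotb : (b.totient : ℝ) ≤ b := by exact_mod_cast Nat.totient_le b
  set N : ℕ := C0 * bb with hN
  have hN1 : 1 ≤ N := Nat.one_le_iff_ne_zero.2 (Nat.mul_ne_zero (by omega) (by omega))
  have hN1' : (1 : ℝ) ≤ N := by exact_mod_cast hN1
  set K0 : ℕ := ∏ p ∈ (Icc 1 C0).filter Nat.Prime, p with hK0
  refine ⟨1 / (16 * N), by positivity, ?_⟩
  have hlim : Tendsto (fun L : ℕ => (b : ℝ) ^ (1 / 8 * (L : ℝ))) atTop atTop :=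
    (tendsto_rpow_atTop_of_base_gt_one _ hb1).comp
      (tendsto_natCast_atTop_atTop.const_mul_atTop (by norm_num : (0 : ℝ) < 1 / 8))
  filter_upwards [hBV (1 / 4) (by norm_num) 3, hlim.eventually_ge_atTop (K0 : ℝ),
    eventually_ge_atTop 1, eventually_ge_atTop ⌈8 * (b : ℝ) ^ 2 * CW / δ⌉₊] with L hL1 hL2 hL3 hL4
  intro K l t o hl hlb hbt ht
  have hL3' : (1 : ℝ) ≤ L := by exact_mod_cast hL3
  have hL4' : 8 * (b : ℝ) ^ 2 * CW / δ ≤ L := (Nat.le_ceil _).trans (by exact_mod_cast hL4)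
  have ht4 : 3 ≤ t := by omega
  have ht0 : (0 : ℝ) < t := by exact_mod_cast (by omega : 0 < t)
  obtain ⟨J, hJ1, hJ2, hJ3⟩ := exists_J t ht4
  have htL : (t : ℝ) ≤ (b : ℝ) ^ L := by
    refine ht.trans ?_
    rw [← Real.rpow_natCast (b : ℝ) L]
    refine Real.rpow_le_rpow_of_exponent_le hb1.le ?_
    have h1 : 1 / (16 * (N : ℝ)) ≤ 1 := by
      rw [div_le_one (by positivity)]
      linarith
    calc 1 / (16 * (N : ℝ)) * L ≤ 1 * L := mul_le_mul_of_nonneg_right h1 (by linarith)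
      _ = L := one_mul _
  have hJL : J ≤ b * L := by
    apply hJ3
    have h1 : t ≤ b ^ L := by exact_mod_cast htL
    refine h1.trans ?_
    rw [pow_mul]
    exact Nat.pow_le_pow_left (Nat.lt_two_pow_self).le L
  set Q := Qs b C0 t with hQdef
  set P := Rs b C0 t with hPdef
  have hQp : ∀ p ∈ Q, p.Prime := fun p hp => (mem_filter.1 hp).2.1
  have hPp : ∀ p ∈ P, p.Prime := fun p hp => (mem_filter.1 hp).2.1
  have hcop : ∀ p : ℕ, p.Prime → ¬ p ∣ b → p.Coprime (2 * b) := by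
    intro p hp hpb
    refine Nat.Coprime.mul_right ?_ ((Nat.Prime.coprime_iff_not_dvd hp).2 hpb)
    rw [Nat.Prime.coprime_iff_not_dvd hp]
    intro h2
    exact hpb (h2.trans he)
  have hQb : ∀ p ∈ Q, p.Coprime (2 * b) := fun p hp =>
    hcop p (hQp p hp) (mem_filter.1 hp).2.2.1
  have hPb : ∀ p ∈ P, p.Coprime (2 * b) := fun p hp =>
    hcop p (hPp p hp) (mem_filter.1 hp).2.2.1
  set D : ℕ := (2 ^ 2 ^ J) ^ (C0 * bb) with hD
  have hDle : (D : ℝ) ≤ (b : ℝ) ^ (1 / 8 * (L : ℝ)) := by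
    have h1 : (D : ℝ) ≤ ((t : ℝ) ^ 2) ^ N := by
      have : D ≤ (t ^ 2) ^ N := Nat.pow_le_pow_left hJ2 _
      exact_mod_cast this
    refine h1.trans ?_
    rw [← pow_mul]
    calc (t : ℝ) ^ (2 * N) ≤ ((b : ℝ) ^ (1 / (16 * (N : ℝ)) * L)) ^ (2 * N) :=
          pow_le_pow_left₀ ht0.le ht _
      _ = (b : ℝ) ^ (1 / 8 * (L : ℝ)) := by
          rw [← Real.rpow_natCast, ← Real.rpow_mul hb0.le]
          congr 1
          push_cast
          field_simp
          norm_num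
  have hQK : ∏ p ∈ Q, p ≤ K0 := by
    rw [hK0]
    refine Finset.prod_le_prod_of_subset_of_one_le' ?_ fun p hp _ => (mem_filter.1 hp).2.one_le
    intro p hp
    have h1 := mem_filter.1 hp
    exact mem_filter.2 ⟨mem_Icc.2 ⟨h1.2.1.one_le, h1.2.2.2⟩, h1.2.1⟩
  have hX : D * (∏ p ∈ Q, p) ≤ ⌊(b : ℝ) ^ ((1 / 2 - 1 / 4 : ℝ) * L)⌋₊ := by
    apply Nat.le_floor
    push_cast
    calc (D : ℝ) * ∏ p ∈ Q, (p : ℝ) ≤ (b : ℝ) ^ (1 / 8 * (L : ℝ)) * (b : ℝ) ^ (1 / 8 * (L : ℝ)) := by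
          refine mul_le_mul hDle ?_ (by positivity) (by positivity)
          refine le_trans ?_ hL2
          have : ((∏ p ∈ Q, p : ℕ) : ℝ) ≤ K0 := by exact_mod_cast hQK
          push_cast at this
          exact this
      _ = (b : ℝ) ^ ((1 / 2 - 1 / 4 : ℝ) * L) := by
          rw [← Real.rpow_add hb0]
          congr 1
          ring
  -- the classes
  choose hc hhc using fun (q : ℕ) (hq : 1 ≤ q) (hqb : q.Coprime b) =>
    class_block (b := b) l L K o q hq hqb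
  set h : ℕ → ℕ := fun q => if hq : 1 ≤ q ∧ q.Coprime b then hc q hq.1 hq.2 else 0 with hh
  set er : ℕ → ℝ := fun q => |cnt b L q (h q) - (b : ℝ) ^ L / q| with her
  set Y : Finset ℕ := (univ : Finset (Fin L → Fin b)).image (vv b l L K o) with hY
  have hinj := vv_inj (b := b) (by omega) hl hL3 o
  have hYq : ∀ q : ℕ, 1 ≤ q → q.Coprime b →
      |((Y.filter (fun n => q ∣ n)).card : ℝ) - (b : ℝ) ^ L / q| ≤ er q := by
    intro q hq hqb
    have h1 : ((Y.filter (fun n => q ∣ n)).card : ℝ) = cnt b L q (h q) := by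
      rw [hY, filter_image, card_image_of_injective _ hinj, cnt]
      congr 2
      apply filter_congr
      intro i _
      have hq' : h q = hc q hq hqb := dif_pos ⟨hq, hqb⟩
      rw [hq']
      exact hhc q hq hqb i
    rw [h1]
  -- the sum of the errors
  have hErr : ∑ T ∈ P.powerset.filter (fun T : Finset ℕ => ∏ p ∈ T, p ≤ D),
      ∑ S ∈ Q.powerset, er (∏ p ∈ T ∪ S, p) ≤ (b : ℝ) ^ L / (L : ℝ) ^ 3 := by
    refine (sum_gen (b := b) er (fun _ => abs_nonneg _) _ P Q hPp hQp (disj b C0 t) hPb hQb D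
      hX).trans ?_
    refine le_trans (sum_le_sum fun q hq => ?_) (hL1 h)
    have h3 : (1 : ℝ) ≤ (q.divisors.card : ℝ) ^ 2 := by
      have h4 : 1 ≤ q.divisors.card := Finset.card_pos.2 ⟨1, by
        rw [Nat.mem_divisors]
        have := (mem_Icc.1 (mem_filter.1 hq).1).1
        exact ⟨one_dvd _, by omega⟩⟩
      have h5 : (1 : ℝ) ≤ q.divisors.card := by exact_mod_cast h4
      nlinarith
    exact le_mul_of_one_le_left (abs_nonneg _) h3
  -- the fundamental lemma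
  have hfl := HF bb J C0 P (fun p => 1 / (p : ℝ)) hbb le_rfl
    (fun p hp => ⟨hPp p hp, (mem_filter.1 hp).2.2.2,
      ((mem_Icc.1 (mem_filter.1 hp).1).2).trans hJ1⟩)
    (fun p hp => by
      have h2 : (2 : ℝ) ≤ p := by exact_mod_cast (hPp p hp).two_le
      refine ⟨by positivity, ?_⟩
      rw [Nat.cast_one]
      exact one_div_le_one_div_of_le (by linarith) (by linarith))
    (Y.filter (fun n => ∀ p ∈ Q, ¬ p ∣ n)) (fun _ => 1) (fun p m => p ∣ m)
    ((b : ℝ) ^ L * (∏ p ∈ Q, (1 - 1 / (p : ℝ))))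
    (fun T => ∑ S ∈ Q.powerset, er (∏ p ∈ T ∪ S, p)) (fun _ _ => zero_le_one)
    (by
      refine mul_nonneg (by positivity) (Finset.prod_nonneg fun p hp => ?_)
      have h2 : (2 : ℝ) ≤ p := by exact_mod_cast (hQp p hp).two_le
      have h3 : 1 / (p : ℝ) ≤ 1 / 2 := one_div_le_one_div_of_le (by norm_num) h2
      linarith)
    (fun T hT _ => by
      have h1 := incl_gen Y ((b : ℝ) ^ L) er Q T hQp (fun p hp => hPp p (hT hp))
        (Finset.disjoint_of_subset_left hT (disj b C0 t)) (fun S hS => by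
          refine hYq _ ?_ ?_
          · refine Nat.one_le_iff_ne_zero.2 (Finset.prod_ne_zero_iff.2 fun p hp => ?_)
            rcases mem_union.1 hp with h | h
            · exact (hPp p (hT h)).ne_zero
            · exact (hQp p (hS h)).ne_zero
          · apply Nat.Coprime.prod_left
            intro p hp
            rcases mem_union.1 hp with h | h
            · exact Nat.Coprime.coprime_mul_left_right (hPb p (hT h))
            · exact Nat.Coprime.coprime_mul_left_right (hQb p (hS h)))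
      have h2 : (∑ m ∈ (Y.filter (fun n => ∀ p ∈ Q, ¬ p ∣ n)).filter
          (fun m => ∀ p ∈ T, p ∣ m), (1 : ℝ)) =
          (((Y.filter (fun n => ∀ p ∈ Q, ¬ p ∣ n)).filter
            (fun n => ∀ p ∈ T, p ∣ n)).card : ℝ) := by
        rw [Finset.sum_const, nsmul_eq_mul, mul_one]
      rw [← h2] at h1
      convert h1)
  have hfl' : |(∑ m ∈ (Y.filter (fun n => ∀ p ∈ Q, ¬ p ∣ n)).filter
      (fun m => ∀ p ∈ P, ¬ p ∣ m), (1 : ℝ)) - (b : ℝ) ^ L *
        (∏ p ∈ Q, (1 - 1 / (p : ℝ))) * ∏ p ∈ P, (1 - 1 / (p : ℝ))| ≤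
      (1 / 2 : ℝ) ^ bb * ((b : ℝ) ^ L *
        (∏ p ∈ Q, (1 - 1 / (p : ℝ))) * ∏ p ∈ P, (1 - 1 / (p : ℝ))) + ((J : ℝ) + 2) *
        ∑ T ∈ P.powerset.filter (fun T : Finset ℕ => ∏ p ∈ T, p ≤ D),
          ∑ S ∈ Q.powerset, er (∏ p ∈ T ∪ S, p) := by
    convert hfl
  have hcount : (∑ m ∈ (Y.filter (fun n => ∀ p ∈ Q, ¬ p ∣ n)).filter
      (fun m => ∀ p ∈ P, ¬ p ∣ m), (1 : ℝ)) =
      (((univ : Finset (Fin L → Fin b)).filter
          (fun i => ∀ p, p.Prime → p ≤ t → ¬ p ∣ vv b l L K o i)).card : ℝ) := by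
    rw [Finset.sum_const, nsmul_eq_mul, mul_one, filter_filter, hY, filter_image,
      card_image_of_injective _ hinj]
    congr 2
    apply filter_congr
    intro i _
    constructor
    · rintro ⟨h2, h3⟩ p hp hpt hpn
      by_cases h4 : p ∣ b
      · have h1 : (vv b l L K o i).Coprime b := (pvl_coprime (by omega) _).2 hlb
        have h5 : p ∣ Nat.gcd (vv b l L K o i) b := Nat.dvd_gcd hpn h4
        rw [h1] at h5
        exact hp.one_lt.ne' (Nat.dvd_one.1 h5)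
      · rcases le_or_gt p C0 with h6 | h6
        · exact h2 p (mem_filter.2 ⟨mem_Icc.2 ⟨hp.one_le, hpt⟩, hp, h4, h6⟩) hpn
        · exact h3 p (mem_filter.2 ⟨mem_Icc.2 ⟨hp.one_le, hpt⟩, hp, h4, h6⟩) hpn
    · intro h
      refine ⟨?_, ?_⟩
      · intro p hp
        exact h p (hQp p hp) (mem_Icc.1 (mem_filter.1 hp).1).2
      · intro p hp
        exact h p (hPp p hp) (mem_Icc.1 (mem_filter.1 hp).1).2
  have hmain : (b : ℝ) ^ L * (∏ p ∈ Q, (1 - 1 / (p : ℝ))) *
      ∏ p ∈ P, (1 - 1 / (p : ℝ)) =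
      (b : ℝ) ^ L * (b / (b.totient * Pool.Agent.U485.SM.W t)) := by
    have h1 := main_prod (b := b) (by omega) C0 hbt
    have h2 : (b : ℝ) / (b.totient * Pool.Agent.U485.SM.W t) =
        (b / Pool.Agent.U485.SM.W t) / b.totient := by
      rw [div_div, mul_comm (b.totient : ℝ)]
    rw [h2, ← h1]
    field_simp
    rfl
  rw [hcount, hmain] at hfl'
  refine hfl'.trans ?_
  have hWp := W_pos t
  have hM0 : 0 < (b : ℝ) ^ L * (b / (b.totient * Pool.Agent.U485.SM.W t)) := by positivity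
  have hlog : Real.log t ≤ b * L := by
    have h1 : Real.log t ≤ Real.log ((b : ℝ) ^ L) := Real.log_le_log ht0 htL
    rw [Real.log_pow] at h1
    have h2 : Real.log b ≤ b := (Real.log_le_sub_one_of_pos hb0).trans (by linarith)
    calc Real.log t ≤ L * Real.log b := h1
      _ ≤ L * b := mul_le_mul_of_nonneg_left h2 (by linarith)
      _ = b * L := mul_comm _ _
  have hW2 : Pool.Agent.U485.SM.W t ≤ 2 * CW * b * L := by
    refine (hW t).trans ?_
    have h1 : (1 : ℝ) ≤ b * L := by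
      calc (1 : ℝ) = 1 * 1 := (one_mul 1).symm
        _ ≤ b * L := mul_le_mul hb1.le hL3' zero_le_one hb0.le
    have h2 : CW * Real.log t ≤ CW * (b * L) := mul_le_mul_of_nonneg_left hlog hCW.le
    have h3 : CW * 1 ≤ CW * (b * L) := mul_le_mul_of_nonneg_left h1 hCW.le
    linarith
  have hJ' : (J : ℝ) + 2 ≤ 2 * b * L := by
    have h1 : (J : ℝ) ≤ b * L := by exact_mod_cast hJL
    have h2 : (2 : ℝ) ≤ b * L := by
      calc (2 : ℝ) ≤ 4 * 1 := by norm_num
        _ ≤ b * L := mul_le_mul hbR hL3' zero_le_one hb0.le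
    linarith
  have herr2 : ((J : ℝ) + 2) * ∑ T ∈ P.powerset.filter (fun T : Finset ℕ => ∏ p ∈ T, p ≤ D),
      ∑ S ∈ Q.powerset, er (∏ p ∈ T ∪ S, p) ≤
      δ / 2 * ((b : ℝ) ^ L * (b / (b.totient * Pool.Agent.U485.SM.W t))) := by
    have h1 : ((J : ℝ) + 2) * ∑ T ∈ P.powerset.filter (fun T : Finset ℕ => ∏ p ∈ T, p ≤ D),
        ∑ S ∈ Q.powerset, er (∏ p ∈ T ∪ S, p) ≤
        (2 * b * L) * ((b : ℝ) ^ L / (L : ℝ) ^ 3) :=
      mul_le_mul hJ' hErr (sum_nonneg fun _ _ => sum_nonneg fun _ _ => abs_nonneg _)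
        (by positivity)
    refine h1.trans ?_
    have h2 : (1 : ℝ) / (2 * CW * b * L) ≤ b / (b.totient * Pool.Agent.U485.SM.W t) := by
      rw [div_le_div_iff₀ (by positivity) (by positivity), one_mul]
      exact mul_le_mul htotb hW2 hWp.le hb0.le
    refine le_trans ?_ (mul_le_mul_of_nonneg_left (mul_le_mul_of_nonneg_left h2
      (by positivity : (0 : ℝ) ≤ (b : ℝ) ^ L)) (by positivity : (0 : ℝ) ≤ δ / 2))
    have hL0 : (0 : ℝ) < L := by linarith
    rw [div_le_iff₀ hδ] at hL4'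
    have e1 : (2 * b * L) * ((b : ℝ) ^ L / (L : ℝ) ^ 3) =
        ((b : ℝ) ^ L / (4 * CW * b * (L : ℝ) ^ 2)) * (8 * (b : ℝ) ^ 2 * CW) := by
      field_simp
      ring
    have e2 : δ / 2 * ((b : ℝ) ^ L * (1 / (2 * CW * b * L))) =
        ((b : ℝ) ^ L / (4 * CW * b * (L : ℝ) ^ 2)) * (L * δ) := by
      field_simp
      ring
    rw [e1, e2]
    exact mul_le_mul_of_nonneg_left hL4' (by positivity)
  have h5 : (1 / 2 : ℝ) ^ bb * ((b : ℝ) ^ L * (b / (b.totient * Pool.Agent.U485.SM.W t))) ≤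
      δ / 2 * ((b : ℝ) ^ L * (b / (b.totient * Pool.Agent.U485.SM.W t))) :=
    mul_le_mul_of_nonneg_right hbb2 hM0.le
  calc _ ≤ δ / 2 * ((b : ℝ) ^ L * (b / (b.totient * Pool.Agent.U485.SM.W t))) +
        δ / 2 * ((b : ℝ) ^ L * (b / (b.totient * Pool.Agent.U485.SM.W t))) := add_le_add h5 herr2
    _ = _ := by ring

end Pool.Agent.U668.PA
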