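import Pool.Agent.U668.PA.Rand
import Pool.Agent.W139.PX.G1

/-!
# The number of the chosen palindromes up to `x`
-/

set_option autoImplicit false

namespace Pool.Agent.U668.PA

open Finset Filter Topology MeasureTheory ProbabilityTheory Pool.Agent.H39R3.PB
  Pool.Agent.H181R5.PBT9 Pool.Agent.U485.SM

variable {b : ℕ}

/-- A palindrome with an even number of digits is a multiple of `b + 1`. -/
theorem even_dvd {n : ℕ} (hn : (Nat.digits b n).reverse = Nat.digits b n)
    (he : Even (Nat.digits b n).length) : b + 1 ∣ n := by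
  have h0 : ((b + 1 : ℕ) : ℤ) ∣ (b : ℤ) - (-1) := by push_cast; simp
  rw [Nat.dvd_iff_dvd_ofDigits (b + 1) b (-1 : ℤ) h0, Nat.ofDigits_neg_one]
  have hp : (Nat.digits b n).Palindrome := List.Palindrome.of_reverse_eq hn
  replace hp := (hp.map fun n : ℕ => (n : ℤ)).reverse_eq
  have h1 : Even ((Nat.digits b n).map (fun n : ℕ => (n : ℤ))).length := by
    rwa [List.length_map]
  have h2 := List.alternatingSum_reverse ((Nat.digits b n).map (fun n : ℕ => (n : ℤ)))
  rw [hp, pow_succ, h1.neg_one_pow] at h2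
  have h3 : ((Nat.digits b n).map (fun n : ℕ => (n : ℤ))).alternatingSum = 0 := by
    simp only [one_mul, neg_mul, smul_eq_mul] at h2
    linarith
  rw [h3]
  exact dvd_zero _

/-- sums of `b ^ j / j` -/
theorem sum_pow_div (hb : 4 ≤ b) (N : ℕ) (hN : 1 ≤ N) :
    ∑ j ∈ Icc 1 N, (b : ℝ) ^ j / j ≤ 2 * ((b : ℝ) ^ N / N) := by
  have hbR : (4 : ℝ) ≤ b := by exact_mod_cast hb
  induction N, hN using Nat.le_induction with
  | base => simp; linarith
  | succ N hN ih =>
    rw [Finset.sum_Icc_succ_top (by omega)]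
    have hN0 : (1 : ℝ) ≤ N := by exact_mod_cast hN
    have h1 : 2 * ((b : ℝ) ^ N / N) ≤ (b : ℝ) ^ (N + 1) / ((N + 1 : ℕ) : ℝ) := by
      rw [pow_succ, ← mul_div_assoc, div_le_div_iff₀ (by linarith) (by positivity)]
      push_cast
      have h2 : (0 : ℝ) < (b : ℝ) ^ N := by positivity
      nlinarith [mul_le_mul_of_nonneg_left hbR (mul_nonneg h2.le (by linarith : (0 : ℝ) ≤ N))]
    linarith

theorem card_palin (hb : 2 ≤ b) (N : ℕ) (hN : 1 ≤ N) :
    ((palin b N).card : ℝ) = ((b - 1 : ℕ) : ℝ) * (b : ℝ) ^ N := by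
  have h := sum_palin hb N 0 hN (fun _ => (1 : ℝ))
  rw [add_zero] at h
  rw [card_eq_sum_ones]
  push_cast
  rw [h]
  simp only [sum_const, card_univ, Fintype.card_fun, Fintype.card_fin, nsmul_eq_mul, mul_one,
    Nat.card_Icc, pow_zero, Nat.cast_one, one_mul]
  push_cast
  rfl

/-- the palindromes with an even number of digits are not chosen -/
theorem no_even {Ω : Type} {mΩ : MeasurableSpace Ω} (μ : Measure Ω) (hμ : IsProbabilityMeasure μ)
    (E : ℕ → Set Ω) (T : ℕ → ℕ) (hTb : ∀ᶠ n : ℕ in atTop, b + 1 ≤ T n) (hb : 2 ≤ b)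
    (hp : ∀ᶠ n : ℕ in atTop, μ.real (E n) = fT T n / Real.log n) :
    ∃ n0 : ℕ, ∀ᵐ ω ∂μ, ∀ n ≥ n0, (Nat.digits b n).reverse = Nat.digits b n →
      Even (Nat.digits b n).length → ω ∉ E n := by
  obtain ⟨n0, hn0⟩ := eventually_atTop.1 (hTb.and hp)
  refine ⟨n0, ?_⟩
  rw [ae_all_iff]
  intro n
  by_cases h : n ≥ n0 ∧ (Nat.digits b n).reverse = Nat.digits b n ∧ Even (Nat.digits b n).length
  · obtain ⟨h1, h2, h3⟩ := h
    obtain ⟨h4, h5⟩ := hn0 n h1
    have h6 : fT T n = 0 := by
      unfold fT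
      rw [if_neg]
      intro h7
      have h8 : b + 1 ≠ 1 := by omega
      obtain ⟨p, hp1, hp2⟩ := Nat.exists_prime_and_dvd h8
      exact h7 p hp1 ((Nat.le_of_dvd (by omega) hp2).trans h4) (hp2.trans (even_dvd h2 h3))
    rw [h6, zero_div] at h5
    have h7 : μ (E n) = 0 := (measureReal_eq_zero_iff).1 h5
    filter_upwards [measure_eq_zero_iff_ae_notMem.1 h7] with ω hω
    exact fun _ _ _ => hω
  · refine Eventually.of_forall fun ω h1 h2 h3 => absurd ⟨h1, h2, h3⟩ h

open Classical in
/-- From the numbers of the chosen palindromes with `2 L + 1` digits to the number up to `x`. -/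
theorem to_all {Ω : Type} (E : ℕ → Set Ω) (hb : 4 ≤ b) (ω : Ω)
    (h1 : Tendsto (fun L : ℕ => nch E b L ω * ((2 * L * Real.log b) / (b : ℝ) ^ (L + 1))) atTop
      (𝓝 1))
    (n0 : ℕ) (h2 : ∀ n ≥ n0, (Nat.digits b n).reverse = Nat.digits b n →
      Even (Nat.digits b n).length → ω ∉ E n) :
    ∀ᶠ x : ℕ in atTop,
      1 / (8 * b) * ((((Icc 1 x).filter
        (fun n => (Nat.digits b n).reverse = Nat.digits b n)).card : ℝ) / Real.log x) ≤
        (((Icc 1 x).filter
          (fun n => (Nat.digits b n).reverse = Nat.digits b n ∧ ω ∈ E n)).card : ℝ) ∧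
      (((Icc 1 x).filter
          (fun n => (Nat.digits b n).reverse = Nat.digits b n ∧ ω ∈ E n)).card : ℝ) ≤
        5 * (2 * (b : ℝ) ^ 2 + 1) * ((((Icc 1 x).filter
        (fun n => (Nat.digits b n).reverse = Nat.digits b n)).card : ℝ) / Real.log x) := by
  have hbR : (4 : ℝ) ≤ b := by exact_mod_cast hb
  have hb0 : (0 : ℝ) < b := by linarith
  have hb1 : (1 : ℝ) < b := by linarith
  have hlog : 0 < Real.log b := Real.log_pos hb1
  obtain ⟨L1, hL1⟩ := eventually_atTop.1 (((h1.eventually_const_le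
    (show (1 / 2 : ℝ) < 1 by norm_num)).and (h1.eventually_le_const
    (show (1 : ℝ) < 2 by norm_num))).and (eventually_ge_atTop 1))
  have hlow : ∀ L ≥ L1, (b : ℝ) ^ (L + 1) / (2 * L * Real.log b) / 2 ≤ nch E b L ω := by
    intro L hL
    obtain ⟨⟨h3, _⟩, h4⟩ := hL1 L hL
    have hL0 : (0 : ℝ) < L := by exact_mod_cast h4
    have h5 : (0 : ℝ) < (b : ℝ) ^ (L + 1) := by positivity
    rw [← mul_div_assoc, le_div_iff₀ h5] at h3
    rw [div_div, div_le_iff₀ (by positivity)]
    have : nch E b L ω * (2 * L * Real.log b * 2) = 2 * (nch E b L ω * (2 * L * Real.log b)) := by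
      ring
    rw [this]
    linarith
  have hupp : ∀ L ≥ L1, nch E b L ω ≤ b / Real.log b * ((b : ℝ) ^ L / L) := by
    intro L hL
    obtain ⟨⟨_, h3⟩, h4⟩ := hL1 L hL
    have hL0 : (0 : ℝ) < L := by exact_mod_cast h4
    have h5 : (0 : ℝ) < (b : ℝ) ^ (L + 1) := by positivity
    rw [← mul_div_assoc, div_le_iff₀ h5] at h3
    have h6 : b / Real.log b * ((b : ℝ) ^ L / L) = (2 * (b : ℝ) ^ (L + 1)) / (2 * L * Real.log b) := by
      rw [pow_succ]
      field_simp
    rw [h6, le_div_iff₀ (by positivity)]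
    exact h3
  have hnch0 : ∀ L, 0 ≤ nch E b L ω := fun L => Nat.cast_nonneg _
  -- the constant
  set c0 : ℝ := n0 + ∑ L ∈ range (L1 + 1), nch E b L ω with hc0
  have hc0nn : 0 ≤ c0 := by
    have : 0 ≤ ∑ L ∈ range (L1 + 1), nch E b L ω := sum_nonneg fun L _ => hnch0 L
    positivity
  have hconst : ∀ᶠ N : ℕ in atTop, c0 ≤ 1 / Real.log b * ((b : ℝ) ^ N / N) := by
    have h3 : Tendsto (fun n : ℕ => (c0 * Real.log b) * ((n : ℝ) ^ 1 / (b : ℝ) ^ n)) atTop
        (𝓝 ((c0 * Real.log b) * 0)) :=
      (tendsto_pow_const_div_const_pow_of_one_lt 1 hb1).const_mul _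
    rw [mul_zero] at h3
    filter_upwards [h3.eventually_lt_const one_pos, eventually_ge_atTop 1] with N hN hN1
    have hN0 : (0 : ℝ) < N := by exact_mod_cast hN1
    have hbN : (0 : ℝ) < (b : ℝ) ^ N := by positivity
    rw [pow_one, ← mul_div_assoc, div_lt_one hbN] at hN
    rw [one_div_mul_eq_div, div_div, le_div_iff₀ (by positivity)]
    calc c0 * (N * Real.log b) = c0 * Real.log b * N := by ring
      _ ≤ (b : ℝ) ^ N := hN.le
  obtain ⟨N1, hN1⟩ := eventually_atTop.1 hconst
  filter_upwards [eventually_ge_atTop (b ^ (2 * (N1 + L1 + 1) + 1))] with x hx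
  have hx0 : x ≠ 0 := by
    have : 0 < b ^ (2 * (N1 + L1 + 1) + 1) := by positivity
    omega
  set N := (Nat.log b x - 1) / 2 with hN
  have hlogx : 2 * (N1 + L1 + 1) + 1 ≤ Nat.log b x := Nat.le_log_of_pow_le (by omega) hx
  have hNge : N1 + L1 + 1 ≤ N := by omega
  have hxlow : b ^ (2 * N + 1) ≤ x := by
    refine le_trans (Nat.pow_le_pow_right (by omega) ?_) (Nat.pow_log_le_self b hx0)
    omega
  have hxupp : x < b ^ (2 * N + 3) := by
    refine lt_of_lt_of_le (Nat.lt_pow_succ_log_self (by omega) x) (Nat.pow_le_pow_right (by omega) ?_)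
    omega
  have hN0 : (0 : ℝ) < N := by exact_mod_cast (by omega : 0 < N)
  have hN1' : (1 : ℝ) ≤ N := by exact_mod_cast (by omega : 1 ≤ N)
  have hbN : (0 : ℝ) < (b : ℝ) ^ N := by positivity
  have hx0' : (0 : ℝ) < x := by exact_mod_cast Nat.pos_of_ne_zero hx0
  have hlx1 : (2 * N) * Real.log b ≤ Real.log x := by
    have h3 : Real.log ((b : ℝ) ^ (2 * N + 1)) ≤ Real.log x :=
      Real.log_le_log (by positivity) (by exact_mod_cast hxlow)
    rw [Real.log_pow] at h3
    push_cast at h3
    have h4 : (2 * (N : ℝ)) * Real.log b ≤ (2 * N + 1) * Real.log b :=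
      mul_le_mul_of_nonneg_right (by linarith) hlog.le
    linarith
  have hlx2 : Real.log x ≤ (5 * N) * Real.log b := by
    have h3 : Real.log x ≤ Real.log ((b : ℝ) ^ (2 * N + 3)) :=
      Real.log_le_log hx0' (by exact_mod_cast hxupp.le)
    rw [Real.log_pow] at h3
    push_cast at h3
    have h4 : (2 * (N : ℝ) + 3) * Real.log b ≤ (5 * N) * Real.log b :=
      mul_le_mul_of_nonneg_right (by linarith) hlog.le
    linarith
  have hlxpos : 0 < Real.log x := lt_of_lt_of_le (by positivity) hlx1
  set S := (Icc 1 x).filter (fun n => (Nat.digits b n).reverse = Nat.digits b n ∧ ω ∈ E n) with hS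
  set Pl := (Icc 1 x).filter (fun n => (Nat.digits b n).reverse = Nat.digits b n) with hPl
  constructor
  · have h3 : nch E b N ω ≤ (S.card : ℝ) := by
      unfold nch
      have : ((palin b N).filter (fun n => ω ∈ E n)).card ≤ S.card := by
        apply card_le_card
        intro n hn
        rw [mem_filter, palin, mem_filter, mem_range] at hn
        rw [hS, mem_filter, mem_Icc]
        have h5 : 0 < b ^ (2 * N) := by positivity
        exact ⟨⟨by omega, by omega⟩, hn.1.2.2, hn.2⟩
      exact_mod_cast this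
    refine le_trans ?_ ((hlow N (by omega)).trans h3)
    have h4 : (Pl.card : ℝ) ≤ 4 * (b : ℝ) ^ (N + 2) := by
      have := Pool.Agent.W139.PX.card_pal_le (b := b) (by omega) N x hxupp
      exact_mod_cast this
    have h5 : (Pl.card : ℝ) / Real.log x ≤ 4 * (b : ℝ) ^ (N + 2) / (2 * N * Real.log b) :=
      div_le_div₀ (by positivity) h4 (by positivity) hlx1
    refine (mul_le_mul_of_nonneg_left h5 (by positivity)).trans (le_of_eq ?_)
    rw [pow_succ, pow_succ]
    field_simp
    ring
  · have h3 : (S.card : ℝ) ≤ c0 + ∑ L ∈ Icc 1 (N + 1), (b / Real.log b * ((b : ℝ) ^ L / L)) := by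
      have h4 : S ⊆ range n0 ∪ (range (N + 2)).biUnion
          (fun L => (palin b L).filter (fun n => ω ∈ E n)) := by
        intro n hn
        rw [hS, mem_filter, mem_Icc] at hn
        obtain ⟨⟨hn1, hnx⟩, hpal, hE⟩ := hn
        rw [mem_union]
        rcases lt_or_ge n n0 with h5 | h5
        · exact Or.inl (mem_range.2 h5)
        · right
          have h6 : ¬ Even (Nat.digits b n).length := fun h => h2 n h5 hpal h hE
          rw [Nat.not_even_iff_odd] at h6
          obtain ⟨L, hL⟩ := h6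
          have h7 : n < b ^ (2 * L + 1) := (Nat.digits_length_le_iff (by omega) n).1 (by omega)
          have h8 : b ^ (2 * L) ≤ n := (Nat.lt_digits_length_iff (b := b) (by omega) n).1 (by omega)
          rw [mem_biUnion]
          refine ⟨L, ?_, ?_⟩
          · rw [mem_range]
            have h9 : b ^ (2 * L) < b ^ (2 * N + 3) := by omega
            have h10 := (Nat.pow_lt_pow_iff_right (by omega : 1 < b)).1 h9
            omega
          · rw [mem_filter, palin, mem_filter, mem_range]
            exact ⟨⟨h7, h8, hpal⟩, hE⟩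
      have h5 : (S.card : ℝ) ≤ n0 + ∑ L ∈ range (N + 2), nch E b L ω := by
        have h6 : S.card ≤ n0 + ∑ L ∈ range (N + 2), ((palin b L).filter (fun n => ω ∈ E n)).card := by
          refine (card_le_card h4).trans ((card_union_le _ _).trans ?_)
          rw [card_range]
          exact Nat.add_le_add_left card_biUnion_le _
        have h7 : ((S.card : ℕ) : ℝ) ≤ ((n0 + ∑ L ∈ range (N + 2),
            ((palin b L).filter (fun n => ω ∈ E n)).card : ℕ) : ℝ) := by exact_mod_cast h6
        push_cast at h7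
        exact h7
      refine h5.trans ?_
      have h6 : ∑ L ∈ range (N + 2), nch E b L ω ≤ ∑ L ∈ range (L1 + 1), nch E b L ω +
          ∑ L ∈ Icc 1 (N + 1), (b / Real.log b * ((b : ℝ) ^ L / L)) := by
        have h7 : ∀ L ∈ range (N + 2), nch E b L ω ≤
            (if L ∈ range (L1 + 1) then nch E b L ω else 0) +
              (if L ∈ Icc 1 (N + 1) then b / Real.log b * ((b : ℝ) ^ L / L) else 0) := by
          intro L hL
          rw [mem_range] at hL
          by_cases h8 : L < L1 + 1
          · rw [if_pos (mem_range.2 h8)]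
            have h9 : 0 ≤ (if L ∈ Icc 1 (N + 1) then b / Real.log b * ((b : ℝ) ^ L / L) else 0) := by
              split_ifs <;> positivity
            linarith
          · have h9 : L ∉ range (L1 + 1) := by
              rw [mem_range]
              exact h8
            rw [if_neg h9, zero_add, if_pos (mem_Icc.2 ⟨by omega, by omega⟩)]
            exact hupp L (by omega)
        refine (sum_le_sum h7).trans ?_
        rw [sum_add_distrib, ← sum_filter, ← sum_filter]
        refine add_le_add ?_ ?_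
        · exact sum_le_sum_of_subset_of_nonneg (fun L hL => (mem_filter.1 hL).2) fun L _ _ => hnch0 L
        · exact sum_le_sum_of_subset_of_nonneg (fun L hL => (mem_filter.1 hL).2)
            fun L _ _ => by positivity
      rw [hc0]
      linarith
    rw [← mul_sum] at h3
    have h4 := sum_pow_div (b := b) hb (N + 1) (by omega)
    have h5 : (b : ℝ) ^ (N + 1) / ((N + 1 : ℕ) : ℝ) ≤ b * ((b : ℝ) ^ N / N) := by
      rw [← mul_div_assoc, pow_succ, mul_comm ((b : ℝ) ^ N) b]
      refine div_le_div_of_nonneg_left (by positivity) hN0 ?_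
      push_cast
      linarith
    have h6 : (S.card : ℝ) ≤ (2 * (b : ℝ) ^ 2 + 1) / Real.log b * ((b : ℝ) ^ N / N) := by
      have h7 : b / Real.log b * ∑ L ∈ Icc 1 (N + 1), (b : ℝ) ^ L / L ≤
          b / Real.log b * (2 * (b * ((b : ℝ) ^ N / N))) :=
        mul_le_mul_of_nonneg_left (h4.trans (by linarith)) (by positivity)
      have h8 := hN1 N (by omega)
      have h9 : (2 * (b : ℝ) ^ 2 + 1) / Real.log b * ((b : ℝ) ^ N / N) =
          b / Real.log b * (2 * (b * ((b : ℝ) ^ N / N))) + 1 / Real.log b * ((b : ℝ) ^ N / N) := by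
        ring
      rw [h9]
      linarith
    have h7 : (b : ℝ) ^ N ≤ (Pl.card : ℝ) := by
      have h8 : ((palin b N).card : ℝ) ≤ Pl.card := by
        have : (palin b N).card ≤ Pl.card := by
          apply card_le_card
          intro n hn
          rw [palin, mem_filter, mem_range] at hn
          rw [hPl, mem_filter, mem_Icc]
          have h5 : 0 < b ^ (2 * N) := by positivity
          exact ⟨⟨by omega, by omega⟩, hn.2.2⟩
        exact_mod_cast this
      rw [card_palin (by omega) N (by omega)] at h8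
      have h9 : (1 : ℝ) ≤ ((b - 1 : ℕ) : ℝ) := by exact_mod_cast (by omega : 1 ≤ b - 1)
      have h10 : 1 * (b : ℝ) ^ N ≤ ((b - 1 : ℕ) : ℝ) * (b : ℝ) ^ N :=
        mul_le_mul_of_nonneg_right h9 hbN.le
      linarith
    have h8 : (b : ℝ) ^ N / ((5 * N) * Real.log b) ≤ (Pl.card : ℝ) / Real.log x :=
      div_le_div₀ (by positivity) h7 hlxpos hlx2
    refine h6.trans ?_
    have h9 : (2 * (b : ℝ) ^ 2 + 1) / Real.log b * ((b : ℝ) ^ N / N) =
        5 * (2 * (b : ℝ) ^ 2 + 1) * ((b : ℝ) ^ N / ((5 * N) * Real.log b)) := by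
      field_simp
    rw [h9]
    exact mul_le_mul_of_nonneg_left h8 (by positivity)

end Pool.Agent.U668.PA
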