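import Pool.Agent.U668.PA.Inc
import Pool.Agent.H20R2.EN.FLem
import Pool.Agent.U333.HT.WBD

/-!
# The number of the palindromes without small prime factors
-/

set_option autoImplicit false

namespace Pool.Agent.U668.PA

open Finset Filter Topology Pool.Agent.H39R3.PB Pool.Agent.H181R5.PBT9

variable {b : ℕ}

/-- the primes up to `min z t` which do not divide `b` -/
def Qs (b z t : ℕ) : Finset ℕ := (Icc 1 t).filter (fun p => p.Prime ∧ ¬ p ∣ b ∧ p ≤ z)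

/-- the primes in `(z, t]` which do not divide `b` -/
def Rs (b z t : ℕ) : Finset ℕ := (Icc 1 t).filter (fun p => p.Prime ∧ ¬ p ∣ b ∧ z < p)

theorem disj (b z t : ℕ) : Disjoint (Rs b z t) (Qs b z t) := by
  rw [Finset.disjoint_left]
  intro p hp hq
  rw [Rs, mem_filter] at hp
  rw [Qs, mem_filter] at hq
  omega

theorem main_prod (hb : 2 ≤ b) {t : ℕ} (z : ℕ) (ht : b ≤ t) :
    (b.totient : ℝ) * (∏ p ∈ Qs b z t, (1 - 1 / (p : ℝ))) * ∏ p ∈ Rs b z t, (1 - 1 / (p : ℝ)) =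
      b / Pool.Agent.U485.SM.W t := by
  classical
  have h1 : (b.totient : ℝ) = b * ∏ p ∈ b.primeFactors, (1 - 1 / (p : ℝ)) := by
    have h2 := Nat.totient_eq_mul_prod_factors b
    have h3 : ((b.totient : ℚ) : ℝ) = ((b * ∏ p ∈ b.primeFactors, (1 - (p : ℚ)⁻¹) : ℚ) : ℝ) := by
      rw [h2]
    push_cast at h3
    rw [h3]
    simp only [one_div]
  have h2 : Pool.Agent.U485.SM.Pr t = b.primeFactors ∪ (Qs b z t ∪ Rs b z t) := by
    ext p
    rw [Pool.Agent.U485.SM.Pr, mem_filter, mem_union, mem_union, Qs, Rs, mem_filter, mem_filter,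
      Nat.mem_primeFactors, mem_Icc]
    constructor
    · rintro ⟨h3, h4⟩
      by_cases h5 : p ∣ b
      · exact Or.inl ⟨h4, h5, by omega⟩
      · rcases le_or_gt p z with h6 | h6
        · exact Or.inr (Or.inl ⟨h3, h4, h5, h6⟩)
        · exact Or.inr (Or.inr ⟨h3, h4, h5, h6⟩)
    · rintro (⟨h3, h4, _⟩ | ⟨h3, h4, _⟩ | ⟨h3, h4, _⟩)
      · exact ⟨⟨h3.one_le, (Nat.le_of_dvd (by omega) h4).trans ht⟩, h3⟩
      · exact ⟨h3, h4⟩
      · exact ⟨h3, h4⟩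
  have h3 : Disjoint b.primeFactors (Qs b z t ∪ Rs b z t) := by
    rw [Finset.disjoint_left]
    intro p hp hq
    rw [Nat.mem_primeFactors] at hp
    rw [mem_union, Qs, Rs, mem_filter, mem_filter] at hq
    rcases hq with h | h
    · exact h.2.2.1 hp.2.1
    · exact h.2.2.1 hp.2.1
  have h4 : Pool.Agent.U485.SM.W t = (∏ p ∈ Pool.Agent.U485.SM.Pr t, (1 - 1 / (p : ℝ)))⁻¹ := by
    rw [Pool.Agent.U485.SM.W, Finset.prod_inv_distrib]
  rw [h4, div_inv_eq_mul, h2, Finset.prod_union h3, Finset.prod_union (disj b z t).symm, h1]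
  ring

theorem W_pos (t : ℕ) : 0 < Pool.Agent.U485.SM.W t := by
  rw [Pool.Agent.U485.SM.W]
  refine Finset.prod_pos fun p hp => ?_
  rw [Pool.Agent.U485.SM.Pr, mem_filter] at hp
  have h2 : (2 : ℝ) ≤ p := by exact_mod_cast hp.2.two_le
  have h3 : 1 / (p : ℝ) ≤ 1 / 2 := one_div_le_one_div_of_le (by norm_num) h2
  rw [inv_pos]
  linarith

theorem exists_J (t : ℕ) (ht : 3 ≤ t) : ∃ J : ℕ, t ≤ 2 ^ 2 ^ J ∧ 2 ^ 2 ^ J ≤ t ^ 2 ∧
    ∀ B : ℕ, t ≤ 2 ^ B → J ≤ B := by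
  classical
  have hex : ∃ J : ℕ, t ≤ 2 ^ 2 ^ J := by
    refine ⟨t, ?_⟩
    have h1 : t < 2 ^ t := Nat.lt_two_pow_self
    have h2 : 2 ^ t ≤ 2 ^ 2 ^ t := Nat.pow_le_pow_right (by norm_num) h1.le
    omega
  obtain ⟨J, hJ, hmin⟩ : ∃ J : ℕ, t ≤ 2 ^ 2 ^ J ∧ ∀ i < J, ¬ t ≤ 2 ^ 2 ^ i :=
    ⟨Nat.find hex, Nat.find_spec hex, fun i hi => Nat.find_min hex hi⟩
  have hJ0 : J ≠ 0 := by
    rintro rfl
    norm_num at hJ
    omega
  obtain ⟨i, rfl⟩ := Nat.exists_eq_succ_of_ne_zero hJ0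
  have h1 : 2 ^ 2 ^ i < t := by
    have := hmin i (Nat.lt_succ_self i)
    omega
  refine ⟨i + 1, hJ, ?_, ?_⟩
  · calc 2 ^ 2 ^ (i + 1) = (2 ^ 2 ^ i) ^ 2 := by rw [← pow_mul, pow_succ]
      _ ≤ t ^ 2 := Nat.pow_le_pow_left h1.le 2
  · intro B hB
    have h2 : 2 ^ 2 ^ i < 2 ^ B := lt_of_lt_of_le h1 hB
    have h3 : 2 ^ i < B := (Nat.pow_lt_pow_iff_right (by norm_num)).1 h2
    have h4 : i < 2 ^ i := Nat.lt_two_pow_self
    omega

open Classical in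
/-- **The palindromes without prime factors up to `t`.** -/
theorem det (hb : 4 ≤ b) (he : 2 ∣ b) (hBV : BVB b) (δ : ℝ) (hδ : 0 < δ) :
    ∃ ε : ℝ, 0 < ε ∧ ∀ᶠ L : ℕ in atTop, ∀ t : ℕ, b ≤ t → (t : ℝ) ≤ (b : ℝ) ^ (ε * L) →
      |(((palin b L).filter (fun n => ∀ p, p.Prime → p ≤ t → ¬ p ∣ n)).card : ℝ) -
        (b : ℝ) ^ (L + 1) / Pool.Agent.U485.SM.W t| ≤
          δ * ((b : ℝ) ^ (L + 1) / Pool.Agent.U485.SM.W t) := by
  obtain ⟨C0, hC0, HF⟩ := Pool.Agent.H20R2.fLem 1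
  obtain ⟨CW, hCW, hW⟩ := Pool.Agent.U333.HT.t_WBD
  obtain ⟨n0, hn0⟩ := exists_pow_lt_of_lt_one (show (0 : ℝ) < δ / 2 by positivity)
    (show (1 / 2 : ℝ) < 1 by norm_num)
  obtain ⟨bb, hbb, hbb1, hbb2⟩ : ∃ bb : ℕ, C0 ≤ bb ∧ 1 ≤ bb ∧ (1 / 2 : ℝ) ^ bb ≤ δ / 2 := by
    refine ⟨max n0 C0, le_max_right _ _, hC0.trans (le_max_right _ _), ?_⟩
    exact (pow_le_pow_of_le_one (by norm_num) (by norm_num) (le_max_left _ _)).trans hn0.le
  have hbR : (4 : ℝ) ≤ b := by exact_mod_cast hb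
  have hb0 : (0 : ℝ) < b := by linarith
  have hb1 : (1 : ℝ) < b := by linarith
  set N : ℕ := C0 * bb with hN
  have hN1 : 1 ≤ N := Nat.one_le_iff_ne_zero.2 (Nat.mul_ne_zero (by omega) (by omega))
  have hN1' : (1 : ℝ) ≤ N := by exact_mod_cast hN1
  set K0 : ℕ := ∏ p ∈ (Icc 1 C0).filter Nat.Prime, p with hK0
  refine ⟨1 / (16 * N), by positivity, ?_⟩
  have hlim : Tendsto (fun L : ℕ => (b : ℝ) ^ (1 / 8 * (L : ℝ))) atTop atTop :=
    (tendsto_rpow_atTop_of_base_gt_one _ hb1).comp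
      (tendsto_natCast_atTop_atTop.const_mul_atTop (by norm_num : (0 : ℝ) < 1 / 8))
  filter_upwards [hBV (1 / 4) (by norm_num) 3, hlim.eventually_ge_atTop (K0 : ℝ),
    eventually_ge_atTop 1, eventually_ge_atTop ⌈8 * (b : ℝ) ^ 2 * CW / δ⌉₊] with L hL1 hL2 hL3 hL4
  intro t hbt ht
  have hL3' : (1 : ℝ) ≤ L := by exact_mod_cast hL3
  have hL4' : 8 * (b : ℝ) ^ 2 * CW / δ ≤ L := (Nat.le_ceil _).trans (by exact_mod_cast hL4)
  have ht4 : 3 ≤ t := by omega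
  have ht0 : (0 : ℝ) < t := by exact_mod_cast (by omega : 0 < t)
  obtain ⟨J, hJ1, hJ2, hJ3⟩ := exists_J t ht4
  have htL : (t : ℝ) ≤ (b : ℝ) ^ L := by
    refine ht.trans ?_
    rw [← Real.rpow_natCast (b : ℝ) L]
    refine Real.rpow_le_rpow_of_exponent_le hb1.le ?_
    have h1 : 1 / (16 * (N : ℝ)) ≤ 1 := by
      rw [div_le_one (by positivity)]
      linarith
    calc 1 / (16 * (N : ℝ)) * L ≤ 1 * L := mul_le_mul_of_nonneg_right h1 (by linarith)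
      _ = L := one_mul _
  have hJL : J ≤ b * L := by
    apply hJ3
    have h1 : t ≤ b ^ L := by exact_mod_cast htL
    refine h1.trans ?_
    rw [pow_mul]
    exact Nat.pow_le_pow_left (Nat.lt_two_pow_self).le L
  set Q := Qs b C0 t with hQdef
  set P := Rs b C0 t with hPdef
  have hQp : ∀ p ∈ Q, p.Prime := fun p hp => (mem_filter.1 hp).2.1
  have hPp : ∀ p ∈ P, p.Prime := fun p hp => (mem_filter.1 hp).2.1
  have hcop : ∀ p : ℕ, p.Prime → ¬ p ∣ b → p.Coprime (2 * b) := by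
    intro p hp hpb
    refine Nat.Coprime.mul_right ?_ ((Nat.Prime.coprime_iff_not_dvd hp).2 hpb)
    rw [Nat.Prime.coprime_iff_not_dvd hp]
    intro h2
    exact hpb (h2.trans he)
  have hQb : ∀ p ∈ Q, p.Coprime (2 * b) := fun p hp =>
    hcop p (hQp p hp) (mem_filter.1 hp).2.2.1
  have hPb : ∀ p ∈ P, p.Coprime (2 * b) := fun p hp =>
    hcop p (hPp p hp) (mem_filter.1 hp).2.2.1
  set D : ℕ := (2 ^ 2 ^ J) ^ (C0 * bb) with hD
  have hDle : (D : ℝ) ≤ (b : ℝ) ^ (1 / 8 * (L : ℝ)) := by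
    have h1 : (D : ℝ) ≤ ((t : ℝ) ^ 2) ^ N := by
      have : D ≤ (t ^ 2) ^ N := Nat.pow_le_pow_left hJ2 _
      exact_mod_cast this
    refine h1.trans ?_
    rw [← pow_mul]
    calc (t : ℝ) ^ (2 * N) ≤ ((b : ℝ) ^ (1 / (16 * (N : ℝ)) * L)) ^ (2 * N) :=
          pow_le_pow_left₀ ht0.le ht _
      _ = (b : ℝ) ^ (1 / 8 * (L : ℝ)) := by
          rw [← Real.rpow_natCast, ← Real.rpow_mul hb0.le]
          congr 1
          push_cast
          field_simp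
          norm_num
  have hQK : ∏ p ∈ Q, p ≤ K0 := by
    rw [hK0]
    refine Finset.prod_le_prod_of_subset_of_one_le' ?_ fun p hp _ => (mem_filter.1 hp).2.one_le
    intro p hp
    have h1 := mem_filter.1 hp
    exact mem_filter.2 ⟨mem_Icc.2 ⟨h1.2.1.one_le, h1.2.2.2⟩, h1.2.1⟩
  have hX : D * (∏ p ∈ Q, p) ≤ ⌊(b : ℝ) ^ ((1 / 2 - 1 / 4 : ℝ) * L)⌋₊ := by
    apply Nat.le_floor
    push_cast
    calc (D : ℝ) * ∏ p ∈ Q, (p : ℝ) ≤ (b : ℝ) ^ (1 / 8 * (L : ℝ)) * (b : ℝ) ^ (1 / 8 * (L : ℝ)) := by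
          refine mul_le_mul hDle ?_ (by positivity) (by positivity)
          refine le_trans ?_ hL2
          have : ((∏ p ∈ Q, p : ℕ) : ℝ) ≤ K0 := by exact_mod_cast hQK
          push_cast at this
          exact this
      _ = (b : ℝ) ^ ((1 / 2 - 1 / 4 : ℝ) * L) := by
          rw [← Real.rpow_add hb0]
          congr 1
          ring
  -- the sum of the errors
  have hErr : ∑ T ∈ P.powerset.filter (fun T : Finset ℕ => ∏ p ∈ T, p ≤ D),
      ∑ S ∈ Q.powerset, Er b L (∏ p ∈ T ∪ S, p) ≤ b * ((b : ℝ) ^ L / (L : ℝ) ^ 3) := by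
    refine (sum_err L _ P Q hPp hQp (disj b C0 t) hPb hQb D hX).trans ?_
    unfold Er
    rw [sum_comm]
    calc ∑ l ∈ Icc 1 (b - 1), ∑ q ∈ (Icc 1 ⌊(b : ℝ) ^ ((1 / 2 - 1 / 4 : ℝ) * L)⌋₊).filter
          (fun q => q.Coprime (2 * b)), |cnt b L q (hh b L l q) - (b : ℝ) ^ L / q|
        ≤ ∑ l ∈ Icc 1 (b - 1), (b : ℝ) ^ L / (L : ℝ) ^ 3 := by
          refine sum_le_sum fun l _ => ?_
          refine le_trans (sum_le_sum fun q hq => ?_) (hL1 (hh b L l))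
          have h3 : (1 : ℝ) ≤ (q.divisors.card : ℝ) ^ 2 := by
            have h4 : 1 ≤ q.divisors.card := Finset.card_pos.2 ⟨1, by
              rw [Nat.mem_divisors]
              have := (mem_Icc.1 (mem_filter.1 hq).1).1
              exact ⟨one_dvd _, by omega⟩⟩
            have h5 : (1 : ℝ) ≤ q.divisors.card := by exact_mod_cast h4
            nlinarith
          exact le_mul_of_one_le_left (abs_nonneg _) h3
      _ = ((b - 1 : ℕ) : ℝ) * ((b : ℝ) ^ L / (L : ℝ) ^ 3) := by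
          rw [sum_const, Nat.card_Icc, nsmul_eq_mul, Nat.add_sub_cancel]
      _ ≤ b * ((b : ℝ) ^ L / (L : ℝ) ^ 3) := by
          refine mul_le_mul_of_nonneg_right ?_ (by positivity)
          exact_mod_cast Nat.sub_le b 1
  -- the fundamental lemma
  have hfl := HF bb J C0 P (fun p => 1 / (p : ℝ)) hbb le_rfl
    (fun p hp => ⟨hPp p hp, (mem_filter.1 hp).2.2.2,
      ((mem_Icc.1 (mem_filter.1 hp).1).2).trans hJ1⟩)
    (fun p hp => by
      have h2 : (2 : ℝ) ≤ p := by exact_mod_cast (hPp p hp).two_le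
      refine ⟨by positivity, ?_⟩
      rw [Nat.cast_one]
      exact one_div_le_one_div_of_le (by linarith) (by linarith))
    ((pc b L).filter (fun n => ∀ p ∈ Q, ¬ p ∣ n)) (fun _ => 1) (fun p m => p ∣ m)
    (b.totient * (b : ℝ) ^ L * (∏ p ∈ Q, (1 - 1 / (p : ℝ))))
    (fun T => ∑ S ∈ Q.powerset, Er b L (∏ p ∈ T ∪ S, p)) (fun _ _ => zero_le_one)
    (by
      refine mul_nonneg (by positivity) (Finset.prod_nonneg fun p hp => ?_)
      have h2 : (2 : ℝ) ≤ p := by exact_mod_cast (hQp p hp).two_le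
      have h3 : 1 / (p : ℝ) ≤ 1 / 2 := one_div_le_one_div_of_le (by norm_num) h2
      linarith)
    (fun T hT _ => by
      have h1 := incl_excl (b := b) (by omega) L hL3 Q T hQp (fun p hp => hPp p (hT hp))
        (Finset.disjoint_of_subset_left hT (disj b C0 t))
      have h2 : (∑ m ∈ ((pc b L).filter (fun n => ∀ p ∈ Q, ¬ p ∣ n)).filter
          (fun m => ∀ p ∈ T, p ∣ m), (1 : ℝ)) =
          ((((pc b L).filter (fun n => ∀ p ∈ Q, ¬ p ∣ n)).filter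
            (fun n => ∀ p ∈ T, p ∣ n)).card : ℝ) := by
        rw [Finset.sum_const, nsmul_eq_mul, mul_one]
      rw [← h2] at h1
      convert h1)
  have hcount : (∑ m ∈ ((pc b L).filter (fun n => ∀ p ∈ Q, ¬ p ∣ n)).filter
      (fun m => ∀ p ∈ P, ¬ p ∣ m), (1 : ℝ)) =
      (((palin b L).filter (fun n => ∀ p, p.Prime → p ≤ t → ¬ p ∣ n)).card : ℝ) := by
    rw [Finset.sum_const, nsmul_eq_mul, mul_one, pc, filter_filter, filter_filter]
    congr 2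
    apply filter_congr
    intro n _
    constructor
    · rintro ⟨h1, h2, h3⟩ p hp hpt hpn
      by_cases h4 : p ∣ b
      · have h5 : p ∣ Nat.gcd n b := Nat.dvd_gcd hpn h4
        rw [h1] at h5
        exact hp.one_lt.ne' (Nat.dvd_one.1 h5)
      · rcases le_or_gt p C0 with h6 | h6
        · exact h2 p (mem_filter.2 ⟨mem_Icc.2 ⟨hp.one_le, hpt⟩, hp, h4, h6⟩) hpn
        · exact h3 p (mem_filter.2 ⟨mem_Icc.2 ⟨hp.one_le, hpt⟩, hp, h4, h6⟩) hpn
    · intro h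
      refine ⟨?_, ?_, ?_⟩
      · rw [Nat.coprime_iff_gcd_eq_one]
        by_contra hg
        obtain ⟨p, hp, hpg⟩ := Nat.exists_prime_and_dvd hg
        refine h p hp ?_ (hpg.trans (Nat.gcd_dvd_left _ _))
        exact (Nat.le_of_dvd (by omega) (hpg.trans (Nat.gcd_dvd_right _ _))).trans hbt
      · intro p hp
        exact h p (hQp p hp) (mem_Icc.1 (mem_filter.1 hp).1).2
      · intro p hp
        exact h p (hPp p hp) (mem_Icc.1 (mem_filter.1 hp).1).2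
  have hmain : b.totient * (b : ℝ) ^ L * (∏ p ∈ Q, (1 - 1 / (p : ℝ))) *
      ∏ p ∈ P, (1 - 1 / (p : ℝ)) = (b : ℝ) ^ (L + 1) / Pool.Agent.U485.SM.W t := by
    have h1 := main_prod (b := b) (by omega) C0 hbt
    rw [pow_succ, mul_div_assoc, ← h1]
    ring
  have hfl' : |(∑ m ∈ ((pc b L).filter (fun n => ∀ p ∈ Q, ¬ p ∣ n)).filter
      (fun m => ∀ p ∈ P, ¬ p ∣ m), (1 : ℝ)) - b.totient * (b : ℝ) ^ L *
        (∏ p ∈ Q, (1 - 1 / (p : ℝ))) * ∏ p ∈ P, (1 - 1 / (p : ℝ))| ≤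
      (1 / 2 : ℝ) ^ bb * (b.totient * (b : ℝ) ^ L *
        (∏ p ∈ Q, (1 - 1 / (p : ℝ))) * ∏ p ∈ P, (1 - 1 / (p : ℝ))) + ((J : ℝ) + 2) *
        ∑ T ∈ P.powerset.filter (fun T : Finset ℕ => ∏ p ∈ T, p ≤ D),
          ∑ S ∈ Q.powerset, Er b L (∏ p ∈ T ∪ S, p) := by
    convert hfl
  rw [hcount, hmain] at hfl'
  refine hfl'.trans ?_
  have hWp := W_pos t
  have hM0 : 0 < (b : ℝ) ^ (L + 1) / Pool.Agent.U485.SM.W t := by positivity
  have hlog : Real.log t ≤ b * L := by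
    have h1 : Real.log t ≤ Real.log ((b : ℝ) ^ L) := Real.log_le_log ht0 htL
    rw [Real.log_pow] at h1
    have h2 : Real.log b ≤ b := (Real.log_le_sub_one_of_pos hb0).trans (by linarith)
    calc Real.log t ≤ L * Real.log b := h1
      _ ≤ L * b := mul_le_mul_of_nonneg_left h2 (by linarith)
      _ = b * L := mul_comm _ _
  have hW2 : Pool.Agent.U485.SM.W t ≤ 2 * CW * b * L := by
    refine (hW t).trans ?_
    have h1 : (1 : ℝ) ≤ b * L := by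
      calc (1 : ℝ) = 1 * 1 := (one_mul 1).symm
        _ ≤ b * L := mul_le_mul hb1.le hL3' zero_le_one hb0.le
    have h2 : CW * Real.log t ≤ CW * (b * L) := mul_le_mul_of_nonneg_left hlog hCW.le
    have h3 : CW * 1 ≤ CW * (b * L) := mul_le_mul_of_nonneg_left h1 hCW.le
    linarith
  have hJ' : (J : ℝ) + 2 ≤ 2 * b * L := by
    have h1 : (J : ℝ) ≤ b * L := by exact_mod_cast hJL
    have h2 : (2 : ℝ) ≤ b * L := by
      calc (2 : ℝ) ≤ 4 * 1 := by norm_num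
        _ ≤ b * L := mul_le_mul hbR hL3' zero_le_one hb0.le
    linarith
  have herr2 : ((J : ℝ) + 2) * ∑ T ∈ P.powerset.filter (fun T : Finset ℕ => ∏ p ∈ T, p ≤ D),
      ∑ S ∈ Q.powerset, Er b L (∏ p ∈ T ∪ S, p) ≤
      δ / 2 * ((b : ℝ) ^ (L + 1) / Pool.Agent.U485.SM.W t) := by
    have h1 : ((J : ℝ) + 2) * ∑ T ∈ P.powerset.filter (fun T : Finset ℕ => ∏ p ∈ T, p ≤ D),
        ∑ S ∈ Q.powerset, Er b L (∏ p ∈ T ∪ S, p) ≤
        (2 * b * L) * (b * ((b : ℝ) ^ L / (L : ℝ) ^ 3)) :=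
      mul_le_mul hJ' hErr (sum_nonneg fun _ _ => sum_nonneg fun _ _ => Er_nonneg _ _ _)
        (by positivity)
    refine h1.trans ?_
    have h2 : (b : ℝ) ^ (L + 1) / (2 * CW * b * L) ≤ (b : ℝ) ^ (L + 1) / Pool.Agent.U485.SM.W t :=
      div_le_div_of_nonneg_left (by positivity) hWp hW2
    refine le_trans ?_ (mul_le_mul_of_nonneg_left h2 (by positivity : (0 : ℝ) ≤ δ / 2))
    have hL0 : (0 : ℝ) < L := by linarith
    rw [div_le_iff₀ hδ] at hL4'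
    have e1 : (2 * b * L) * (b * ((b : ℝ) ^ L / (L : ℝ) ^ 3)) =
        ((b : ℝ) ^ L / (4 * CW * (L : ℝ) ^ 2)) * (8 * (b : ℝ) ^ 2 * CW) := by
      field_simp
      ring
    have e2 : δ / 2 * ((b : ℝ) ^ (L + 1) / (2 * CW * b * L)) =
        ((b : ℝ) ^ L / (4 * CW * (L : ℝ) ^ 2)) * (L * δ) := by
      rw [pow_succ]
      field_simp
      ring
    rw [e1, e2]
    exact mul_le_mul_of_nonneg_left hL4' (by positivity)
  have h5 : (1 / 2 : ℝ) ^ bb * ((b : ℝ) ^ (L + 1) / Pool.Agent.U485.SM.W t) ≤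
      δ / 2 * ((b : ℝ) ^ (L + 1) / Pool.Agent.U485.SM.W t) :=
    mul_le_mul_of_nonneg_right hbb2 hM0.le
  calc _ ≤ δ / 2 * ((b : ℝ) ^ (L + 1) / Pool.Agent.U485.SM.W t) +
        δ / 2 * ((b : ℝ) ^ (L + 1) / Pool.Agent.U485.SM.W t) := add_le_add h5 herr2
    _ = _ := by ring

end Pool.Agent.U668.PA
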