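import Pool.Agent.H181R5.PB_T9

/-!
# Palindromes without small prime factors: inclusion and exclusion
-/

set_option autoImplicit false

namespace Pool.Agent.U668.PA

open Finset Pool.Agent.H39R3.PB Pool.Agent.H181R5.PBT9

variable {b : ℕ}

/-- the palindromes with `2 L + 1` digits which are coprime to the base -/
def pc (b L : ℕ) : Finset ℕ := (palin b L).filter (fun n => n.Coprime b)

/-- the classes of the shifted leading digits -/
def hh (b L l q : ℕ) : ℕ := (q - 1) * ((l - 1) * (b ^ (2 * L) + 1))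

/-- the error for the modulus `q` -/
noncomputable def Er (b L q : ℕ) : ℝ :=
  ∑ l ∈ Icc 1 (b - 1), |cnt b L q (hh b L l q) - (b : ℝ) ^ L / q|

theorem Er_nonneg (b L q : ℕ) : 0 ≤ Er b L q := sum_nonneg fun _ _ => abs_nonneg _

theorem pvl_coprime {l L : ℕ} (hL : 1 ≤ L) (m : Fin L → Fin b) :
    (pvl b l L m).Coprime b ↔ l.Coprime b := by
  have h1 : pvl b l L m ≡ l [MOD b] := by
    unfold pvl
    have h2 : b ^ (2 * L) + 1 ≡ 1 [MOD b] := by
      have : b ^ (2 * L) ≡ 0 [MOD b] := Nat.modEq_zero_iff_dvd.2 (dvd_pow_self b (by omega))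
      simpa using this.add_right 1
    have h3 : ∑ c : Fin L, (m c : ℕ) * fr b L c ≡ 0 [MOD b] := by
      rw [Nat.modEq_zero_iff_dvd]
      refine Finset.dvd_sum fun c _ => Dvd.dvd.mul_left ?_ _
      unfold fr
      have hc := c.2
      split_ifs with h0
      · exact dvd_pow_self b (by omega)
      · exact dvd_add (dvd_pow_self b (by omega)) (dvd_pow_self b (by omega))
    simpa using (h2.mul_left l).add h3
  unfold Nat.Coprime
  rw [h1.gcd_eq]

theorem card_lead (hb : 2 ≤ b) :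
    ((Icc 1 (b - 1)).filter (fun l => l.Coprime b)).card = b.totient := by
  rw [Nat.totient_eq_card_coprime]
  congr 1
  ext l
  rw [mem_filter, mem_filter, mem_Icc, mem_range]
  constructor
  · rintro ⟨⟨h1, h2⟩, h3⟩
    exact ⟨by omega, h3.symm⟩
  · rintro ⟨h1, h2⟩
    refine ⟨⟨?_, by omega⟩, h2.symm⟩
    by_contra h0
    have : l = 0 := by omega
    rw [this, Nat.coprime_zero_right] at h2
    omega

/-- the number of the palindromes divisible by `q` -/
theorem card_dvd (hb : 2 ≤ b) (L : ℕ) (hL : 1 ≤ L) (q : ℕ) (hq : 1 ≤ q) :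
    |(((pc b L).filter (fun n => q ∣ n)).card : ℝ) - b.totient * (b : ℝ) ^ L / q| ≤ Er b L q := by
  have h1 : (((pc b L).filter (fun n => q ∣ n)).card : ℝ) =
      ∑ l ∈ (Icc 1 (b - 1)).filter (fun l => l.Coprime b), cnt b L q (hh b L l q) := by
    rw [pc, palin_eq hb L hL, filter_filter, filter_image, card_image_of_injOn]
    · rw [card_filter, sum_product, Nat.cast_sum, sum_filter]
      apply sum_congr rfl
      intro l hl
      rw [mem_Icc] at hl
      rw [← card_filter]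
      split_ifs with hlc
      · rw [cnt]
        congr 2
        apply filter_congr
        intro m _
        have h2 : q ∣ pvl b l L m ↔ pvl b l L m ≡ 0 [MOD q] := Nat.modEq_zero_iff_dvd.symm
        show (pvl b l L m).Coprime b ∧ q ∣ pvl b l L m ↔ _
        rw [pvl_coprime hL m, h2, pvl_pv hl.1, modEq_shift hq, zero_add, hh]
        exact ⟨fun h => h.2, fun h => ⟨hlc, h⟩⟩
      · have h3 : (univ : Finset (Fin L → Fin b)).filter
            (fun m => (pvl b l L m).Coprime b ∧ q ∣ pvl b l L m) = ∅ := by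
          apply filter_eq_empty_iff.2
          intro m _ h
          exact hlc ((pvl_coprime hL m).1 h.1)
        show (((univ : Finset (Fin L → Fin b)).filter
            (fun m => (pvl b l L m).Coprime b ∧ q ∣ pvl b l L m)).card : ℝ) = 0
        rw [h3, card_empty, Nat.cast_zero]
    · intro x hx y hy hxy
      rw [mem_coe, mem_filter, mem_product, mem_Icc] at hx hy
      have hx1 := hx.1.1.2
      have hy1 := hy.1.1.2
      exact pvl_inj hb L hL (show x.1 < b by omega) (show y.1 < b by omega) hxy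
  have h2 : (b.totient : ℝ) * (b : ℝ) ^ L / q =
      ∑ _l ∈ (Icc 1 (b - 1)).filter (fun l => l.Coprime b), (b : ℝ) ^ L / q := by
    rw [sum_const, card_lead hb, nsmul_eq_mul]
    ring
  rw [h1, h2, ← sum_sub_distrib]
  refine (abs_sum_le_sum_abs _ _).trans ?_
  exact sum_le_sum_of_subset_of_nonneg (filter_subset _ _) fun _ _ _ => abs_nonneg _

/-- divisibility by all primes of a set -/
theorem all_dvd_iff {X : Finset ℕ} (hX : ∀ p ∈ X, p.Prime) (n : ℕ) :
    (∀ p ∈ X, p ∣ n) ↔ (∏ p ∈ X, p) ∣ n := by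
  constructor
  · intro h
    exact Finset.prod_primes_dvd n (fun p hp => (hX p hp).prime) h
  · intro h p hp
    exact (Finset.dvd_prod_of_mem _ hp).trans h

/-- Inclusion and exclusion over the primes of `Q`. -/
theorem incl_excl (hb : 2 ≤ b) (L : ℕ) (hL : 1 ≤ L) (Q T : Finset ℕ) (hQ : ∀ p ∈ Q, p.Prime)
    (hT : ∀ p ∈ T, p.Prime) (hd : Disjoint T Q) :
    |((((pc b L).filter (fun n => ∀ p ∈ Q, ¬ p ∣ n)).filter (fun n => ∀ p ∈ T, p ∣ n)).card : ℝ) -
      b.totient * (b : ℝ) ^ L * (∏ p ∈ Q, (1 - 1 / (p : ℝ))) * ∏ p ∈ T, 1 / (p : ℝ)| ≤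
      ∑ S ∈ Q.powerset, Er b L (∏ p ∈ T ∪ S, p) := by
  classical
  have h1 : ((((pc b L).filter (fun n => ∀ p ∈ Q, ¬ p ∣ n)).filter
      (fun n => ∀ p ∈ T, p ∣ n)).card : ℝ) =
      ∑ S ∈ Q.powerset, (-1 : ℝ) ^ S.card *
        (((pc b L).filter (fun n => (∏ p ∈ T ∪ S, p) ∣ n)).card : ℝ) := by
    rw [filter_filter, card_filter]
    push_cast
    have h2 : ∀ n, (if (∀ p ∈ Q, ¬ p ∣ n) ∧ ∀ p ∈ T, p ∣ n then (1 : ℝ) else 0) =
        ∑ S ∈ Q.powerset, (-1 : ℝ) ^ S.card * (if (∏ p ∈ T ∪ S, p) ∣ n then 1 else 0) := by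
      intro n
      have h3 : ∏ p ∈ Q, (1 + (if p ∣ n then (-1 : ℝ) else 0)) =
          if (∀ p ∈ Q, ¬ p ∣ n) then 1 else 0 := by
        split_ifs with h
        · apply Finset.prod_eq_one
          intro p hp
          rw [if_neg (h p hp), add_zero]
        · push Not at h
          obtain ⟨p, hp, hpn⟩ := h
          apply Finset.prod_eq_zero hp
          rw [if_pos hpn]
          norm_num
      have h4 : (if (∀ p ∈ Q, ¬ p ∣ n) ∧ ∀ p ∈ T, p ∣ n then (1 : ℝ) else 0) =
          (if (∀ p ∈ Q, ¬ p ∣ n) then 1 else 0) * (if ∀ p ∈ T, p ∣ n then 1 else 0) := by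
        by_cases ha : ∀ p ∈ Q, ¬ p ∣ n
        · by_cases hc : ∀ p ∈ T, p ∣ n
          · rw [if_pos ⟨ha, hc⟩, if_pos ha, if_pos hc, mul_one]
          · rw [if_neg (fun h => hc h.2), if_neg hc, mul_zero]
        · rw [if_neg (fun h => ha h.1), if_neg ha, zero_mul]
      rw [h4, ← h3, Finset.prod_one_add, Finset.sum_mul]
      refine sum_congr rfl fun S hS => ?_
      rw [mem_powerset] at hS
      have hTS : ∀ p ∈ T ∪ S, p.Prime := by
        intro p hp
        rcases mem_union.1 hp with h | h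
        · exact hT p h
        · exact hQ p (hS h)
      by_cases hc : ∀ p ∈ S, p ∣ n
      · have h5 : ∏ p ∈ S, (if p ∣ n then (-1 : ℝ) else 0) = (-1) ^ S.card := by
          rw [Finset.prod_congr rfl (fun p hp => if_pos (hc p hp)), Finset.prod_const]
        rw [h5]
        congr 1
        by_cases hcT : ∀ p ∈ T, p ∣ n
        · rw [if_pos hcT, if_pos]
          rw [← all_dvd_iff hTS]
          intro p hp
          rcases mem_union.1 hp with h | h
          · exact hcT p h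
          · exact hc p h
        · rw [if_neg hcT, if_neg]
          rw [← all_dvd_iff hTS]
          intro h
          exact hcT fun p hp => h p (mem_union_left _ hp)
      · have h5 : ∏ p ∈ S, (if p ∣ n then (-1 : ℝ) else 0) = 0 := by
          push Not at hc
          obtain ⟨p, hp, hpn⟩ := hc
          exact Finset.prod_eq_zero hp (if_neg hpn)
        rw [h5, zero_mul, if_neg, mul_zero]
        rw [← all_dvd_iff hTS]
        intro h
        exact hc fun p hp => h p (mem_union_right _ hp)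
    rw [sum_congr rfl (fun n _ => h2 n), sum_comm]
    refine sum_congr rfl fun S _ => ?_
    rw [← mul_sum, Finset.sum_boole]
  have h2 : (b.totient : ℝ) * (b : ℝ) ^ L * (∏ p ∈ Q, (1 - 1 / (p : ℝ))) * ∏ p ∈ T, 1 / (p : ℝ) =
      ∑ S ∈ Q.powerset, (-1 : ℝ) ^ S.card *
        (b.totient * (b : ℝ) ^ L / ((∏ p ∈ T ∪ S, p : ℕ) : ℝ)) := by
    have h3 : ∏ p ∈ Q, (1 - 1 / (p : ℝ)) = ∑ S ∈ Q.powerset, ∏ p ∈ S, (-(1 / (p : ℝ))) := by
      rw [← Finset.prod_one_add]
      refine Finset.prod_congr rfl fun p _ => by ring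
    rw [h3, Finset.mul_sum, Finset.sum_mul]
    refine sum_congr rfl fun S hS => ?_
    rw [mem_powerset] at hS
    have hdS : Disjoint T S := Finset.disjoint_of_subset_right hS hd
    rw [Finset.prod_union hdS]
    push_cast
    have h4 : ∏ p ∈ S, (-(1 / (p : ℝ))) = (-1) ^ S.card * (∏ p ∈ S, (p : ℝ))⁻¹ := by
      rw [← Finset.prod_inv_distrib, ← Finset.prod_const, ← Finset.prod_mul_distrib]
      refine Finset.prod_congr rfl fun p _ => by ring
    have h5 : ∏ p ∈ T, 1 / (p : ℝ) = (∏ p ∈ T, (p : ℝ))⁻¹ := by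
      rw [← Finset.prod_inv_distrib]
      refine Finset.prod_congr rfl fun p _ => by ring
    rw [h4, h5, div_eq_mul_inv, mul_inv]
    ring
  rw [h1, h2, ← sum_sub_distrib]
  refine (abs_sum_le_sum_abs _ _).trans (sum_le_sum fun S hS => ?_)
  rw [mem_powerset] at hS
  rw [← mul_sub, abs_mul, abs_pow, abs_neg, abs_one, one_pow, one_mul]
  refine card_dvd hb L hL _ ?_
  refine Nat.one_le_iff_ne_zero.2 (Finset.prod_ne_zero_iff.2 fun p hp => ?_)
  rcases mem_union.1 hp with h | h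
  · exact (hT p h).ne_zero
  · exact (hQ p (hS h)).ne_zero

/-- The sum of the errors. -/
theorem sum_err (L X : ℕ) (P Q : Finset ℕ) (hP : ∀ p ∈ P, p.Prime) (hQ : ∀ p ∈ Q, p.Prime)
    (hd : Disjoint P Q) (hPb : ∀ p ∈ P, p.Coprime (2 * b)) (hQb : ∀ p ∈ Q, p.Coprime (2 * b))
    (D : ℕ) (hX : D * (∏ p ∈ Q, p) ≤ X) :
    ∑ T ∈ P.powerset.filter (fun T : Finset ℕ => ∏ p ∈ T, p ≤ D),
      ∑ S ∈ Q.powerset, Er b L (∏ p ∈ T ∪ S, p) ≤
    ∑ q ∈ (Icc 1 X).filter (fun q => q.Coprime (2 * b)), Er b L q := by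
  classical
  rw [← sum_product']
  have hmem : ∀ x ∈ (P.powerset.filter (fun T : Finset ℕ => ∏ p ∈ T, p ≤ D)) ×ˢ Q.powerset,
      x.1 ⊆ P ∧ x.2 ⊆ Q ∧ ∏ p ∈ x.1, p ≤ D := by
    intro x hx
    rw [mem_product, mem_filter, mem_powerset, mem_powerset] at hx
    exact ⟨hx.1.1, hx.2, hx.1.2⟩
  have hpr : ∀ x ∈ (P.powerset.filter (fun T : Finset ℕ => ∏ p ∈ T, p ≤ D)) ×ˢ Q.powerset,
      ∀ p ∈ x.1 ∪ x.2, p.Prime := by
    intro x hx p hp
    obtain ⟨h1, h2, _⟩ := hmem x hx
    rcases mem_union.1 hp with h | h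
    · exact hP p (h1 h)
    · exact hQ p (h2 h)
  have hinj : Set.InjOn (fun x : Finset ℕ × Finset ℕ => ∏ p ∈ x.1 ∪ x.2, p)
      ((P.powerset.filter (fun T : Finset ℕ => ∏ p ∈ T, p ≤ D)) ×ˢ Q.powerset :
        Finset (Finset ℕ × Finset ℕ)) := by
    intro x hx y hy hxy
    have hxy' : ∏ p ∈ x.1 ∪ x.2, p = ∏ p ∈ y.1 ∪ y.2, p := hxy
    have h1 := Nat.primeFactors_prod (hpr x hx)
    have h2 := Nat.primeFactors_prod (hpr y hy)
    rw [hxy', h2] at h1
    obtain ⟨hx1, hx2, _⟩ := hmem x hx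
    obtain ⟨hy1, hy2, _⟩ := hmem y hy
    have hsub : ∀ x y : Finset ℕ × Finset ℕ, x.1 ⊆ P → x.2 ⊆ Q → y.1 ⊆ P → y.2 ⊆ Q →
        x.1 ∪ x.2 = y.1 ∪ y.2 → x.1 ⊆ y.1 ∧ x.2 ⊆ y.2 := by
      intro x y hx1 hx2 hy1 hy2 h
      constructor
      · intro p hp
        have h3 : p ∈ y.1 ∪ y.2 := h ▸ mem_union_left _ hp
        rcases mem_union.1 h3 with h4 | h4
        · exact h4
        · exact absurd (hy2 h4) (Finset.disjoint_left.1 hd (hx1 hp))
      · intro p hp
        have h3 : p ∈ y.1 ∪ y.2 := h ▸ mem_union_right _ hp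
        rcases mem_union.1 h3 with h4 | h4
        · exact absurd (hx2 hp) (Finset.disjoint_left.1 hd (hy1 h4))
        · exact h4
    have h3 := hsub x y hx1 hx2 hy1 hy2 h1.symm
    have h4 := hsub y x hy1 hy2 hx1 hx2 h1
    exact Prod.ext (Finset.Subset.antisymm h3.1 h4.1) (Finset.Subset.antisymm h3.2 h4.2)
  rw [← Finset.sum_image (f := fun q => Er b L q) hinj]
  refine sum_le_sum_of_subset_of_nonneg ?_ fun _ _ _ => Er_nonneg _ _ _
  intro q hq
  rw [mem_image] at hq
  obtain ⟨x, hx, rfl⟩ := hq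
  obtain ⟨h1, h2, h3⟩ := hmem x hx
  rw [mem_filter, mem_Icc]
  refine ⟨⟨?_, ?_⟩, ?_⟩
  · exact Nat.one_le_iff_ne_zero.2 (Finset.prod_ne_zero_iff.2 fun p hp => (hpr x hx p hp).ne_zero)
  · refine le_trans ?_ hX
    rw [Finset.prod_union (Finset.disjoint_of_subset_left h1 (Finset.disjoint_of_subset_right h2 hd))]
    refine Nat.mul_le_mul h3 ?_
    exact Finset.prod_le_prod_of_subset_of_one_le' h2 fun p hp _ => (hQ p hp).one_le
  · apply Nat.Coprime.prod_left
    intro p hp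
    rcases mem_union.1 hp with h | h
    · exact hPb p (h1 h)
    · exact hQb p (h2 h)

end Pool.Agent.U668.PA
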