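import Pool.Agent.U668.PA.Blk

/-!
# The sum of the weights of the sieve over the palindromes, monotone sieve levels
-/

set_option autoImplicit false

namespace Pool.Agent.U668.PA

open Finset Filter Topology Pool.Agent.H39R3.PB Pool.Agent.H181R5.PBT9 Pool.Agent.U485.SM

variable {b : ℕ}

/-- the leading part of the palindromes of a block -/
def top (b l K : ℕ) (o : Fin K → Fin b) : ℕ := l * b ^ K + ∑ c : Fin K, (o c : ℕ) * b ^ (c : ℕ)

theorem top_inj {l l' K : ℕ} {o o' : Fin K → Fin b} (h : top b l K o = top b l' K o') :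
    l = l' ∧ o = o' := by
  unfold top at h
  rw [← finFunctionFinEquiv_apply o, ← finFunctionFinEquiv_apply o'] at h
  have h1 := (finFunctionFinEquiv o).2
  have h2 := (finFunctionFinEquiv o').2
  have hp : 0 < b ^ K := by omega
  have e1 : l = l' := by
    have h3 : (l * b ^ K + (finFunctionFinEquiv o : ℕ)) / b ^ K = l := by
      rw [mul_comm, Nat.mul_add_div hp, Nat.div_eq_of_lt h1, add_zero]
    have h4 : (l' * b ^ K + (finFunctionFinEquiv o' : ℕ)) / b ^ K = l' := by
      rw [mul_comm, Nat.mul_add_div hp, Nat.div_eq_of_lt h2, add_zero]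
    rw [← h3, h, h4]
  subst e1
  refine ⟨rfl, ?_⟩
  have h5 : finFunctionFinEquiv o = finFunctionFinEquiv o' := Fin.ext (by omega)
  exact finFunctionFinEquiv.injective h5

theorem top_lt {l K : ℕ} (hl : l < b) (o : Fin K → Fin b) : top b l K o < b ^ (K + 1) := by
  unfold top
  rw [← finFunctionFinEquiv_apply o]
  have h1 := (finFunctionFinEquiv o).2
  have h2 : (l + 1) * b ^ K ≤ b * b ^ K := Nat.mul_le_mul_right _ hl
  rw [pow_succ, mul_comm (b ^ K) b]
  have h3 : (l + 1) * b ^ K = l * b ^ K + b ^ K := by ring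
  omega

theorem geom_bound (K : ℕ) (o : Fin K → Fin b) :
    ∑ c : Fin K, (o c : ℕ) * b ^ (K - (c : ℕ)) + b ≤ b ^ (K + 1) + (if K = 0 then 0 else 0) := by
  induction K with
  | zero => simp
  | succ K ih =>
    rw [Fin.sum_univ_castSucc]
    have h1 : ∑ c : Fin K, ((o c.castSucc : Fin b) : ℕ) * b ^ (K + 1 - ((c.castSucc : Fin (K + 1)) : ℕ)) =
        b * ∑ c : Fin K, ((o c.castSucc : Fin b) : ℕ) * b ^ (K - (c : ℕ)) := by
      rw [mul_sum]
      refine sum_congr rfl fun c _ => ?_
      rw [Fin.val_castSucc]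
      have hc := c.2
      have h2 : K + 1 - (c : ℕ) = (K - (c : ℕ)) + 1 := by omega
      rw [h2, pow_succ]
      ring
    rw [h1, Fin.val_last, show K + 1 - K = 1 by omega, pow_one]
    have h2 := ih (fun c => o c.castSucc)
    simp only [ite_self, add_zero] at h2 ⊢
    have h3 : b * (∑ c : Fin K, ((o c.castSucc : Fin b) : ℕ) * b ^ (K - (c : ℕ)) + b) ≤
        b * b ^ (K + 1) := Nat.mul_le_mul_left _ h2
    have h4 := (o (Fin.last K)).2
    have h5 : ((o (Fin.last K) : Fin b) : ℕ) * b + b ≤ b * b := by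
      calc ((o (Fin.last K) : Fin b) : ℕ) * b + b = ((o (Fin.last K) : ℕ) + 1) * b := by ring
        _ ≤ b * b := Nat.mul_le_mul_right _ h4
    rw [mul_add] at h3
    rw [pow_succ b (K + 1), mul_comm (b ^ (K + 1)) b]
    omega

/-- the position of the palindromes of a block -/
theorem vv_mem (hb : 2 ≤ b) {l M K : ℕ} (hl : l < b) (hM : 1 ≤ M) (o : Fin K → Fin b)
    (i : Fin M → Fin b) :
    top b l K o * b ^ (2 * M + K) ≤ vv b l M K o i ∧
      vv b l M K o i ≤ (top b l K o + 1) * b ^ (2 * M + K) := by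
  have h1 : outer b l M K o = top b l K o * b ^ (2 * M + K) +
      (l + ∑ c : Fin K, (o c : ℕ) * b ^ (K - (c : ℕ))) := by
    unfold outer top
    have h2 : ∑ c : Fin K, (o c : ℕ) * fr b (M + K) (M + c) =
        (∑ c : Fin K, (o c : ℕ) * b ^ (c : ℕ)) * b ^ (2 * M + K) +
          ∑ c : Fin K, (o c : ℕ) * b ^ (K - (c : ℕ)) := by
      rw [sum_mul, ← sum_add_distrib]
      refine sum_congr rfl fun c _ => ?_
      unfold fr
      rw [if_neg (by omega), mul_add, mul_assoc, ← pow_add]
      congr 3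
      · ring
      · omega
    rw [h2, mul_add, mul_one, add_mul, mul_assoc, ← pow_add]
    have h3 : K + (2 * M + K) = 2 * (M + K) := by ring
    rw [h3]
    ring
  have h2 : ∑ c : Fin M, (i c : ℕ) * fr b M c + b ≤ b ^ (2 * M) := by
    have h3 := Nat.lt_base_pow_length_digits (b := b) (m := pvl b (b - 1) M i) (by omega)
    rw [digits_pvl hb (by omega) (by omega) M hM, lst, List.length_map, List.length_range] at h3
    unfold pvl at h3
    obtain ⟨k, rfl⟩ : ∃ k, b = k + 1 := ⟨b - 1, by omega⟩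
    rw [pow_succ] at h3
    simp only [Nat.add_sub_cancel] at h3
    have h4 : k * ((k + 1) ^ (2 * M) + 1) = k * (k + 1) ^ (2 * M) + k := by ring
    have h5 : (k + 1) ^ (2 * M) * (k + 1) = k * (k + 1) ^ (2 * M) + (k + 1) ^ (2 * M) := by ring
    rw [h4, h5] at h3
    omega
  have h3 : b ^ K * ∑ c : Fin M, (i c : ℕ) * fr b M c + b ^ (K + 1) ≤ b ^ (2 * M + K) := by
    have h4 : b ^ K * (∑ c : Fin M, (i c : ℕ) * fr b M c + b) ≤ b ^ K * b ^ (2 * M) :=
      Nat.mul_le_mul_left _ h2
    rw [mul_add, ← pow_succ, ← pow_add] at h4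
    rwa [add_comm (2 * M) K]
  have h4 := geom_bound K o
  simp only [ite_self, add_zero] at h4
  rw [vv_eq, h1]
  constructor
  · omega
  · rw [add_mul, one_mul]
    omega

/-- the sum over all palindromes, block by block -/
theorem sum_palin (hb : 2 ≤ b) (M K : ℕ) (hM : 1 ≤ M) (f : ℕ → ℝ) :
    ∑ n ∈ palin b (M + K), f n =
      ∑ l ∈ Icc 1 (b - 1), ∑ o : Fin K → Fin b, ∑ i : Fin M → Fin b, f (vv b l M K o i) := by
  rw [palin_eq hb (M + K) (by omega), sum_image, sum_product]
  · refine sum_congr rfl fun l _ => ?_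
    have h1 : ∑ o : Fin K → Fin b, ∑ i : Fin M → Fin b, f (vv b l M K o i) =
        ∑ x : (Fin M → Fin b) × (Fin K → Fin b), f (pvl b l (M + K) (Fin.append x.1 x.2)) := by
      rw [Fintype.sum_prod_type_right]
      rfl
    rw [h1]
    exact ((Fin.appendEquiv M K).sum_comp (fun m => f (pvl b l (M + K) m))).symm
  · intro x hx y hy hxy
    rw [mem_coe, mem_product, mem_Icc] at hx hy
    exact pvl_inj hb (M + K) (by omega) (show x.1 < b by omega) (show y.1 < b by omega) hxy

theorem vv_lt (hb : 2 ≤ b) {l M K : ℕ} (h1 : 1 ≤ l) (hl : l < b) (hM : 1 ≤ M) (o : Fin K → Fin b)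
    (i : Fin M → Fin b) : b ^ (2 * (M + K)) ≤ vv b l M K o i ∧
      vv b l M K o i < b ^ (2 * (M + K) + 1) := by
  have h : vv b l M K o i ∈ palin b (M + K) := by
    rw [palin_eq hb (M + K) (by omega), mem_image]
    exact ⟨(l, Fin.append i o), mem_product.2 ⟨mem_Icc.2 ⟨h1, by omega⟩, mem_univ _⟩, rfl⟩
  rw [palin, mem_filter, mem_range] at h
  exact ⟨h.2.1, h.1⟩

/-- few blocks contain a change of the level -/
theorem few_bad (T : ℕ → ℕ) (hT : Monotone T) (M K : ℕ) (Λ : Finset ℕ) (hΛ : ∀ l ∈ Λ, l < b) :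
    ((Λ ×ˢ (univ : Finset (Fin K → Fin b))).filter (fun x =>
      T (top b x.1 K x.2 * b ^ (2 * M + K)) ≠ T ((top b x.1 K x.2 + 1) * b ^ (2 * M + K)))).card ≤
      T (b ^ (2 * (M + K) + 1)) := by
  classical
  set s := b ^ (2 * M + K) with hs
  calc _ ≤ ((range (b ^ (K + 1))).filter (fun u => T (u * s) ≠ T ((u + 1) * s))).card := by
        refine Finset.card_le_card_of_injOn (fun x => top b x.1 K x.2) ?_ ?_
        · intro x hx
          have h1 := mem_filter.1 hx
          have h2 := mem_product.1 h1.1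
          exact mem_coe.2 (mem_filter.2 ⟨mem_range.2 (top_lt (hΛ _ h2.1) _), h1.2⟩)
        · intro x _ y _ hxy
          have h1 := top_inj hxy
          exact Prod.ext h1.1 h1.2
    _ = ∑ u ∈ (range (b ^ (K + 1))).filter (fun u => T (u * s) ≠ T ((u + 1) * s)), 1 := by
        rw [card_eq_sum_ones]
    _ ≤ ∑ u ∈ (range (b ^ (K + 1))).filter (fun u => T (u * s) ≠ T ((u + 1) * s)),
          (T ((u + 1) * s) - T (u * s)) := by
        refine sum_le_sum fun u hu => ?_
        have h1 := (mem_filter.1 hu).2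
        have h2 : T (u * s) ≤ T ((u + 1) * s) := hT (Nat.mul_le_mul_right _ (Nat.le_succ u))
        omega
    _ ≤ ∑ u ∈ range (b ^ (K + 1)), (T ((u + 1) * s) - T (u * s)) :=
        sum_le_sum_of_subset (filter_subset _ _)
    _ ≤ T (b ^ (K + 1) * s) := by
        have key : ∀ n : ℕ, ∑ u ∈ range n, (T ((u + 1) * s) - T (u * s)) ≤ T (n * s) := by
          intro n
          induction n with
          | zero => simp
          | succ n ih =>
            rw [sum_range_succ]
            have h2 : T (n * s) ≤ T ((n + 1) * s) := hT (Nat.mul_le_mul_right _ (Nat.le_succ n))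
            omega
        exact key _
    _ = T (b ^ (2 * (M + K) + 1)) := by
        rw [hs, ← pow_add]
        congr 2
        ring

theorem fT_nonneg (T : ℕ → ℕ) (n : ℕ) : 0 ≤ fT T n := by
  unfold fT
  split_ifs
  · exact (W_pos _).le
  · exact le_rfl

theorem W_mono {s t : ℕ} (h : s ≤ t) : W s ≤ W t := by
  unfold W
  refine Finset.prod_le_prod_of_subset_of_one_le ?_ ?_ ?_
  · intro p hp
    rw [Pr, mem_filter, mem_Icc] at hp ⊢
    exact ⟨⟨hp.1.1, hp.1.2.trans h⟩, hp.2⟩
  · intro p hp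
    rw [Pr, mem_filter] at hp
    have h2 : (2 : ℝ) ≤ p := by exact_mod_cast hp.2.two_le
    have h3 : 1 / (p : ℝ) ≤ 1 / 2 := one_div_le_one_div_of_le (by norm_num) h2
    rw [inv_nonneg]
    linarith
  · intro p hp _
    rw [Pr, mem_filter] at hp
    have h2 : (2 : ℝ) ≤ p := by exact_mod_cast hp.2.two_le
    have h3 : 1 / (p : ℝ) ≤ 1 / 2 := one_div_le_one_div_of_le (by norm_num) h2
    have h4 : 0 < 1 / (p : ℝ) := by positivity
    exact (one_le_inv₀ (by linarith)).2 (by linarith)

end Pool.Agent.U668.PA
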