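import Pool.Agent.U668.PA.Mean

/-!
# The sum of the weights of the sieve over the palindromes
-/

set_option autoImplicit false

namespace Pool.Agent.U668.PA

open Finset Filter Topology Pool.Agent.H39R3.PB Pool.Agent.H181R5.PBT9 Pool.Agent.U485.SM

variable {b : ℕ}

theorem fT_zero (hb : 4 ≤ b) {l M K : ℕ} (hM : 1 ≤ M) (hlb : ¬ l.Coprime b)
    (T : ℕ → ℕ) (o : Fin K → Fin b) (i : Fin M → Fin b) (hT : b ≤ T (vv b l M K o i)) :
    fT T (vv b l M K o i) = 0 := by
  have h1 : ¬ (vv b l M K o i).Coprime b := fun h => hlb ((pvl_coprime (by omega) _).1 h)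
  obtain ⟨p, hp, hp1, hp2⟩ := Nat.Prime.not_coprime_iff_dvd.1 h1
  unfold fT
  rw [if_neg]
  intro h
  exact h p hp ((Nat.le_of_dvd (by omega) hp2).trans hT) hp1

theorem mean (hb : 4 ≤ b) (he : 2 ∣ b) (hBV : BVB b) (T : ℕ → ℕ) (hT : Monotone T)
    (hTb : ∀ᶠ n : ℕ in atTop, b ≤ T n)
    (hTs : ∀ ε : ℝ, 0 < ε → ∀ᶠ n : ℕ in atTop, (T n : ℝ) ≤ (n : ℝ) ^ ε) (δ : ℝ) (hδ : 0 < δ) :
    ∀ᶠ L : ℕ in atTop, |∑ n ∈ palin b L, fT T n - (b : ℝ) ^ (L + 1)| ≤ δ * (b : ℝ) ^ (L + 1) := by
  classical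
  obtain ⟨ε, hε, hblk⟩ := block hb he hBV (δ / 2) (half_pos hδ)
  obtain ⟨CW, hCW, hW⟩ := Pool.Agent.U333.HT.t_WBD
  have hbR : (4 : ℝ) ≤ b := by exact_mod_cast hb
  have hb0 : (0 : ℝ) < b := by linarith
  have hb1 : (1 : ℝ) < b := by linarith
  have htot0 : 0 < b.totient := Nat.totient_pos.2 (by omega)
  have htot : (0 : ℝ) < b.totient := by exact_mod_cast htot0
  have htot1 : (1 : ℝ) ≤ b.totient := by exact_mod_cast htot0
  set ε1 : ℝ := min ε (1 / 2) / 8 with hε1
  have hε1pos : 0 < ε1 := by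
    have : 0 < min ε (1 / 2) := lt_min hε (by norm_num)
    positivity
  have hMlim : Tendsto (fun L : ℕ => L - L / 2) atTop atTop := by
    refine tendsto_atTop_mono (f := fun L : ℕ => L / 2) (fun L => by omega) ?_
    exact tendsto_atTop_atTop.2 fun n => ⟨2 * n, fun L hL => by omega⟩
  have hblim : Tendsto (fun L : ℕ => b ^ (2 * L)) atTop atTop :=
    (tendsto_pow_atTop_atTop_of_one_lt (by omega : 1 < b)).comp
      (tendsto_atTop_atTop.2 fun n => ⟨n, fun L hL => by omega⟩)
  have hblim2 : Tendsto (fun L : ℕ => b ^ (2 * L + 1)) atTop atTop :=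
    (tendsto_pow_atTop_atTop_of_one_lt (by omega : 1 < b)).comp
      (tendsto_atTop_atTop.2 fun n => ⟨n, fun L hL => by omega⟩)
  have hpoly : ∀ᶠ M : ℕ in atTop, 2 * CW * b * M + b ≤ δ / 2 * 2 ^ M := by
    have h1 : Tendsto (fun n : ℕ => (2 * CW * b) * ((n : ℝ) ^ 1 / (2 : ℝ) ^ n) +
        b * ((n : ℝ) ^ 0 / (2 : ℝ) ^ n)) atTop (𝓝 ((2 * CW * b) * 0 + b * 0)) :=
      ((tendsto_pow_const_div_const_pow_of_one_lt 1 (by norm_num : (1 : ℝ) < 2)).const_mul _).add
        ((tendsto_pow_const_div_const_pow_of_one_lt 0 (by norm_num : (1 : ℝ) < 2)).const_mul _)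
    rw [mul_zero, mul_zero, add_zero] at h1
    filter_upwards [h1.eventually_lt_const (half_pos hδ)] with n hn
    have h2 : (0 : ℝ) < 2 ^ n := by positivity
    rw [pow_one, pow_zero, ← mul_div_assoc, mul_one_div, ← add_div, div_lt_iff₀ h2] at hn
    exact hn.le
  filter_upwards [hMlim.eventually hblk, hblim.eventually hTb,
    hblim2.eventually (hTs ε1 hε1pos), hMlim.eventually hpoly, eventually_ge_atTop 2]
    with L hL1 hL2 hL3 hL4 hL5
  obtain ⟨K, hK⟩ : ∃ K, K = L / 2 := ⟨_, rfl⟩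
  obtain ⟨M, hM⟩ : ∃ M, M = L - L / 2 := ⟨_, rfl⟩
  rw [← hM] at hL1 hL4
  have hLMK : L = M + K := by omega
  have hM1 : 1 ≤ M := by omega
  have hMR : (1 : ℝ) ≤ M := by exact_mod_cast hM1
  rw [hLMK] at hL2 hL3 ⊢
  set s := b ^ (2 * M + K) with hs
  set tt := T (b ^ (2 * (M + K) + 1)) with htt
  -- bounds for the levels
  have hexp : ε1 * (2 * (M + K) + 1 : ℕ) ≤ min ε (1 / 2) * M := by
    have h1 : ((2 * (M + K) + 1 : ℕ) : ℝ) ≤ 8 * M := by
      have : 2 * (M + K) + 1 ≤ 8 * M := by omega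
      exact_mod_cast this
    have h2 : 0 ≤ min ε (1 / 2) := (lt_min hε (by norm_num)).le
    calc ε1 * (2 * (M + K) + 1 : ℕ) ≤ ε1 * (8 * M) := mul_le_mul_of_nonneg_left h1 hε1pos.le
      _ = min ε (1 / 2) * M := by rw [hε1]; ring
  have htt1 : (tt : ℝ) ≤ (b : ℝ) ^ (min ε (1 / 2) * M) := by
    refine hL3.trans ?_
    push_cast
    rw [← Real.rpow_natCast (b : ℝ) (2 * (M + K) + 1), ← Real.rpow_mul hb0.le]
    refine Real.rpow_le_rpow_of_exponent_le hb1.le ?_
    rw [mul_comm]
    exact hexp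
  have htt2 : (tt : ℝ) ≤ (b : ℝ) ^ (ε * M) := htt1.trans
    (Real.rpow_le_rpow_of_exponent_le hb1.le
      (mul_le_mul_of_nonneg_right (min_le_left _ _) (by linarith)))
  have htt3 : (tt : ℝ) ≤ (b : ℝ) ^ (1 / 2 * (M : ℝ)) := htt1.trans
    (Real.rpow_le_rpow_of_exponent_le hb1.le
      (mul_le_mul_of_nonneg_right (min_le_right _ _) (by linarith)))
  have hWtt : W tt ≤ 2 * CW * b * M := by
    have hbt : b ≤ tt := hL2.trans (hT (Nat.pow_le_pow_right (by omega) (by omega)))
    have htt0 : (0 : ℝ) < tt := by exact_mod_cast (by omega : 0 < tt)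
    have h4 : (tt : ℝ) ≤ (b : ℝ) ^ M := by
      refine htt3.trans ?_
      rw [← Real.rpow_natCast (b : ℝ) M]
      exact Real.rpow_le_rpow_of_exponent_le hb1.le (by linarith)
    have hlog : Real.log tt ≤ b * M := by
      have h1 : Real.log tt ≤ Real.log ((b : ℝ) ^ M) := Real.log_le_log htt0 h4
      rw [Real.log_pow] at h1
      have h2 : Real.log b ≤ b := (Real.log_le_sub_one_of_pos hb0).trans (by linarith)
      calc Real.log tt ≤ M * Real.log b := h1
        _ ≤ M * b := mul_le_mul_of_nonneg_left h2 (by linarith)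
        _ = b * M := mul_comm _ _
    refine (hW tt).trans ?_
    have h1 : (1 : ℝ) ≤ b * M := by
      calc (1 : ℝ) = 1 * 1 := (one_mul 1).symm
        _ ≤ b * M := mul_le_mul hb1.le hMR zero_le_one hb0.le
    have h2 : CW * Real.log tt ≤ CW * (b * M) := mul_le_mul_of_nonneg_left hlog hCW.le
    have h3 : CW * 1 ≤ CW * (b * M) := mul_le_mul_of_nonneg_left h1 hCW.le
    linarith
  set B0 : ℝ := (b : ℝ) ^ M * (b / b.totient) with hB0
  have hB0pos : 0 < B0 := by positivity
  have hB0le : B0 ≤ (b : ℝ) ^ M * b := by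
    refine mul_le_mul_of_nonneg_left ?_ (by positivity)
    exact div_le_self hb0.le htot1
  set F : ℕ × (Fin K → Fin b) → ℝ := fun x => ∑ i : Fin M → Fin b, fT T (vv b x.1 M K x.2 i)
    with hF
  set Λ : Finset ℕ := (Icc 1 (b - 1)).filter (fun l => l.Coprime b) with hΛ
  set big : ℝ := (b : ℝ) ^ M * (2 * CW * b * M + b) with hbig
  have hTle : ∀ l, 1 ≤ l → l < b → ∀ (o : Fin K → Fin b) (i : Fin M → Fin b),
      b ≤ T (vv b l M K o i) ∧ T (vv b l M K o i) ≤ tt := by
    intro l h1 h2 o i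
    obtain ⟨h3, h4⟩ := vv_lt (b := b) (by omega) h1 h2 hM1 o i
    exact ⟨hL2.trans (hT h3), hT h4.le⟩
  -- one block
  have hone : ∀ x ∈ Λ ×ˢ (univ : Finset (Fin K → Fin b)), |F x - B0| ≤
      δ / 2 * B0 + (if T (top b x.1 K x.2 * s) ≠ T ((top b x.1 K x.2 + 1) * s) then big else 0) := by
    rintro ⟨l, o⟩ hx
    have hx1 := (mem_product.1 hx).1
    rw [hΛ, mem_filter, mem_Icc] at hx1
    obtain ⟨⟨hl1, hl2⟩, hlb⟩ := hx1
    simp only at hl1 hl2 hlb
    have hl : l < b := by omega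
    show |F (l, o) - B0| ≤ δ / 2 * B0 +
      (if T (top b l K o * s) ≠ T ((top b l K o + 1) * s) then big else 0)
    by_cases hbad : T (top b l K o * s) ≠ T ((top b l K o + 1) * s)
    · rw [if_pos hbad]
      have h1 : 0 ≤ F (l, o) := sum_nonneg fun _ _ => fT_nonneg _ _
      have h2 : F (l, o) ≤ (b : ℝ) ^ M * (2 * CW * b * M) := by
        calc F (l, o) ≤ ∑ _i : Fin M → Fin b, (2 * CW * b * M : ℝ) := by
              refine sum_le_sum fun i _ => ?_
              have h3 : fT T (vv b l M K o i) ≤ W (T (vv b l M K o i)) := by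
                unfold fT
                split_ifs
                · exact le_rfl
                · exact (W_pos _).le
              exact h3.trans ((W_mono (hTle l hl1 hl o i).2).trans hWtt)
          _ = (b : ℝ) ^ M * (2 * CW * b * M) := by
              rw [sum_const, card_univ, Fintype.card_fun, Fintype.card_fin, Fintype.card_fin,
                nsmul_eq_mul]
              push_cast
              ring
      have h4 : 0 ≤ δ / 2 * B0 := by positivity
      rw [abs_le]
      constructor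
      · rw [hbig]
        have : 0 ≤ (b : ℝ) ^ M * (2 * CW * b * M) := by positivity
        linarith
      · rw [hbig]
        have : 0 ≤ (b : ℝ) ^ M * b := by positivity
        linarith
    · rw [if_neg hbad, add_zero]
      push Not at hbad
      set t := T (top b l K o * s) with ht
      have hTt : ∀ i : Fin M → Fin b, T (vv b l M K o i) = t := by
        intro i
        obtain ⟨h3, h4⟩ := vv_mem (b := b) (by omega) hl hM1 o i
        refine le_antisymm ?_ (hT h3)
        rw [hbad]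
        exact hT h4
      have hbt : b ≤ t := by
        refine hL2.trans (hT ?_)
        have h3 : b ^ K ≤ top b l K o := by
          unfold top
          have : 1 * b ^ K ≤ l * b ^ K := Nat.mul_le_mul_right _ hl1
          omega
        calc b ^ (2 * (M + K)) = b ^ K * s := by rw [hs, ← pow_add]; congr 1; ring
          _ ≤ top b l K o * s := Nat.mul_le_mul_right _ h3
      have htle : (t : ℝ) ≤ (b : ℝ) ^ (ε * M) := by
        refine le_trans ?_ htt2
        have h3 : t ≤ tt := by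
          rw [← hTt (fun _ => ⟨0, by omega⟩)]
          exact (hTle l hl1 hl o _).2
        exact_mod_cast h3
      have h1 := hL1 K l t o hl hlb hbt htle
      have hWp := W_pos t
      have h2 : F (l, o) = W t * (((univ : Finset (Fin M → Fin b)).filter
          (fun i => ∀ p, p.Prime → p ≤ t → ¬ p ∣ vv b l M K o i)).card : ℝ) := by
        rw [hF]
        simp only
        rw [← Finset.sum_boole, mul_sum]
        refine sum_congr rfl fun i _ => ?_
        unfold fT
        rw [hTt i, mul_ite, mul_one, mul_zero]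
      have h3 : B0 = W t * ((b : ℝ) ^ M * (b / (b.totient * W t))) := by
        rw [hB0]
        field_simp
      rw [h2, h3, ← mul_sub, abs_mul, abs_of_pos hWp]
      calc W t * |(((univ : Finset (Fin M → Fin b)).filter
          (fun i => ∀ p, p.Prime → p ≤ t → ¬ p ∣ vv b l M K o i)).card : ℝ) -
            (b : ℝ) ^ M * (b / (b.totient * W t))| ≤
          W t * (δ / 2 * ((b : ℝ) ^ M * (b / (b.totient * W t)))) :=
            mul_le_mul_of_nonneg_left h1 hWp.le
        _ = _ := by ring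
  -- the sum
  have hsum : ∑ n ∈ palin b (M + K), fT T n = ∑ x ∈ Λ ×ˢ (univ : Finset (Fin K → Fin b)), F x := by
    rw [sum_palin (by omega) M K hM1, sum_product, hΛ, sum_filter]
    refine sum_congr rfl fun l hl => ?_
    rw [mem_Icc] at hl
    split_ifs with hlb
    · rfl
    · refine sum_eq_zero fun o _ => sum_eq_zero fun i _ => ?_
      exact fT_zero hb hM1 hlb T o i (hTle l hl.1 (by omega) o i).1
  have hcard : ((Λ ×ˢ (univ : Finset (Fin K → Fin b))).card : ℝ) = b.totient * (b : ℝ) ^ K := by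
    rw [card_product, hΛ, card_lead (by omega), card_univ, Fintype.card_fun, Fintype.card_fin,
      Fintype.card_fin]
    push_cast
    rfl
  have hmain : (b : ℝ) ^ (M + K + 1) = ∑ _x ∈ Λ ×ˢ (univ : Finset (Fin K → Fin b)), B0 := by
    rw [sum_const, nsmul_eq_mul, hcard, hB0, pow_succ, pow_add]
    field_simp
  have hbadc : (((Λ ×ˢ (univ : Finset (Fin K → Fin b))).filter (fun x =>
      T (top b x.1 K x.2 * s) ≠ T ((top b x.1 K x.2 + 1) * s))).card : ℝ) ≤ tt := by
    have := few_bad (b := b) T hT M K Λ (fun l hl => by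
      have := (mem_Icc.1 (mem_filter.1 hl).1).2
      omega)
    exact_mod_cast this
  have hbig2 : (tt : ℝ) * big ≤ δ / 2 * (b : ℝ) ^ (M + K + 1) := by
    have h1 : (2 : ℝ) ^ M ≤ (b : ℝ) ^ (1 / 2 * (M : ℝ)) := by
      have h2 : (2 : ℝ) ^ M = (4 : ℝ) ^ (1 / 2 * (M : ℝ)) := by
        rw [Real.rpow_mul (by norm_num), ← Real.sqrt_eq_rpow, show (4 : ℝ) = 2 ^ 2 by norm_num,
          Real.sqrt_sq (by norm_num), Real.rpow_natCast]
      rw [h2]
      exact Real.rpow_le_rpow (by norm_num) hbR (by positivity)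
    have h3 : big ≤ (b : ℝ) ^ M * (δ / 2 * (b : ℝ) ^ (1 / 2 * (M : ℝ))) := by
      rw [hbig]
      refine mul_le_mul_of_nonneg_left (hL4.trans ?_) (by positivity)
      exact mul_le_mul_of_nonneg_left h1 (by positivity)
    calc (tt : ℝ) * big ≤ (b : ℝ) ^ (1 / 2 * (M : ℝ)) *
          ((b : ℝ) ^ M * (δ / 2 * (b : ℝ) ^ (1 / 2 * (M : ℝ)))) :=
          mul_le_mul htt3 h3 (by positivity) (by positivity)
      _ = δ / 2 * ((b : ℝ) ^ M * ((b : ℝ) ^ (1 / 2 * (M : ℝ)) * (b : ℝ) ^ (1 / 2 * (M : ℝ)))) := by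
          ring
      _ = δ / 2 * (b : ℝ) ^ (2 * M) := by
          rw [← Real.rpow_add hb0, show 1 / 2 * (M : ℝ) + 1 / 2 * (M : ℝ) = M by ring,
            Real.rpow_natCast, ← pow_add]
          congr 2
          ring
      _ ≤ δ / 2 * (b : ℝ) ^ (M + K + 1) := by
          refine mul_le_mul_of_nonneg_left ?_ (by positivity)
          exact pow_le_pow_right₀ hb1.le (by omega)
  rw [hsum, hmain, ← sum_sub_distrib]
  refine (abs_sum_le_sum_abs _ _).trans ((sum_le_sum hone).trans ?_)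
  rw [sum_add_distrib, ← mul_sum, ← hmain, ← sum_filter, sum_const, nsmul_eq_mul]
  have hbig0 : 0 ≤ big := by
    rw [hbig]
    positivity
  have h5 := mul_le_mul_of_nonneg_right hbadc hbig0
  calc _ ≤ δ / 2 * (b : ℝ) ^ (M + K + 1) + δ / 2 * (b : ℝ) ^ (M + K + 1) :=
        add_le_add le_rfl (h5.trans hbig2)
    _ = _ := by ring

end Pool.Agent.U668.PA
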