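import Pool.Agent.U668.PA.Mean2
import Pool.Agent.U741.HT.CHE
import Pool.Agent.U373.HT.COL
import Pool.Agent.H39R3.PB.Final
import Pool.Agent.H944R3.PB_T1
import Pool.Agent.H830R3.PB.T2
import Pool.Agent.H124R3.PB_T4
import Pool.Agent.H581R3.PBTaskPB
import Pool.Agent.H512R3.PB_T6
import Pool.Agent.H885R3.PB_T7
import Pool.Agent.H623R3.PBT8

/-!
# Palindromes in sieved random models of the primes
-/

set_option autoImplicit false

namespace Pool.Agent.U668.PA

open Finset Filter Topology MeasureTheory ProbabilityTheory Pool.Agent.H39R3.PB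
  Pool.Agent.H181R5.PBT9 Pool.Agent.U485.SM

variable {b : ℕ}

theorem bvB_all (hb : 3 ≤ b) : BVB b :=
  Pool.Agent.H39R3.PB.bvB Pool.Agent.H944R3.PB.taskT1 Pool.Agent.H830R3.PB.T2.taskT2
    Pool.Agent.H124R3.PBT4.taskT4 Pool.Agent.H581R3.PB.taskPB Pool.Agent.H512R3.PBT6.taskT6
    Pool.Agent.H885R3.PBT7.taskT7 Pool.Agent.H623R3.PBT8.taskT8 hb

open Classical in
/-- the number of the chosen palindromes with `2 L + 1` digits -/
noncomputable def nch {Ω : Type} (E : ℕ → Set Ω) (b L : ℕ) (ω : Ω) : ℝ :=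
  (((palin b L).filter (fun n => ω ∈ E n)).card : ℝ)

open Classical in
/-- deviations of the number of the chosen palindromes -/
theorem dev {Ω : Type} {mΩ : MeasurableSpace Ω} (μ : Measure Ω) (hμ : IsProbabilityMeasure μ)
    (E : ℕ → Set Ω) (hE : ∀ n, MeasurableSet (E n)) (hI : iIndepSet E μ) (b L : ℕ) (ε : ℝ)
    (hε : 0 < ε) (hε1 : ε ≤ 1) :
    μ.real {ω | 2 * ε * ∑ n ∈ palin b L, μ.real (E n) <
      |nch E b L ω - ∑ n ∈ palin b L, μ.real (E n)|} ≤
      2 * Real.exp (-(ε ^ 2 * (∑ n ∈ palin b L, μ.real (E n)) / 2)) := by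
  have hM0 : 0 ≤ ∑ n ∈ palin b L, μ.real (E n) := sum_nonneg fun _ _ => measureReal_nonneg
  have hD : ∀ n ∈ (palin b L).image (fun n : ℕ => (n : ℤ)),
      {m : ℤ | m ∈ (palin b L).image (fun n : ℕ => (n : ℤ)) ∧ m ≠ n ∧
          ¬ Disjoint ((fun n : ℤ => ({n.toNat} : Finset ℕ)) n)
            ((fun n : ℤ => ({n.toNat} : Finset ℕ)) m)}.ncard ≤ 0 := by
    intro n hn
    have h1 : {m : ℤ | m ∈ (palin b L).image (fun n : ℕ => (n : ℤ)) ∧ m ≠ n ∧
          ¬ Disjoint ((fun n : ℤ => ({n.toNat} : Finset ℕ)) n)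
            ((fun n : ℤ => ({n.toNat} : Finset ℕ)) m)} = ∅ := by
      rw [Set.eq_empty_iff_forall_notMem]
      rintro m ⟨hm, hmn, hd⟩
      simp only [Finset.disjoint_singleton, not_not] at hd
      rw [mem_image] at hn hm
      obtain ⟨n', _, rfl⟩ := hn
      obtain ⟨m', _, rfl⟩ := hm
      simp only [Int.toNat_natCast] at hd
      exact hmn (by rw [hd])
    rw [h1, Set.ncard_empty]
  have h := Pool.Agent.U741.HT.t_CHE Pool.Agent.U373.HT.COL.t_COL Ω mΩ μ hμ E hE hI
    ((palin b L).image (fun n : ℕ => (n : ℤ))) (fun n : ℤ => ({n.toNat} : Finset ℕ)) 0 hD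
    ε (ε * ∑ n ∈ palin b L, μ.real (E n)) hε hε1 (mul_nonneg hε.le hM0)
  have hinj : Set.InjOn (fun n : ℕ => (n : ℤ)) (palin b L) := fun x _ y _ hxy =>
    Int.ofNat_inj.1 hxy
  have hs : ∑ n ∈ (palin b L).image (fun n : ℕ => (n : ℤ)), ∏ j ∈ ({n.toNat} : Finset ℕ),
      μ.real (E j) = ∑ n ∈ palin b L, μ.real (E n) := by
    rw [sum_image hinj]
    refine sum_congr rfl fun n _ => ?_
    rw [Finset.prod_singleton, Int.toNat_natCast]
  have hc : ∀ ω, ((((palin b L).image (fun n : ℕ => (n : ℤ))).filter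
      (fun n => ∀ j ∈ ({n.toNat} : Finset ℕ), ω ∈ E j)).card : ℝ) = nch E b L ω := by
    intro ω
    rw [nch, filter_image, card_image_of_injOn (fun x _ y _ hxy => Int.ofNat_inj.1 hxy)]
    congr 2
    apply filter_congr
    intro n _
    simp only [Finset.mem_singleton, forall_eq, Int.toNat_natCast]
  simp only [hs, hc] at h
  have e : {ω | 2 * ε * ∑ n ∈ palin b L, μ.real (E n) <
      |nch E b L ω - ∑ n ∈ palin b L, μ.real (E n)|} =
      {ω | ε * ∑ n ∈ palin b L, μ.real (E n) + ((0 : ℕ) + 1 : ℝ) *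
        (ε * ∑ n ∈ palin b L, μ.real (E n)) <
      |nch E b L ω - ∑ n ∈ palin b L, μ.real (E n)|} := by
    ext ω
    rw [Set.mem_ofPred_eq, Set.mem_ofPred_eq]
    have : ε * ∑ n ∈ palin b L, μ.real (E n) + ((0 : ℕ) + 1 : ℝ) *
        (ε * ∑ n ∈ palin b L, μ.real (E n)) = 2 * ε * ∑ n ∈ palin b L, μ.real (E n) := by
      push_cast
      ring
    rw [this]
  rw [e]
  refine h.trans (le_of_eq ?_)
  push_cast
  ring_nf

/-- the mean number of the chosen palindromes -/
theorem mean_chosen {Ω : Type} {mΩ : MeasurableSpace Ω} (μ : Measure Ω)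
    (E : ℕ → Set Ω) (hb : 4 ≤ b) (he : 2 ∣ b) (T : ℕ → ℕ) (hT : Monotone T)
    (hTb : ∀ᶠ n : ℕ in atTop, b ≤ T n)
    (hTs : ∀ ε : ℝ, 0 < ε → ∀ᶠ n : ℕ in atTop, (T n : ℝ) ≤ (n : ℝ) ^ ε)
    (hp : ∀ᶠ n : ℕ in atTop, μ.real (E n) = fT T n / Real.log n) :
    Tendsto (fun L : ℕ => (∑ n ∈ palin b L, μ.real (E n)) *
      ((2 * L * Real.log b) / (b : ℝ) ^ (L + 1))) atTop (𝓝 1) := by
  have hbR : (4 : ℝ) ≤ b := by exact_mod_cast hb
  have hb0 : (0 : ℝ) < b := by linarith
  have hb1 : (1 : ℝ) < b := by linarith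
  have hlog : 0 < Real.log b := Real.log_pos hb1
  have h1 : Tendsto (fun L : ℕ => (∑ n ∈ palin b L, fT T n) / (b : ℝ) ^ (L + 1)) atTop (𝓝 1) := by
    rw [Metric.tendsto_atTop']
    intro δ hδ
    obtain ⟨N, hN⟩ := eventually_atTop.1 (mean hb he (bvB_all (by omega)) T hT hTb hTs (δ / 2)
      (half_pos hδ))
    refine ⟨N, fun L hL => ?_⟩
    have h2 := hN L hL.le
    have h3 : (0 : ℝ) < (b : ℝ) ^ (L + 1) := by positivity
    rw [Real.dist_eq]
    have h4 : (∑ n ∈ palin b L, fT T n) / (b : ℝ) ^ (L + 1) - 1 =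
        (∑ n ∈ palin b L, fT T n - (b : ℝ) ^ (L + 1)) / (b : ℝ) ^ (L + 1) := by
      rw [sub_div, div_self h3.ne']
    rw [h4, abs_div, abs_of_pos h3, div_lt_iff₀ h3]
    have h5 : δ / 2 * (b : ℝ) ^ (L + 1) < δ * (b : ℝ) ^ (L + 1) := by
      refine mul_lt_mul_of_pos_right ?_ h3
      linarith
    linarith
  have h2 : Tendsto (fun L : ℕ => (∑ n ∈ palin b L, fT T n) / (b : ℝ) ^ (L + 1) *
      ((2 * (L : ℝ)) / (2 * L + 1))) atTop (𝓝 (1 * 1)) := by
    refine h1.mul ?_
    have h3 : Tendsto (fun L : ℕ => 1 - 1 / (2 * (L : ℝ) + 1)) atTop (𝓝 (1 - 0)) := by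
      refine tendsto_const_nhds.sub ?_
      refine Tendsto.const_div_atTop ?_ 1
      exact tendsto_atTop_add_const_right _ _
        (tendsto_natCast_atTop_atTop.const_mul_atTop (by norm_num))
    rw [sub_zero] at h3
    refine h3.congr fun L => ?_
    have : (0 : ℝ) < 2 * L + 1 := by positivity
    field_simp
    ring
  rw [mul_one] at h2
  obtain ⟨n0, hn0⟩ := eventually_atTop.1 hp
  have hblim : Tendsto (fun L : ℕ => b ^ (2 * L)) atTop atTop :=
    (tendsto_pow_atTop_atTop_of_one_lt (by omega : 1 < b)).comp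
      (tendsto_atTop_atTop.2 fun n => ⟨n, fun L hL => by omega⟩)
  have hrange : ∀ L : ℕ, ∀ n ∈ palin b L, b ^ (2 * L) ≤ n ∧ n < b ^ (2 * L + 1) := by
    intro L n hn
    rw [palin, mem_filter, mem_range] at hn
    exact ⟨hn.2.1, hn.1⟩
  refine tendsto_of_tendsto_of_tendsto_of_le_of_le' h2 h1 ?_ ?_
  · filter_upwards [hblim.eventually_ge_atTop n0, eventually_ge_atTop 1] with L hL hL1
    have hL0 : (0 : ℝ) < L := by exact_mod_cast hL1
    have h3 : (∑ n ∈ palin b L, fT T n) / ((2 * L + 1) * Real.log b) ≤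
        ∑ n ∈ palin b L, μ.real (E n) := by
      rw [sum_div]
      refine sum_le_sum fun n hn => ?_
      obtain ⟨h4, h5⟩ := hrange L n hn
      rw [hn0 n (hL.trans h4)]
      have h6 : (1 : ℝ) < n := by
        have : b ^ (2 * 1) ≤ b ^ (2 * L) := Nat.pow_le_pow_right (by omega) (by omega)
        have : 4 ^ (2 * 1) ≤ b ^ (2 * 1) := Nat.pow_le_pow_left hb _
        exact_mod_cast (by omega : 1 < n)
      refine div_le_div_of_nonneg_left (fT_nonneg T n) (Real.log_pos h6) ?_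
      have h7 : Real.log n ≤ Real.log ((b : ℝ) ^ (2 * L + 1)) :=
        Real.log_le_log (by linarith) (by exact_mod_cast h5.le)
      rw [Real.log_pow] at h7
      push_cast at h7
      exact h7
    have h8 : (∑ n ∈ palin b L, fT T n) / (b : ℝ) ^ (L + 1) * ((2 * (L : ℝ)) / (2 * L + 1)) =
        (∑ n ∈ palin b L, fT T n) / ((2 * L + 1) * Real.log b) *
          ((2 * L * Real.log b) / (b : ℝ) ^ (L + 1)) := by
      field_simp
    rw [h8]
    exact mul_le_mul_of_nonneg_right h3 (by positivity)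
  · filter_upwards [hblim.eventually_ge_atTop n0, eventually_ge_atTop 1] with L hL hL1
    have hL0 : (0 : ℝ) < L := by exact_mod_cast hL1
    have h3 : ∑ n ∈ palin b L, μ.real (E n) ≤
        (∑ n ∈ palin b L, fT T n) / (2 * L * Real.log b) := by
      rw [sum_div]
      refine sum_le_sum fun n hn => ?_
      obtain ⟨h4, h5⟩ := hrange L n hn
      rw [hn0 n (hL.trans h4)]
      refine div_le_div_of_nonneg_left (fT_nonneg T n) (by positivity) ?_
      have h7 : Real.log ((b : ℝ) ^ (2 * L)) ≤ Real.log n :=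
        Real.log_le_log (by positivity) (by exact_mod_cast h4)
      rw [Real.log_pow] at h7
      push_cast at h7
      exact h7
    have h8 : (∑ n ∈ palin b L, fT T n) / (b : ℝ) ^ (L + 1) =
        (∑ n ∈ palin b L, fT T n) / (2 * L * Real.log b) *
          ((2 * L * Real.log b) / (b : ℝ) ^ (L + 1)) := by
      field_simp
    rw [h8]
    exact mul_le_mul_of_nonneg_right h3 (by positivity)

/-- **Palindromes in sieved random models.** -/
theorem chosen {Ω : Type} {mΩ : MeasurableSpace Ω} (μ : Measure Ω) (hμ : IsProbabilityMeasure μ)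
    (E : ℕ → Set Ω) (hE : ∀ n, MeasurableSet (E n)) (hI : iIndepSet E μ)
    (hb : 4 ≤ b) (he : 2 ∣ b) (T : ℕ → ℕ) (hT : Monotone T)
    (hTb : ∀ᶠ n : ℕ in atTop, b ≤ T n)
    (hTs : ∀ ε : ℝ, 0 < ε → ∀ᶠ n : ℕ in atTop, (T n : ℝ) ≤ (n : ℝ) ^ ε)
    (hp : ∀ᶠ n : ℕ in atTop, μ.real (E n) = fT T n / Real.log n) :
    ∀ᵐ ω ∂μ, Tendsto (fun L : ℕ => nch E b L ω *
      ((2 * L * Real.log b) / (b : ℝ) ^ (L + 1))) atTop (𝓝 1) := by
  have hbR : (4 : ℝ) ≤ b := by exact_mod_cast hb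
  have hb0 : (0 : ℝ) < b := by linarith
  have hb1 : (1 : ℝ) < b := by linarith
  have hlog : 0 < Real.log b := Real.log_pos hb1
  have hmean := mean_chosen μ E hb he T hT hTb hTs hp
  set mm : ℕ → ℝ := fun L => ∑ n ∈ palin b L, μ.real (E n) with hmm
  have hmm0 : ∀ L, 0 ≤ mm L := fun L => sum_nonneg fun _ _ => measureReal_nonneg
  -- the mean is at least `L`
  have hbig : ∀ᶠ L : ℕ in atTop, (L : ℝ) ≤ mm L := by
    have h1 : Tendsto (fun n : ℕ => (4 * Real.log b) * ((n : ℝ) ^ 2 / (b : ℝ) ^ n)) atTop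
        (𝓝 ((4 * Real.log b) * 0)) :=
      (tendsto_pow_const_div_const_pow_of_one_lt 2 hb1).const_mul _
    rw [mul_zero] at h1
    filter_upwards [h1.eventually_lt_const one_pos,
      hmean.eventually_const_le (show (1 / 2 : ℝ) < 1 by norm_num), eventually_ge_atTop 1]
      with L hL1 hL2 hL3
    have hL0 : (0 : ℝ) < L := by exact_mod_cast hL3
    have hbL : (0 : ℝ) < (b : ℝ) ^ L := by positivity
    rw [← mul_div_assoc, div_lt_one hbL] at hL1
    have h3 : (b : ℝ) ^ (L + 1) / (2 * L * Real.log b) / 2 ≤ mm L := by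
      have h4 : (0 : ℝ) < 2 * L * Real.log b := by positivity
      have h5 : (0 : ℝ) < (b : ℝ) ^ (L + 1) := by positivity
      rw [← mul_div_assoc, le_div_iff₀ h5] at hL2
      rw [div_div, div_le_iff₀ (by positivity)]
      have : mm L * (2 * L * Real.log b * 2) = 2 * (mm L * (2 * L * Real.log b)) := by ring
      rw [this]
      linarith
    refine le_trans ?_ h3
    rw [div_div, le_div_iff₀ (by positivity)]
    calc (L : ℝ) * (2 * L * Real.log b * 2) = 4 * Real.log b * (L : ℝ) ^ 2 := by ring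
      _ ≤ (b : ℝ) ^ L := hL1.le
      _ ≤ (b : ℝ) ^ (L + 1) := pow_le_pow_right₀ hb1.le (Nat.le_succ L)
  have key : ∀ m : ℕ, ∀ᵐ ω ∂μ, ∀ᶠ L : ℕ in atTop,
      |nch E b L ω - mm L| ≤ 2 * (1 / ((m : ℝ) + 1)) * mm L := by
    intro m
    set ε : ℝ := 1 / ((m : ℝ) + 1) with hε
    have hε0 : 0 < ε := by positivity
    have hε1 : ε ≤ 1 := by
      rw [hε, div_le_one (by positivity)]
      linarith [Nat.cast_nonneg (α := ℝ) m]
    have hsum : Summable fun L : ℕ => μ.real {ω | 2 * ε * mm L < |nch E b L ω - mm L|} := by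
      have hg : Summable fun L : ℕ => 2 * Real.exp (-(ε ^ 2 / 2)) ^ L := by
        refine Summable.mul_left 2 (summable_geometric_of_lt_one (Real.exp_pos _).le ?_)
        rw [Real.exp_lt_one_iff]
        have : 0 < ε ^ 2 / 2 := by positivity
        linarith
      refine Summable.of_norm_bounded_eventually_nat hg ?_
      filter_upwards [hbig] with L hL
      rw [Real.norm_of_nonneg measureReal_nonneg]
      refine (dev μ hμ E hE hI b L ε hε0 hε1).trans ?_
      rw [← Real.exp_nat_mul]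
      refine mul_le_mul_of_nonneg_left ?_ (by norm_num)
      apply Real.exp_le_exp.2
      have h1 : ε ^ 2 * (L : ℝ) ≤ ε ^ 2 * mm L := mul_le_mul_of_nonneg_left hL (by positivity)
      have h2 : (L : ℝ) * -(ε ^ 2 / 2) = -(ε ^ 2 * L / 2) := by ring
      rw [h2]
      have h3 : ε ^ 2 * ∑ n ∈ palin b L, μ.real (E n) = ε ^ 2 * mm L := rfl
      rw [h3]
      linarith
    have hne : ∑' L : ℕ, μ {ω | 2 * ε * mm L < |nch E b L ω - mm L|} ≠ ⊤ := by
      have h2 : ∑' L : ℕ, μ {ω | 2 * ε * mm L < |nch E b L ω - mm L|} =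
          ∑' L : ℕ, ENNReal.ofReal (μ.real {ω | 2 * ε * mm L < |nch E b L ω - mm L|}) :=
        tsum_congr fun x => (ofReal_measureReal (measure_ne_top μ _)).symm
      rw [h2]
      exact hsum.tsum_ofReal_ne_top
    filter_upwards [ae_eventually_notMem hne] with ω hω
    filter_upwards [hω] with L hL
    by_contra hcon
    push Not at hcon
    exact hL hcon
  filter_upwards [ae_all_iff.2 key] with ω hω
  have h1 : Tendsto (fun L : ℕ => (nch E b L ω - mm L) / mm L) atTop (𝓝 0) := by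
    rw [Metric.tendsto_atTop']
    intro δ hδ
    obtain ⟨m, hm⟩ := exists_nat_one_div_lt (show (0 : ℝ) < δ / 2 by positivity)
    obtain ⟨N, hN⟩ := eventually_atTop.1 ((hω m).and (hbig.and (eventually_ge_atTop 1)))
    refine ⟨N, fun L hL => ?_⟩
    obtain ⟨h2, h3, h4⟩ := hN L hL.le
    have h5 : (0 : ℝ) < mm L := lt_of_lt_of_le (by exact_mod_cast h4) h3
    rw [Real.dist_eq, sub_zero, abs_div, abs_of_pos h5, div_lt_iff₀ h5]
    refine lt_of_le_of_lt h2 (mul_lt_mul_of_pos_right ?_ h5)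
    linarith
  have h2 : Tendsto (fun L : ℕ => ((nch E b L ω - mm L) / mm L + 1) *
      (mm L * ((2 * L * Real.log b) / (b : ℝ) ^ (L + 1)))) atTop (𝓝 ((0 + 1) * 1)) :=
    (h1.add_const 1).mul hmean
  rw [zero_add, one_mul] at h2
  refine h2.congr' ?_
  filter_upwards [hbig, eventually_ge_atTop 1] with L h3 h4
  have h5 : mm L ≠ 0 := (lt_of_lt_of_le (by exact_mod_cast h4) h3).ne'
  rw [← mul_assoc, add_mul, div_mul_cancel₀ _ h5, one_mul, sub_add_cancel]

end Pool.Agent.U668.PA
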