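import Pool.Agent.U668.PA.Win

/-!
# The sum of the weights of the sieve over the palindromes with prescribed leading digits, II
-/

set_option autoImplicit false

namespace Pool.Agent.U668.PA

open Finset Filter Topology Pool.Agent.H39R3.PB Pool.Agent.H181R5.PBT9 Pool.Agent.U485.SM

variable {b : ℕ}

/-- **Palindromes with prescribed leading digits, monotone sieve levels.** -/
theorem wmean (hb : 4 ≤ b) (he : 2 ∣ b) (hBV : BVB b) (T : ℕ → ℕ) (hT : Monotone T)
    (hTb : ∀ᶠ n : ℕ in atTop, b ≤ T n)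
    (hTs : ∀ ε : ℝ, 0 < ε → ∀ᶠ n : ℕ in atTop, (T n : ℝ) ≤ (n : ℝ) ^ ε) (θ : ℝ) (hθ : θ < 1)
    (δ : ℝ) (hδ : 0 < δ) :
    ∀ᶠ L : ℕ in atTop, ∀ K0 : ℕ, (K0 : ℝ) ≤ θ * L → ∀ w : ℕ, b ^ K0 ≤ w → w < b ^ (K0 + 1) →
      (w / b ^ K0).Coprime b →
      |∑ n ∈ (palin b L).filter (fun n => n / b ^ (2 * L - K0) = w), fT T n -
        (b : ℝ) ^ (L - K0) * (b / b.totient)| ≤ δ * ((b : ℝ) ^ (L - K0) * (b / b.totient)) := by
  classical
  obtain ⟨ε, hε, hblk⟩ := block hb he hBV (δ / 2) (half_pos hδ)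
  obtain ⟨CW, hCW, hW⟩ := Pool.Agent.U333.HT.t_WBD
  have hbR : (4 : ℝ) ≤ b := by exact_mod_cast hb
  have hb0 : (0 : ℝ) < b := by linarith
  have hb1 : (1 : ℝ) < b := by linarith
  have htot0 : 0 < b.totient := Nat.totient_pos.2 (by omega)
  have htot : (0 : ℝ) < b.totient := by exact_mod_cast htot0
  have htot1 : (1 : ℝ) ≤ b.totient := by exact_mod_cast htot0
  have hθ1 : 0 < 1 - θ := by linarith
  set ε1 : ℝ := min ε (1 / 2) * (1 - θ) / 12 with hε1
  have hmin0 : 0 < min ε (1 / 2) := lt_min hε (by norm_num)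
  have hε1pos : 0 < ε1 := by positivity
  have hblim : Tendsto (fun L : ℕ => b ^ (2 * L)) atTop atTop :=
    (tendsto_pow_atTop_atTop_of_one_lt (by omega : 1 < b)).comp
      (tendsto_atTop_atTop.2 fun n => ⟨n, fun L hL => by omega⟩)
  have hblim2 : Tendsto (fun L : ℕ => b ^ (2 * L + 1)) atTop atTop :=
    (tendsto_pow_atTop_atTop_of_one_lt (by omega : 1 < b)).comp
      (tendsto_atTop_atTop.2 fun n => ⟨n, fun L hL => by omega⟩)
  have hpoly : ∀ᶠ M : ℕ in atTop, 2 * CW * b * M + b ≤ δ / (2 * b) * 2 ^ M := by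
    have h1 : Tendsto (fun n : ℕ => (2 * CW * b) * ((n : ℝ) ^ 1 / (2 : ℝ) ^ n) +
        b * ((n : ℝ) ^ 0 / (2 : ℝ) ^ n)) atTop (𝓝 ((2 * CW * b) * 0 + b * 0)) :=
      ((tendsto_pow_const_div_const_pow_of_one_lt 1 (by norm_num : (1 : ℝ) < 2)).const_mul _).add
        ((tendsto_pow_const_div_const_pow_of_one_lt 0 (by norm_num : (1 : ℝ) < 2)).const_mul _)
    rw [mul_zero, mul_zero, add_zero] at h1
    filter_upwards [h1.eventually_lt_const (show 0 < δ / (2 * b) by positivity)] with n hn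
    have h2 : (0 : ℝ) < 2 ^ n := by positivity
    rw [pow_one, pow_zero, ← mul_div_assoc, mul_one_div, ← add_div, div_lt_iff₀ h2] at hn
    exact hn.le
  obtain ⟨M1, hM1'⟩ := eventually_atTop.1 (hblk.and hpoly)
  filter_upwards [hblim.eventually hTb, hblim2.eventually (hTs ε1 hε1pos),
    eventually_ge_atTop ⌈2 * (M1 + 2 : ℝ) / (1 - θ)⌉₊, eventually_ge_atTop 2]
    with L hL2 hL3 hL4 hL5
  intro K0 hK0 w hw1 hw2 hwb
  have hL4' : 2 * (M1 + 2 : ℝ) ≤ (1 - θ) * L := by
    have h1 := (Nat.le_ceil (2 * (M1 + 2 : ℝ) / (1 - θ))).trans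
      (by exact_mod_cast hL4 : ((⌈2 * (M1 + 2 : ℝ) / (1 - θ)⌉₊ : ℕ) : ℝ) ≤ L)
    rw [div_le_iff₀ hθ1] at h1
    linarith
  have hK0L : K0 < L := by
    have : (K0 : ℝ) < L := by
      have h1 : (0 : ℝ) ≤ M1 := Nat.cast_nonneg _
      nlinarith
    exact_mod_cast this
  obtain ⟨R, hR⟩ : ∃ R, R = L - K0 := ⟨_, rfl⟩
  obtain ⟨Kk, hKk⟩ : ∃ Kk, Kk = R / 2 := ⟨_, rfl⟩
  obtain ⟨M, hM⟩ : ∃ M, M = R - R / 2 := ⟨_, rfl⟩
  have hRR : (R : ℝ) = L - K0 := by
    rw [hR, Nat.cast_sub hK0L.le]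
  have hMR' : (1 - θ) * L / 2 ≤ M := by
    have h1 : R ≤ 2 * M := by omega
    have h2 : (R : ℝ) ≤ 2 * M := by exact_mod_cast h1
    linarith
  have hMM1 : M1 ≤ M := by
    have : (M1 : ℝ) ≤ M := by linarith
    exact_mod_cast this
  obtain ⟨hL1, hL6⟩ := hM1' M hMM1
  have hM1 : 1 ≤ M := by
    have h1 : (0 : ℝ) ≤ M1 := Nat.cast_nonneg _
    have : (1 : ℝ) ≤ M := by linarith
    exact_mod_cast this
  have hMR : (1 : ℝ) ≤ M := by exact_mod_cast hM1
  have hLMK : L = M + (Kk + K0) := by omega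
  have hexp : ε1 * (2 * L + 1 : ℕ) ≤ min ε (1 / 2) * M := by
    have h1 : ((2 * L + 1 : ℕ) : ℝ) ≤ 3 * L := by
      have : 2 * L + 1 ≤ 3 * L := by omega
      exact_mod_cast this
    calc ε1 * (2 * L + 1 : ℕ) ≤ ε1 * (3 * L) := mul_le_mul_of_nonneg_left h1 hε1pos.le
      _ = min ε (1 / 2) * ((1 - θ) * L / 4) := by rw [hε1]; ring
      _ ≤ min ε (1 / 2) * M := by
          refine mul_le_mul_of_nonneg_left ?_ hmin0.le
          have : 0 ≤ (1 - θ) * L := by positivity
          linarith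
  obtain ⟨K, hK⟩ : ∃ K, K = Kk + K0 := ⟨_, rfl⟩
  have h2LK : 2 * L - K0 = (2 * M + (Kk + K0)) + Kk := by omega
  set s := b ^ (2 * M + (Kk + K0)) with hs
  set tt := T (b ^ (2 * (M + (Kk + K0)) + 1)) with htt
  have htt1 : (tt : ℝ) ≤ (b : ℝ) ^ (min ε (1 / 2) * M) := by
    have h0 : ((T (b ^ (2 * L + 1)) : ℕ) : ℝ) ≤ (b : ℝ) ^ (min ε (1 / 2) * M) := by
      refine hL3.trans ?_
      push_cast
      rw [← Real.rpow_natCast (b : ℝ) (2 * L + 1), ← Real.rpow_mul hb0.le]
      refine Real.rpow_le_rpow_of_exponent_le hb1.le ?_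
      rw [mul_comm]
      exact hexp
    rwa [hLMK] at h0
  have htt2 : (tt : ℝ) ≤ (b : ℝ) ^ (ε * M) := htt1.trans
    (Real.rpow_le_rpow_of_exponent_le hb1.le
      (mul_le_mul_of_nonneg_right (min_le_left _ _) (by linarith)))
  have htt3 : (tt : ℝ) ≤ (b : ℝ) ^ (1 / 2 * (M : ℝ)) := htt1.trans
    (Real.rpow_le_rpow_of_exponent_le hb1.le
      (mul_le_mul_of_nonneg_right (min_le_right _ _) (by linarith)))
  rw [hLMK] at hL2
  have hWtt : W tt ≤ 2 * CW * b * M := by
    have hbt : b ≤ tt := hL2.trans (hT (Nat.pow_le_pow_right (by omega) (by omega)))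
    have htt0 : (0 : ℝ) < tt := by exact_mod_cast (by omega : 0 < tt)
    have h4 : (tt : ℝ) ≤ (b : ℝ) ^ M := by
      refine htt3.trans ?_
      rw [← Real.rpow_natCast (b : ℝ) M]
      exact Real.rpow_le_rpow_of_exponent_le hb1.le (by linarith)
    have hlog : Real.log tt ≤ b * M := by
      have h1 : Real.log tt ≤ Real.log ((b : ℝ) ^ M) := Real.log_le_log htt0 h4
      rw [Real.log_pow] at h1
      have h2 : Real.log b ≤ b := (Real.log_le_sub_one_of_pos hb0).trans (by linarith)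
      calc Real.log tt ≤ M * Real.log b := h1
        _ ≤ M * b := mul_le_mul_of_nonneg_left h2 (by linarith)
        _ = b * M := mul_comm _ _
    refine (hW tt).trans ?_
    have h1 : (1 : ℝ) ≤ b * M := by
      calc (1 : ℝ) = 1 * 1 := (one_mul 1).symm
        _ ≤ b * M := mul_le_mul hb1.le hMR zero_le_one hb0.le
    have h2 : CW * Real.log tt ≤ CW * (b * M) := mul_le_mul_of_nonneg_left hlog hCW.le
    have h3 : CW * 1 ≤ CW * (b * M) := mul_le_mul_of_nonneg_left h1 hCW.le
    linarith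
  set B0 : ℝ := (b : ℝ) ^ M * (b / b.totient) with hB0
  have hB0pos : 0 < B0 := by positivity
  have hB0le : B0 ≤ (b : ℝ) ^ M * b := by
    refine mul_le_mul_of_nonneg_left ?_ (by positivity)
    exact div_le_self hb0.le htot1
  set F : ℕ × (Fin (Kk + K0) → Fin b) → ℝ :=
    fun x => ∑ i : Fin M → Fin b, fT T (vv b x.1 M (Kk + K0) x.2 i) with hF
  set Λ : Finset (ℕ × (Fin (Kk + K0) → Fin b)) :=
    ((Icc 1 (b - 1)) ×ˢ (univ : Finset (Fin (Kk + K0) → Fin b))).filter
      (fun x => top b x.1 (Kk + K0) x.2 / b ^ Kk = w) with hΛ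
  set big : ℝ := (b : ℝ) ^ M * (2 * CW * b * M + b) with hbig
  have hTle : ∀ l, 1 ≤ l → l < b → ∀ (o : Fin (Kk + K0) → Fin b) (i : Fin M → Fin b),
      b ≤ T (vv b l M (Kk + K0) o i) ∧ T (vv b l M (Kk + K0) o i) ≤ tt := by
    intro l h1 h2 o i
    obtain ⟨h3, h4⟩ := vv_lt (b := b) (by omega) h1 h2 hM1 o i
    exact ⟨hL2.trans (hT h3), hT h4.le⟩
  -- one block
  have hone : ∀ x ∈ Λ, |F x - B0| ≤ δ / 2 * B0 +
      (if T (top b x.1 (Kk + K0) x.2 * s) ≠ T ((top b x.1 (Kk + K0) x.2 + 1) * s)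
        then big else 0) := by
    rintro ⟨l, o⟩ hx
    obtain ⟨hx1, hx2⟩ := mem_filter.1 hx
    have hx3 := (mem_product.1 hx1).1
    rw [mem_Icc] at hx3
    obtain ⟨hl1, hl2⟩ := hx3
    simp only at hl1 hl2 hx2
    have hlb : l.Coprime b := by
      rw [← top_lead (by omega) o hx2]
      exact hwb
    have hl : l < b := by omega
    show |F (l, o) - B0| ≤ δ / 2 * B0 +
      (if T (top b l (Kk + K0) o * s) ≠ T ((top b l (Kk + K0) o + 1) * s) then big else 0)
    by_cases hbad : T (top b l (Kk + K0) o * s) ≠ T ((top b l (Kk + K0) o + 1) * s)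
    · rw [if_pos hbad]
      have h1 : 0 ≤ F (l, o) := sum_nonneg fun _ _ => fT_nonneg _ _
      have h2 : F (l, o) ≤ (b : ℝ) ^ M * (2 * CW * b * M) := by
        calc F (l, o) ≤ ∑ _i : Fin M → Fin b, (2 * CW * b * M : ℝ) := by
              refine sum_le_sum fun i _ => ?_
              have h3 : fT T (vv b l M (Kk + K0) o i) ≤ W (T (vv b l M (Kk + K0) o i)) := by
                unfold fT
                split_ifs
                · exact le_rfl
                · exact (W_pos _).le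
              exact h3.trans ((W_mono (hTle l hl1 hl o i).2).trans hWtt)
          _ = (b : ℝ) ^ M * (2 * CW * b * M) := by
              rw [sum_const, card_univ, Fintype.card_fun, Fintype.card_fin, Fintype.card_fin,
                nsmul_eq_mul]
              push_cast
              ring
      have h4 : 0 ≤ δ / 2 * B0 := by positivity
      rw [abs_le]
      constructor
      · rw [hbig]
        have : 0 ≤ (b : ℝ) ^ M * (2 * CW * b * M) := by positivity
        linarith
      · rw [hbig]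
        have : 0 ≤ (b : ℝ) ^ M * b := by positivity
        linarith
    · rw [if_neg hbad, add_zero]
      push Not at hbad
      set t := T (top b l (Kk + K0) o * s) with ht
      have hTt : ∀ i : Fin M → Fin b, T (vv b l M (Kk + K0) o i) = t := by
        intro i
        obtain ⟨h3, h4⟩ := vv_mem (b := b) (by omega) hl hM1 o i
        refine le_antisymm ?_ (hT h3)
        rw [hbad]
        exact hT h4
      have hbt : b ≤ t := by
        refine hL2.trans (hT ?_)
        have h3 : b ^ (Kk + K0) ≤ top b l (Kk + K0) o := by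
          unfold top
          have : 1 * b ^ (Kk + K0) ≤ l * b ^ (Kk + K0) := Nat.mul_le_mul_right _ hl1
          omega
        calc b ^ (2 * (M + (Kk + K0))) = b ^ (Kk + K0) * s := by
              rw [hs, ← pow_add]; congr 1; ring
          _ ≤ top b l (Kk + K0) o * s := Nat.mul_le_mul_right _ h3
      have htle : (t : ℝ) ≤ (b : ℝ) ^ (ε * M) := by
        refine le_trans ?_ htt2
        have h3 : t ≤ tt := by
          rw [← hTt (fun _ => ⟨0, by omega⟩)]
          exact (hTle l hl1 hl o _).2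
        exact_mod_cast h3
      have h1 := hL1 (Kk + K0) l t o hl hlb hbt htle
      have hWp := W_pos t
      have h2 : F (l, o) = W t * (((univ : Finset (Fin M → Fin b)).filter
          (fun i => ∀ p, p.Prime → p ≤ t → ¬ p ∣ vv b l M (Kk + K0) o i)).card : ℝ) := by
        rw [hF]
        simp only
        rw [← Finset.sum_boole, mul_sum]
        refine sum_congr rfl fun i _ => ?_
        unfold fT
        rw [hTt i, mul_ite, mul_one, mul_zero]
      have h3 : B0 = W t * ((b : ℝ) ^ M * (b / (b.totient * W t))) := by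
        rw [hB0]
        field_simp
      rw [h2, h3, ← mul_sub, abs_mul, abs_of_pos hWp]
      calc W t * |(((univ : Finset (Fin M → Fin b)).filter
          (fun i => ∀ p, p.Prime → p ≤ t → ¬ p ∣ vv b l M (Kk + K0) o i)).card : ℝ) -
            (b : ℝ) ^ M * (b / (b.totient * W t))| ≤
          W t * (δ / 2 * ((b : ℝ) ^ M * (b / (b.totient * W t)))) :=
            mul_le_mul_of_nonneg_left h1 hWp.le
        _ = _ := by ring
  -- the sum
  have hsum : ∑ n ∈ (palin b L).filter (fun n => n / b ^ (2 * L - K0) = w), fT T n =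
      ∑ x ∈ Λ, F x := by
    rw [sum_filter, h2LK, hLMK, sum_palin (by omega) M (Kk + K0) hM1, hΛ, sum_filter, sum_product]
    refine sum_congr rfl fun l hl => ?_
    rw [mem_Icc] at hl
    refine sum_congr rfl fun o _ => ?_
    have h1 : ∀ i : Fin M → Fin b, vv b l M (Kk + K0) o i / b ^ ((2 * M + (Kk + K0)) + Kk) =
        top b l (Kk + K0) o / b ^ Kk := by
      intro i
      rw [pow_add, ← Nat.div_div_eq_div_mul, vv_div (by omega) (by omega) hM1]
    simp only [h1]
    split_ifs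
    · rfl
    · exact sum_const_zero
  have hcard : (Λ.card : ℝ) = (b : ℝ) ^ Kk := by
    rw [hΛ, card_top (by omega) Kk K0 w hw1 hw2]
    push_cast
    rfl
  have hmain : (b : ℝ) ^ (L - K0) * (b / b.totient) = ∑ _x ∈ Λ, B0 := by
    rw [sum_const, nsmul_eq_mul, hcard, hB0, ← hR, show R = Kk + M by omega, pow_add]
    ring
  have hbadc : ((Λ.filter (fun x => T (top b x.1 (Kk + K0) x.2 * s) ≠
      T ((top b x.1 (Kk + K0) x.2 + 1) * s))).card : ℝ) ≤ tt := by
    have h1 := few_bad (b := b) T hT M (Kk + K0) (Icc 1 (b - 1)) (fun l hl => by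
      have := (mem_Icc.1 hl).2
      omega)
    have h2 : (Λ.filter (fun x => T (top b x.1 (Kk + K0) x.2 * s) ≠
        T ((top b x.1 (Kk + K0) x.2 + 1) * s))).card ≤ tt :=
      (card_le_card (filter_subset_filter _ (filter_subset _ _))).trans h1
    exact_mod_cast h2
  have hbig2 : (tt : ℝ) * big ≤ δ / 2 * ((b : ℝ) ^ (L - K0) * (b / b.totient)) := by
    have h1 : (2 : ℝ) ^ M ≤ (b : ℝ) ^ (1 / 2 * (M : ℝ)) := by
      have h2 : (2 : ℝ) ^ M = (4 : ℝ) ^ (1 / 2 * (M : ℝ)) := by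
        rw [Real.rpow_mul (by norm_num), ← Real.sqrt_eq_rpow, show (4 : ℝ) = 2 ^ 2 by norm_num,
          Real.sqrt_sq (by norm_num), Real.rpow_natCast]
      rw [h2]
      exact Real.rpow_le_rpow (by norm_num) hbR (by positivity)
    have h3 : big ≤ (b : ℝ) ^ M * (δ / (2 * b) * (b : ℝ) ^ (1 / 2 * (M : ℝ))) := by
      rw [hbig]
      refine mul_le_mul_of_nonneg_left (hL6.trans ?_) (by positivity)
      exact mul_le_mul_of_nonneg_left h1 (by positivity)
    have h5 : (1 : ℝ) ≤ b / b.totient := by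
      rw [le_div_iff₀ htot, one_mul]
      exact_mod_cast Nat.totient_le b
    calc (tt : ℝ) * big ≤ (b : ℝ) ^ (1 / 2 * (M : ℝ)) *
          ((b : ℝ) ^ M * (δ / (2 * b) * (b : ℝ) ^ (1 / 2 * (M : ℝ)))) :=
          mul_le_mul htt3 h3 (by positivity) (by positivity)
      _ = δ / (2 * b) * ((b : ℝ) ^ M *
            ((b : ℝ) ^ (1 / 2 * (M : ℝ)) * (b : ℝ) ^ (1 / 2 * (M : ℝ)))) := by
          ring
      _ = δ / (2 * b) * (b : ℝ) ^ (2 * M) := by
          rw [← Real.rpow_add hb0, show 1 / 2 * (M : ℝ) + 1 / 2 * (M : ℝ) = M by ring,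
            Real.rpow_natCast, ← pow_add]
          congr 2
          ring
      _ ≤ δ / (2 * b) * (b : ℝ) ^ ((L - K0) + 1) := by
          refine mul_le_mul_of_nonneg_left ?_ (by positivity)
          exact pow_le_pow_right₀ hb1.le (by omega)
      _ = δ / 2 * ((b : ℝ) ^ (L - K0) * 1) := by
          rw [pow_succ]
          field_simp
      _ ≤ δ / 2 * ((b : ℝ) ^ (L - K0) * (b / b.totient)) := by
          refine mul_le_mul_of_nonneg_left ?_ (by positivity)
          exact mul_le_mul_of_nonneg_left h5 (by positivity)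
  rw [hsum, hmain, ← sum_sub_distrib]
  refine (abs_sum_le_sum_abs _ _).trans ((sum_le_sum hone).trans ?_)
  rw [sum_add_distrib, ← mul_sum, ← hmain, ← sum_filter, sum_const, nsmul_eq_mul]
  have hbig0 : 0 ≤ big := by
    rw [hbig]
    positivity
  have h5 := mul_le_mul_of_nonneg_right hbadc hbig0
  calc _ ≤ δ / 2 * ((b : ℝ) ^ (L - K0) * (b / b.totient)) +
        δ / 2 * ((b : ℝ) ^ (L - K0) * (b / b.totient)) :=
        add_le_add le_rfl (h5.trans hbig2)
    _ = _ := by ring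

end Pool.Agent.U668.PA
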