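import Pool.Agent.U668.PA.Rand
import Pool.Agent.U668.PA.Win2

/-!
# Chosen palindromes with prescribed leading digits
-/

set_option autoImplicit false

namespace Pool.Agent.U668.PA

open Finset Filter Topology MeasureTheory ProbabilityTheory Pool.Agent.H39R3.PB
  Pool.Agent.H181R5.PBT9 Pool.Agent.U485.SM

variable {b : ℕ}

/-- the palindromes with `2 L + 1` digits and leading part `w` (`K + 1` digits) -/
def wp (b L K w : ℕ) : Finset ℕ := (palin b L).filter (fun n => n / b ^ (2 * L - K) = w)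

open Classical in
/-- the number of the chosen elements of `S` -/
noncomputable def nchS {Ω : Type} (E : ℕ → Set Ω) (S : Finset ℕ) (ω : Ω) : ℝ :=
  ((S.filter (fun n => ω ∈ E n)).card : ℝ)

open Classical in
theorem devS {Ω : Type} {mΩ : MeasurableSpace Ω} (μ : Measure Ω) (hμ : IsProbabilityMeasure μ)
    (E : ℕ → Set Ω) (hE : ∀ n, MeasurableSet (E n)) (hI : iIndepSet E μ) (S : Finset ℕ) (ε : ℝ)
    (hε : 0 < ε) (hε1 : ε ≤ 1) :
    μ.real {ω | 2 * ε * ∑ n ∈ S, μ.real (E n) < |nchS E S ω - ∑ n ∈ S, μ.real (E n)|} ≤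
      2 * Real.exp (-(ε ^ 2 * (∑ n ∈ S, μ.real (E n)) / 2)) := by
  have hM0 : 0 ≤ ∑ n ∈ S, μ.real (E n) := sum_nonneg fun _ _ => measureReal_nonneg
  have hD : ∀ n ∈ S.image (fun n : ℕ => (n : ℤ)),
      {m : ℤ | m ∈ S.image (fun n : ℕ => (n : ℤ)) ∧ m ≠ n ∧
          ¬ Disjoint ((fun n : ℤ => ({n.toNat} : Finset ℕ)) n)
            ((fun n : ℤ => ({n.toNat} : Finset ℕ)) m)}.ncard ≤ 0 := by
    intro n hn
    have h1 : {m : ℤ | m ∈ S.image (fun n : ℕ => (n : ℤ)) ∧ m ≠ n ∧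
          ¬ Disjoint ((fun n : ℤ => ({n.toNat} : Finset ℕ)) n)
            ((fun n : ℤ => ({n.toNat} : Finset ℕ)) m)} = ∅ := by
      rw [Set.eq_empty_iff_forall_notMem]
      rintro m ⟨hm, hmn, hd⟩
      simp only [Finset.disjoint_singleton, not_not] at hd
      rw [mem_image] at hn hm
      obtain ⟨n', _, rfl⟩ := hn
      obtain ⟨m', _, rfl⟩ := hm
      simp only [Int.toNat_natCast] at hd
      exact hmn (by rw [hd])
    rw [h1, Set.ncard_empty]
  have h := Pool.Agent.U741.HT.t_CHE Pool.Agent.U373.HT.COL.t_COL Ω mΩ μ hμ E hE hI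
    (S.image (fun n : ℕ => (n : ℤ))) (fun n : ℤ => ({n.toNat} : Finset ℕ)) 0 hD
    ε (ε * ∑ n ∈ S, μ.real (E n)) hε hε1 (mul_nonneg hε.le hM0)
  have hinj : Set.InjOn (fun n : ℕ => (n : ℤ)) S := fun x _ y _ hxy =>
    Int.ofNat_inj.1 hxy
  have hs : ∑ n ∈ S.image (fun n : ℕ => (n : ℤ)), ∏ j ∈ ({n.toNat} : Finset ℕ),
      μ.real (E j) = ∑ n ∈ S, μ.real (E n) := by
    rw [sum_image hinj]
    refine sum_congr rfl fun n _ => ?_
    rw [Finset.prod_singleton, Int.toNat_natCast]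
  have hc : ∀ ω, (((S.image (fun n : ℕ => (n : ℤ))).filter
      (fun n => ∀ j ∈ ({n.toNat} : Finset ℕ), ω ∈ E j)).card : ℝ) = nchS E S ω := by
    intro ω
    rw [nchS, filter_image, card_image_of_injOn (fun x _ y _ hxy => Int.ofNat_inj.1 hxy)]
    congr 2
    apply filter_congr
    intro n _
    simp only [Finset.mem_singleton, forall_eq, Int.toNat_natCast]
  simp only [hs, hc] at h
  have e : {ω | 2 * ε * ∑ n ∈ S, μ.real (E n) < |nchS E S ω - ∑ n ∈ S, μ.real (E n)|} =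
      {ω | ε * ∑ n ∈ S, μ.real (E n) + ((0 : ℕ) + 1 : ℝ) * (ε * ∑ n ∈ S, μ.real (E n)) <
      |nchS E S ω - ∑ n ∈ S, μ.real (E n)|} := by
    ext ω
    rw [Set.mem_ofPred_eq, Set.mem_ofPred_eq]
    have : ε * ∑ n ∈ S, μ.real (E n) + ((0 : ℕ) + 1 : ℝ) *
        (ε * ∑ n ∈ S, μ.real (E n)) = 2 * ε * ∑ n ∈ S, μ.real (E n) := by
      push_cast
      ring
    rw [this]
  rw [e]
  refine h.trans (le_of_eq ?_)
  push_cast
  ring_nf

/-- the expected number -/
noncomputable def AA (b L K : ℕ) : ℝ :=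
  (b : ℝ) ^ (L - K) * (b / b.totient) / (2 * L * Real.log b)

/-- the mean number of the chosen palindromes with prescribed leading digits -/
theorem wmean_chosen {Ω : Type} {mΩ : MeasurableSpace Ω} (μ : Measure Ω)
    (E : ℕ → Set Ω) (hb : 4 ≤ b) (he : 2 ∣ b) (T : ℕ → ℕ) (hT : Monotone T)
    (hTb : ∀ᶠ n : ℕ in atTop, b ≤ T n)
    (hTs : ∀ ε : ℝ, 0 < ε → ∀ᶠ n : ℕ in atTop, (T n : ℝ) ≤ (n : ℝ) ^ ε)
    (hp : ∀ᶠ n : ℕ in atTop, μ.real (E n) = fT T n / Real.log n) (θ : ℝ) (hθ : θ < 1)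
    (δ : ℝ) (hδ : 0 < δ) :
    ∀ᶠ L : ℕ in atTop, ∀ K : ℕ, (K : ℝ) ≤ θ * L → ∀ w : ℕ, b ^ K ≤ w → w < b ^ (K + 1) →
      (w / b ^ K).Coprime b →
      |∑ n ∈ wp b L K w, μ.real (E n) - AA b L K| ≤ δ * AA b L K := by
  have hbR : (4 : ℝ) ≤ b := by exact_mod_cast hb
  have hb0 : (0 : ℝ) < b := by linarith
  have hb1 : (1 : ℝ) < b := by linarith
  have hlog : 0 < Real.log b := Real.log_pos hb1
  obtain ⟨n0, hn0⟩ := eventually_atTop.1 hp
  have hblim : Tendsto (fun L : ℕ => b ^ (2 * L)) atTop atTop :=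
    (tendsto_pow_atTop_atTop_of_one_lt (by omega : 1 < b)).comp
      (tendsto_atTop_atTop.2 fun n => ⟨n, fun L hL => by omega⟩)
  have htot0 : 0 < b.totient := Nat.totient_pos.2 (by omega)
  have htot : (0 : ℝ) < b.totient := by exact_mod_cast htot0
  filter_upwards [wmean hb he (bvB_all (by omega)) T hT hTb hTs θ hθ (δ / 2) (half_pos hδ),
    hblim.eventually_ge_atTop n0, eventually_ge_atTop ⌈2 / δ⌉₊, eventually_ge_atTop 1]
    with L hL1 hL hL3 hL4
  intro K hK w hw1 hw2 hwb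
  have h0 := hL1 K hK w hw1 hw2 hwb
  have hrange : ∀ n ∈ wp b L K w, b ^ (2 * L) ≤ n ∧ n < b ^ (2 * L + 1) := by
    intro n hn
    rw [wp, mem_filter, palin, mem_filter, mem_range] at hn
    exact ⟨hn.1.2.1, hn.1.1⟩
  have hL0 : (0 : ℝ) < L := by exact_mod_cast hL4
  have hδL : 2 ≤ δ * L := by
    have h1 := (Nat.le_ceil (2 / δ)).trans
      (by exact_mod_cast hL3 : ((⌈2 / δ⌉₊ : ℕ) : ℝ) ≤ L)
    rw [div_le_iff₀ hδ] at h1
    linarith
  set P : ℝ := (b : ℝ) ^ (L - K) * (b / b.totient) with hP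
  have hP0 : 0 < P := by positivity
  have hAA : AA b L K = P / (2 * L * Real.log b) := rfl
  have hAA0 : 0 < AA b L K := by rw [hAA]; positivity
  have h0' : |∑ n ∈ wp b L K w, fT T n - P| ≤ δ / 2 * P := h0
  rw [abs_le] at h0'
  have hup : ∑ n ∈ wp b L K w, μ.real (E n) ≤
      (∑ n ∈ wp b L K w, fT T n) / (2 * L * Real.log b) := by
    rw [sum_div]
    refine sum_le_sum fun n hn => ?_
    obtain ⟨h4, h5⟩ := hrange n hn
    rw [hn0 n (hL.trans h4)]
    refine div_le_div_of_nonneg_left (fT_nonneg T n) (by positivity) ?_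
    have h7 : Real.log ((b : ℝ) ^ (2 * L)) ≤ Real.log n :=
      Real.log_le_log (by positivity) (by exact_mod_cast h4)
    rw [Real.log_pow] at h7
    push_cast at h7
    exact h7
  have hlo : (∑ n ∈ wp b L K w, fT T n) / ((2 * L + 1) * Real.log b) ≤
      ∑ n ∈ wp b L K w, μ.real (E n) := by
    rw [sum_div]
    refine sum_le_sum fun n hn => ?_
    obtain ⟨h4, h5⟩ := hrange n hn
    rw [hn0 n (hL.trans h4)]
    have h6 : (1 : ℝ) < n := by
      have : b ^ (2 * 1) ≤ b ^ (2 * L) := Nat.pow_le_pow_right (by omega) (by omega)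
      have : 4 ^ (2 * 1) ≤ b ^ (2 * 1) := Nat.pow_le_pow_left hb _
      exact_mod_cast (by omega : 1 < n)
    refine div_le_div_of_nonneg_left (fT_nonneg T n) (Real.log_pos h6) ?_
    have h7 : Real.log n ≤ Real.log ((b : ℝ) ^ (2 * L + 1)) :=
      Real.log_le_log (by linarith) (by exact_mod_cast h5.le)
    rw [Real.log_pow] at h7
    push_cast at h7
    exact h7
  have hup2 : (∑ n ∈ wp b L K w, fT T n) / (2 * L * Real.log b) ≤ (1 + δ / 2) * AA b L K := by
    rw [hAA, ← mul_div_assoc]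
    exact div_le_div_of_nonneg_right (by linarith) (by positivity)
  have hlo2 : (1 - δ / 2) * P / ((2 * L + 1) * Real.log b) ≤
      (∑ n ∈ wp b L K w, fT T n) / ((2 * L + 1) * Real.log b) :=
    div_le_div_of_nonneg_right (by linarith) (by positivity)
  have hlo3 : (1 - δ) * AA b L K ≤ (1 - δ / 2) * P / ((2 * L + 1) * Real.log b) := by
    have h1 : (1 - δ / 2) * P / ((2 * L + 1) * Real.log b) =
        (1 - δ / 2) * (2 * L / (2 * L + 1)) * AA b L K := by
      rw [hAA]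
      field_simp
    rw [h1]
    refine mul_le_mul_of_nonneg_right ?_ hAA0.le
    rw [← mul_div_assoc, le_div_iff₀ (by positivity)]
    nlinarith
  rw [abs_le]
  constructor
  · linarith
  · linarith

end Pool.Agent.U668.PA
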