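import Pool.Agent.U668.PA.Rand2

/-!
# Chosen palindromes with prescribed leading digits, almost surely
-/

set_option autoImplicit false

namespace Pool.Agent.U668.PA

open Finset Filter Topology MeasureTheory ProbabilityTheory Pool.Agent.H39R3.PB
  Pool.Agent.H181R5.PBT9 Pool.Agent.U485.SM

variable {b : ℕ}

/-- the expected number is large -/
theorem AA_big (hb : 4 ≤ b) (θ : ℝ) (hθ : θ < 1) :
    ∀ᶠ L : ℕ in atTop, ∀ K : ℕ, (K : ℝ) ≤ θ * L → 2 * (L : ℝ) ^ 2 ≤ AA b L K := by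
  have hbR : (4 : ℝ) ≤ b := by exact_mod_cast hb
  have hb0 : (0 : ℝ) < b := by linarith
  have hb1 : (1 : ℝ) < b := by linarith
  have hlog : 0 < Real.log b := Real.log_pos hb1
  have htot0 : 0 < b.totient := Nat.totient_pos.2 (by omega)
  have htot : (0 : ℝ) < b.totient := by exact_mod_cast htot0
  have hr : 1 < (b : ℝ) ^ (1 - θ) := Real.one_lt_rpow hb1 (by linarith)
  have h1 : Tendsto (fun n : ℕ => (4 * Real.log b) * ((n : ℝ) ^ 3 / ((b : ℝ) ^ (1 - θ)) ^ n)) atTop
      (𝓝 ((4 * Real.log b) * 0)) :=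
    (tendsto_pow_const_div_const_pow_of_one_lt 3 hr).const_mul _
  rw [mul_zero] at h1
  filter_upwards [h1.eventually_lt_const one_pos, eventually_ge_atTop 1] with L hL1 hL4
  intro K hK
  have hL0 : (0 : ℝ) < L := by exact_mod_cast hL4
  have hrL : (0 : ℝ) < ((b : ℝ) ^ (1 - θ)) ^ L := by positivity
  rw [← mul_div_assoc, div_lt_one hrL] at hL1
  have hKL : K ≤ L := by
    have : (K : ℝ) ≤ L := hK.trans (by nlinarith)
    exact_mod_cast this
  have h2 : ((b : ℝ) ^ (1 - θ)) ^ L ≤ (b : ℝ) ^ (L - K) := by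
    rw [← Real.rpow_natCast, ← Real.rpow_mul hb0.le, ← Real.rpow_natCast (b : ℝ) (L - K)]
    refine Real.rpow_le_rpow_of_exponent_le hb1.le ?_
    rw [Nat.cast_sub hKL]
    linarith
  have h5 : (1 : ℝ) ≤ b / b.totient := by
    rw [le_div_iff₀ htot, one_mul]
    exact_mod_cast Nat.totient_le b
  unfold AA
  rw [le_div_iff₀ (by positivity)]
  calc 2 * (L : ℝ) ^ 2 * (2 * L * Real.log b) = 4 * Real.log b * (L : ℝ) ^ 3 := by ring
    _ ≤ (b : ℝ) ^ (L - K) := hL1.le.trans h2
    _ = (b : ℝ) ^ (L - K) * 1 := (mul_one _).symm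
    _ ≤ _ := mul_le_mul_of_nonneg_left h5 (by positivity)

/-- **Palindromes with prescribed leading digits in sieved random models.** -/
theorem wchosen {Ω : Type} {mΩ : MeasurableSpace Ω} (μ : Measure Ω) (hμ : IsProbabilityMeasure μ)
    (E : ℕ → Set Ω) (hE : ∀ n, MeasurableSet (E n)) (hI : iIndepSet E μ)
    (hb : 4 ≤ b) (he : 2 ∣ b) (T : ℕ → ℕ) (hT : Monotone T)
    (hTb : ∀ᶠ n : ℕ in atTop, b ≤ T n)
    (hTs : ∀ ε : ℝ, 0 < ε → ∀ᶠ n : ℕ in atTop, (T n : ℝ) ≤ (n : ℝ) ^ ε)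
    (hp : ∀ᶠ n : ℕ in atTop, μ.real (E n) = fT T n / Real.log n) :
    ∀ᵐ ω ∂μ, ∀ θ : ℝ, θ < 1 → ∀ δ : ℝ, 0 < δ →
      ∀ᶠ L : ℕ in atTop, ∀ K : ℕ, (K : ℝ) ≤ θ * L → ∀ w : ℕ, b ^ K ≤ w → w < b ^ (K + 1) →
        (w / b ^ K).Coprime b → |nchS E (wp b L K w) ω - AA b L K| ≤ δ * AA b L K := by
  have hbR : (4 : ℝ) ≤ b := by exact_mod_cast hb
  have hb0 : (0 : ℝ) < b := by linarith
  have hb1 : (1 : ℝ) < b := by linarith
  have hlog : 0 < Real.log b := Real.log_pos hb1
  have htot0 : 0 < b.totient := Nat.totient_pos.2 (by omega)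
  have htot : (0 : ℝ) < b.totient := by exact_mod_cast htot0
  have hAA0 : ∀ L K, 0 ≤ AA b L K := fun L K => by unfold AA; positivity
  have key : ∀ j m : ℕ, ∀ᵐ ω ∂μ, ∀ᶠ L : ℕ in atTop,
      ∀ K : ℕ, (K : ℝ) ≤ (1 - 1 / ((j : ℝ) + 1)) * L → ∀ w : ℕ, b ^ K ≤ w → w < b ^ (K + 1) →
        (w / b ^ K).Coprime b → |nchS E (wp b L K w) ω - AA b L K| ≤
          5 * (1 / ((m : ℝ) + 1)) * AA b L K := by
    intro j m
    set θ : ℝ := 1 - 1 / ((j : ℝ) + 1) with hθ
    have hθ1 : θ < 1 := by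
      have : 0 < 1 / ((j : ℝ) + 1) := by positivity
      linarith
    set ε : ℝ := 1 / ((m : ℝ) + 1) with hε
    have hε0 : 0 < ε := by positivity
    have hε1 : ε ≤ 1 := by
      rw [hε, div_le_one (by positivity)]
      linarith [Nat.cast_nonneg (α := ℝ) m]
    set mm : ℕ → ℕ → ℕ → ℝ := fun L K w => ∑ n ∈ wp b L K w, μ.real (E n) with hmm
    set D : ℕ → ℕ → ℕ → Set Ω := fun L K w =>
      {ω | 2 * ε * mm L K w < |nchS E (wp b L K w) ω - mm L K w|} with hD
    set Q : ℕ → ℕ → ℕ → Prop := fun L K w => (K : ℝ) ≤ θ * L ∧ b ^ K ≤ w ∧ w < b ^ (K + 1) ∧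
      (w / b ^ K).Coprime b with hQ
    classical
    set B : ℕ → Set Ω := fun L => ⋃ x ∈ ((range (L + 1)) ×ˢ (range (b ^ (L + 1)))).filter
      (fun x => Q L x.1 x.2), D L x.1 x.2 with hB
    have hmean := wmean_chosen μ E hb he T hT hTb hTs hp θ hθ1 (min ε (1 / 2))
      (lt_min hε0 (by norm_num))
    have hbnd : ∀ᶠ L : ℕ in atTop, μ.real (B L) ≤ 2 * Real.exp (-1) ^ L := by
      filter_upwards [hmean, AA_big hb θ hθ1, eventually_ge_atTop ⌈4 * (1 + Real.log b) / ε ^ 2 + 1⌉₊,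
        eventually_ge_atTop 1] with L h1 h2 h3 h4
      have hL0 : (1 : ℝ) ≤ L := by exact_mod_cast h4
      have h3' : 4 * (1 + Real.log b) ≤ ε ^ 2 * L := by
        have h5 := (Nat.le_ceil (4 * (1 + Real.log b) / ε ^ 2 + 1)).trans
          (by exact_mod_cast h3 : ((⌈4 * (1 + Real.log b) / ε ^ 2 + 1⌉₊ : ℕ) : ℝ) ≤ L)
        have h6 : 4 * (1 + Real.log b) / ε ^ 2 ≤ L := by linarith
        rw [div_le_iff₀ (by positivity)] at h6
        linarith
      have hone : ∀ x ∈ ((range (L + 1)) ×ˢ (range (b ^ (L + 1)))).filter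
          (fun x => Q L x.1 x.2), μ.real (D L x.1 x.2) ≤
            2 * Real.exp (-(ε ^ 2 * (L : ℝ) ^ 2 / 2)) := by
        intro x hx
        obtain ⟨q1, q2, q3, q4⟩ := (mem_filter.1 hx).2
        have h5 := h1 x.1 q1 x.2 q2 q3 q4
        have h6 := h2 x.1 q1
        have h7 : (L : ℝ) ^ 2 ≤ mm L x.1 x.2 := by
          rw [abs_le] at h5
          have h8 : min ε (1 / 2) * AA b L x.1 ≤ 1 / 2 * AA b L x.1 :=
            mul_le_mul_of_nonneg_right (min_le_right _ _) (hAA0 _ _)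
          have h9 : mm L x.1 x.2 = ∑ n ∈ wp b L x.1 x.2, μ.real (E n) := rfl
          rw [h9]
          linarith
        refine (devS μ hμ E hE hI (wp b L x.1 x.2) ε hε0 hε1).trans ?_
        refine mul_le_mul_of_nonneg_left ?_ (by norm_num)
        apply Real.exp_le_exp.2
        have h8 : ε ^ 2 * (L : ℝ) ^ 2 ≤ ε ^ 2 * ∑ n ∈ wp b L x.1 x.2, μ.real (E n) :=
          mul_le_mul_of_nonneg_left h7 (by positivity)
        linarith
      calc μ.real (B L) ≤ ∑ x ∈ ((range (L + 1)) ×ˢ (range (b ^ (L + 1)))).filter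
            (fun x => Q L x.1 x.2), μ.real (D L x.1 x.2) := measureReal_biUnion_finset_le _ _
        _ ≤ ∑ _x ∈ ((range (L + 1)) ×ˢ (range (b ^ (L + 1)))).filter
            (fun x => Q L x.1 x.2), 2 * Real.exp (-(ε ^ 2 * (L : ℝ) ^ 2 / 2)) := sum_le_sum hone
        _ ≤ ∑ _x ∈ (range (L + 1)) ×ˢ (range (b ^ (L + 1))),
            2 * Real.exp (-(ε ^ 2 * (L : ℝ) ^ 2 / 2)) :=
            sum_le_sum_of_subset_of_nonneg (filter_subset _ _) fun _ _ _ => by positivity
        _ = ((L : ℝ) + 1) * (b : ℝ) ^ (L + 1) * (2 * Real.exp (-(ε ^ 2 * (L : ℝ) ^ 2 / 2))) := by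
            rw [sum_const, card_product, card_range, card_range, nsmul_eq_mul]
            push_cast
            ring
        _ ≤ Real.exp L * Real.exp ((L + 1) * Real.log b) *
            (2 * Real.exp (-(ε ^ 2 * (L : ℝ) ^ 2 / 2))) := by
            refine mul_le_mul_of_nonneg_right ?_ (by positivity)
            refine mul_le_mul (Real.add_one_le_exp _) (le_of_eq ?_) (by positivity)
              (Real.exp_pos _).le
            rw [mul_comm ((L : ℝ) + 1), Real.exp_mul, Real.exp_log hb0,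
              ← Real.rpow_natCast (b : ℝ) (L + 1)]
            push_cast
            rfl
        _ = 2 * Real.exp (L + (L + 1) * Real.log b + -(ε ^ 2 * (L : ℝ) ^ 2 / 2)) := by
            rw [Real.exp_add, Real.exp_add]
            ring
        _ ≤ 2 * Real.exp (-1) ^ L := by
            rw [← Real.exp_nat_mul]
            refine mul_le_mul_of_nonneg_left ?_ (by norm_num)
            apply Real.exp_le_exp.2
            have h5 : 4 * (1 + Real.log b) * L ≤ ε ^ 2 * L * L :=
              mul_le_mul_of_nonneg_right h3' (by linarith)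
            have h6 : ((L : ℝ) + 1) * Real.log b ≤ (2 * L) * Real.log b :=
              mul_le_mul_of_nonneg_right (by linarith) hlog.le
            nlinarith
    have hsum : Summable fun L : ℕ => μ.real (B L) := by
      have hg : Summable fun L : ℕ => 2 * Real.exp (-1) ^ L := by
        refine Summable.mul_left 2 (summable_geometric_of_lt_one (Real.exp_pos _).le ?_)
        rw [Real.exp_lt_one_iff]
        norm_num
      refine Summable.of_norm_bounded_eventually_nat hg ?_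
      filter_upwards [hbnd] with L hL
      rw [Real.norm_of_nonneg measureReal_nonneg]
      exact hL
    have hne : ∑' L : ℕ, μ (B L) ≠ ⊤ := by
      have h2 : ∑' L : ℕ, μ (B L) = ∑' L : ℕ, ENNReal.ofReal (μ.real (B L)) :=
        tsum_congr fun x => (ofReal_measureReal (measure_ne_top μ _)).symm
      rw [h2]
      exact hsum.tsum_ofReal_ne_top
    filter_upwards [ae_eventually_notMem hne] with ω hω
    filter_upwards [hω, hmean] with L hL hL2
    intro K hK w hw1 hw2 hwb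
    have h5 := hL2 K hK w hw1 hw2 hwb
    have hKL : K ≤ L := by
      have h6 : (0 : ℝ) ≤ L := Nat.cast_nonneg _
      have : (K : ℝ) ≤ L := hK.trans (by nlinarith)
      exact_mod_cast this
    have h6 : ω ∉ D L K w := by
      intro h7
      apply hL
      rw [hB]
      simp only [Set.mem_iUnion]
      refine ⟨(K, w), ?_, h7⟩
      rw [mem_filter, mem_product, mem_range, mem_range]
      exact ⟨⟨by simp only; omega, lt_of_lt_of_le hw2 (Nat.pow_le_pow_right (by omega) (by omega))⟩,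
        hK, hw1, hw2, hwb⟩
    have h7 : |nchS E (wp b L K w) ω - mm L K w| ≤ 2 * ε * mm L K w := by
      by_contra hcon
      push Not at hcon
      exact h6 hcon
    have h8 : |mm L K w - AA b L K| ≤ min ε (1 / 2) * AA b L K := h5
    have h9 : min ε (1 / 2) * AA b L K ≤ ε * AA b L K :=
      mul_le_mul_of_nonneg_right (min_le_left _ _) (hAA0 _ _)
    have h10 : min ε (1 / 2) * AA b L K ≤ 1 / 2 * AA b L K :=
      mul_le_mul_of_nonneg_right (min_le_right _ _) (hAA0 _ _)
    have h11 : mm L K w ≤ 2 * AA b L K := by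
      have := (abs_le.1 h8).2
      have := hAA0 L K
      linarith
    have h12 : 2 * ε * mm L K w ≤ 2 * ε * (2 * AA b L K) :=
      mul_le_mul_of_nonneg_left h11 (by positivity)
    calc |nchS E (wp b L K w) ω - AA b L K| ≤
        |nchS E (wp b L K w) ω - mm L K w| + |mm L K w - AA b L K| := abs_sub_le _ _ _
      _ ≤ 2 * ε * (2 * AA b L K) + ε * AA b L K := by linarith
      _ = 5 * ε * AA b L K := by ring
  filter_upwards [ae_all_iff.2 fun j => ae_all_iff.2 (key j)] with ω hω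
  intro θ hθ δ hδ
  obtain ⟨j, hj⟩ := exists_nat_one_div_lt (show (0 : ℝ) < 1 - θ by linarith)
  obtain ⟨m, hm⟩ := exists_nat_one_div_lt (show (0 : ℝ) < δ / 5 by positivity)
  filter_upwards [hω j m] with L hL
  intro K hK w hw1 hw2 hwb
  have hL0 : (0 : ℝ) ≤ L := Nat.cast_nonneg _
  refine (hL K (hK.trans (mul_le_mul_of_nonneg_right (by linarith) hL0)) w hw1 hw2 hwb).trans ?_
  exact mul_le_mul_of_nonneg_right (by linarith) (hAA0 _ _)

end Pool.Agent.U668.PA
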