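import Pool.Agent.U668.PA.Mean2

/-!
# The sum of the weights of the sieve over the palindromes with prescribed leading digits
-/

set_option autoImplicit false

namespace Pool.Agent.U668.PA

open Finset Filter Topology Pool.Agent.H39R3.PB Pool.Agent.H181R5.PBT9 Pool.Agent.U485.SM

variable {b : ℕ}

theorem vv_div (hb : 2 ≤ b) {l M K : ℕ} (hl : l < b) (hM : 1 ≤ M) (o : Fin K → Fin b)
    (i : Fin M → Fin b) : vv b l M K o i / b ^ (2 * M + K) = top b l K o := by
  have h1 : outer b l M K o = top b l K o * b ^ (2 * M + K) +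
      (l + ∑ c : Fin K, (o c : ℕ) * b ^ (K - (c : ℕ))) := by
    unfold outer top
    have h2 : ∑ c : Fin K, (o c : ℕ) * fr b (M + K) (M + c) =
        (∑ c : Fin K, (o c : ℕ) * b ^ (c : ℕ)) * b ^ (2 * M + K) +
          ∑ c : Fin K, (o c : ℕ) * b ^ (K - (c : ℕ)) := by
      rw [sum_mul, ← sum_add_distrib]
      refine sum_congr rfl fun c _ => ?_
      unfold fr
      rw [if_neg (by omega), mul_add, mul_assoc, ← pow_add]
      congr 3
      · ring
      · omega
    rw [h2, mul_add, mul_one, add_mul, mul_assoc, ← pow_add]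
    have h3 : K + (2 * M + K) = 2 * (M + K) := by ring
    rw [h3]
    ring
  have h2 : ∑ c : Fin M, (i c : ℕ) * fr b M c + b ≤ b ^ (2 * M) := by
    have h3 := Nat.lt_base_pow_length_digits (b := b) (m := pvl b (b - 1) M i) (by omega)
    rw [digits_pvl hb (by omega) (by omega) M hM, lst, List.length_map, List.length_range] at h3
    unfold pvl at h3
    obtain ⟨k, rfl⟩ : ∃ k, b = k + 1 := ⟨b - 1, by omega⟩
    rw [pow_succ] at h3
    simp only [Nat.add_sub_cancel] at h3
    have h4 : k * ((k + 1) ^ (2 * M) + 1) = k * (k + 1) ^ (2 * M) + k := by ring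
    have h5 : (k + 1) ^ (2 * M) * (k + 1) = k * (k + 1) ^ (2 * M) + (k + 1) ^ (2 * M) := by ring
    rw [h4, h5] at h3
    omega
  have h3 : b ^ K * ∑ c : Fin M, (i c : ℕ) * fr b M c + b ^ (K + 1) ≤ b ^ (2 * M + K) := by
    have h4 : b ^ K * (∑ c : Fin M, (i c : ℕ) * fr b M c + b) ≤ b ^ K * b ^ (2 * M) :=
      Nat.mul_le_mul_left _ h2
    rw [mul_add, ← pow_succ, ← pow_add] at h4
    rwa [add_comm (2 * M) K]
  have h4 := geom_bound K o
  simp only [ite_self, add_zero] at h4
  have h5 : 0 < b ^ (2 * M + K) := by positivity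
  rw [vv_eq, h1, add_assoc, mul_comm (top b l K o), Nat.mul_add_div h5, Nat.div_eq_of_lt, add_zero]
  omega

/-- number of the blocks with the given leading part `w` -/
theorem card_top (hb : 2 ≤ b) (Kk K0 w : ℕ) (hw1 : b ^ K0 ≤ w) (hw2 : w < b ^ (K0 + 1)) :
    (((Icc 1 (b - 1)) ×ˢ (univ : Finset (Fin (Kk + K0) → Fin b))).filter
      (fun x => top b x.1 (Kk + K0) x.2 / b ^ Kk = w)).card = b ^ Kk := by
  have hp : 0 < b ^ Kk := by positivity
  have hp' : 0 < b ^ (Kk + K0) := by positivity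
  have h1 : (((Icc 1 (b - 1)) ×ˢ (univ : Finset (Fin (Kk + K0) → Fin b))).filter
      (fun x => top b x.1 (Kk + K0) x.2 / b ^ Kk = w)).image
      (fun x => top b x.1 (Kk + K0) x.2) = Ico (w * b ^ Kk) ((w + 1) * b ^ Kk) := by
    ext u
    rw [mem_image, mem_Ico]
    constructor
    · rintro ⟨x, hx, rfl⟩
      have h2 := (mem_filter.1 hx).2
      rw [← h2]
      exact ⟨Nat.div_mul_le_self _ _, (Nat.div_lt_iff_lt_mul hp).1 (Nat.lt_succ_self _)⟩
    · rintro ⟨h2, h3⟩
      have hu1 : b ^ (Kk + K0) ≤ u := by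
        refine le_trans ?_ h2
        rw [pow_add, mul_comm]
        exact Nat.mul_le_mul_right _ hw1
      have hu2 : u < b ^ (Kk + K0) * b := by
        refine lt_of_lt_of_le h3 ?_
        have h4 : (w + 1) * b ^ Kk ≤ b ^ (K0 + 1) * b ^ Kk := Nat.mul_le_mul_right _ hw2
        refine h4.trans (le_of_eq ?_)
        rw [← pow_add, ← pow_succ]
        congr 1
        ring
      have hl1 : 1 ≤ u / b ^ (Kk + K0) := (Nat.one_le_div_iff hp').2 hu1
      have hl2 : u / b ^ (Kk + K0) < b := Nat.div_lt_of_lt_mul hu2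
      refine ⟨(u / b ^ (Kk + K0), finFunctionFinEquiv.symm ⟨u % b ^ (Kk + K0), Nat.mod_lt _ hp'⟩),
        ?_, ?_⟩
      · have htop : top b (u / b ^ (Kk + K0)) (Kk + K0)
            (finFunctionFinEquiv.symm ⟨u % b ^ (Kk + K0), Nat.mod_lt _ hp'⟩) = u := by
          unfold top
          rw [← finFunctionFinEquiv_apply, Equiv.apply_symm_apply]
          exact Nat.div_add_mod' u _
        rw [mem_filter, mem_product, mem_Icc]
        refine ⟨⟨⟨hl1, by simp only; omega⟩, mem_univ _⟩, ?_⟩
        simp only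
        rw [htop]
        exact Nat.div_eq_of_lt_le h2 h3
      · simp only
        unfold top
        rw [← finFunctionFinEquiv_apply, Equiv.apply_symm_apply]
        exact Nat.div_add_mod' u _
  have h2 := congrArg Finset.card h1
  rw [card_image_of_injOn, Nat.card_Ico, add_mul, one_mul, Nat.add_sub_cancel_left] at h2
  · exact h2
  · intro x _ y _ hxy
    have h3 := top_inj hxy
    exact Prod.ext h3.1 h3.2

/-- the leading digit -/
theorem top_lead (hb : 2 ≤ b) {Kk K0 w l : ℕ} (o : Fin (Kk + K0) → Fin b)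
    (h : top b l (Kk + K0) o / b ^ Kk = w) : w / b ^ K0 = l := by
  have hp' : 0 < b ^ (Kk + K0) := by positivity
  rw [← h, Nat.div_div_eq_div_mul, ← pow_add]
  unfold top
  rw [← finFunctionFinEquiv_apply o, mul_comm, Nat.mul_add_div hp',
    Nat.div_eq_of_lt (finFunctionFinEquiv o).2, add_zero]

end Pool.Agent.U668.PA
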